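import Pool.Agent.W900.CH.EFar
import Pool.Agent.W900.CH.NELev
import Pool.Agent.H622R2.Exp.K1
import Pool.Agent.H622R2.Exp.K6

/-!
# Changing few strings of any oracle makes exponential space equal to exponential time
-/

set_option autoImplicit false

namespace Pool.Agent.TH771.CX

open MeasureTheory Filter Pool.Agent.NPC
open Pool.Agent.H628R3.RO (randomOracle)
open Pool.Agent.H620R2.Gauge Pool.Agent.H622R2.Exp Pool.Agent.W900.CH

/-- An oracle which differs only on a sparse set of strings is close. -/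
theorem close_of_sparse {g h : ℕ → ℝ} (T : Set (List Bool)) [DecidablePred (fun i => str i ∈ T)]
    (hT : ∀ᶠ N : ℕ in atTop, (((Finset.range N).filter (fun i => str i ∈ T)).card : ℝ) ≤ h N)
    (hg : ∀ᶠ n : ℕ in atTop, h (2 ^ (n + 1)) ≤ g n) {O A : Oracle}
    (hΦ : ∀ y ∉ T, A y = O y) : Close g O A := by
  classical
  have h1 : ∀ᶠ n : ℕ in atTop, (((Finset.range (2 ^ (n + 1))).filter
      (fun i => str i ∈ T)).card : ℝ) ≤ h (2 ^ (n + 1)) :=
    ((tendsto_pow_atTop_atTop_of_one_lt (by norm_num : 1 < 2)).comp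
      (tendsto_add_atTop_nat 1)).eventually hT
  unfold Close
  filter_upwards [h1, hg] with n h2 h3
  have h5 := dist_le_of_off (O := O) (A := A) (T := T) hΦ n
  have h6 : (Pool.Agent.W900.CH.dist O A n : ℝ) ≤ (((Finset.range (2 ^ (n + 1))).filter
      (fun i => str i ∈ T)).card : ℝ) := by
    refine le_trans (Nat.cast_le.2 h5) (le_of_eq ?_)
    congr 2
    apply Finset.filter_congr_decidable
  exact h6.trans (h2.trans h3)

theorem logb_two_pow (n : ℕ) : Real.logb 2 ((2 ^ (n + 1) : ℕ) : ℝ) = (n : ℝ) + 1 := by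
  push_cast
  rw [Real.logb_pow, Real.logb_self_eq_one (by norm_num), mul_one]
  push_cast
  ring

/-- Every oracle can be changed at few strings such that `ESPACE` is `E`. -/
theorem exists_close_E {g : ℕ → ℝ} {ε : ℝ} (hε : 0 < ε)
    (hg : ∀ᶠ n : ℕ in atTop, (n : ℝ) ^ ε < g n) (O : Oracle) :
    ∃ A, Close g O A ∧ ∀ L, InSpace Lin A L → InTime Lin A L := by
  classical
  obtain ⟨K, hK⟩ := count_Lin (half_pos hε)
  obtain ⟨r, hr, hgr, hP⟩ := exists_codingE good_Lin
    (fun e => Polynomial.C (K * (e + 1)) * (Polynomial.X + 1)) (fun e => ⟨K * (e + 1), rfl⟩)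
  obtain ⟨Φ, hΦ1, hΦ2⟩ := hP (fun _ _ => True)
  have hr2 : ∀ e n, K * (n + e + 1) ≤ (r e).eval n := by
    intro e n
    refine le_trans ?_ (hgr e n)
    simp only [Polynomial.eval_mul, Polynomial.eval_C, Polynomial.eval_add, Polynomial.eval_X,
      Polynomial.eval_one]
    rw [mul_assoc]
    apply Nat.mul_le_mul_left
    nlinarith [Nat.zero_le (e * n)]
  refine ⟨Φ O, ?_, ?_⟩
  · refine close_of_sparse {y | ∃ e x, y = codeE (r e) e x}
      (h := fun N => (Real.logb 2 N) ^ (ε / 2)) ?_ ?_ ?_
    · exact hK r hr2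
    · filter_upwards [hg, eventually_ge_atTop 2] with n h3 h4
      refine le_trans ?_ h3.le
      rw [logb_two_pow]
      have h8 : (2 : ℝ) ≤ n := by exact_mod_cast h4
      calc ((n : ℝ) + 1) ^ (ε / 2) ≤ ((n : ℝ) ^ (2 : ℝ)) ^ (ε / 2) := by
            apply Real.rpow_le_rpow (by positivity) _ (half_pos hε).le
            rw [Real.rpow_two]
            nlinarith
        _ = (n : ℝ) ^ ε := by
            rw [← Real.rpow_mul (by positivity)]
            congr 1
            ring
    · intro y hy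
      apply hΦ1
      intro e x _ hyx
      exact hy ⟨e, x, hyx⟩
  · intro L hL
    obtain ⟨e, he⟩ := hΦ2 O L hL
    have hLe : L = {x | Φ O (codeE (r e) e x) = true} := by
      ext x
      exact he x trivial
    rw [hLe]
    exact inTime_code good_Lin (Φ O) (hr e) e

/-- Every oracle can be changed at few strings such that `EXPSPACE` is `EXP`. -/
theorem exists_close_EXP {g : ℕ → ℝ} {ε : ℝ} (hε : 0 < ε)
    (hg : ∀ᶠ n : ℕ in atTop, 2 ^ (Real.logb 2 (n : ℝ)) ^ ε < g n) (O : Oracle) :
    ∃ A, Close g O A ∧ ∀ L, InSpace Pol A L → InTime Pol A L := by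
  classical
  obtain ⟨K, hK⟩ := count_Pol (half_pos hε)
  obtain ⟨r, hr, hgr, hP⟩ := exists_codingE good_Pol
    (fun e => (Polynomial.X + Polynomial.C (e + 1)) ^ K) (fun e => trivial)
  obtain ⟨Φ, hΦ1, hΦ2⟩ := hP (fun _ _ => True)
  have hr2 : ∀ e n, (n + e + 1) ^ K ≤ (r e).eval n := by
    intro e n
    refine le_trans (le_of_eq ?_) (hgr e n)
    simp only [Polynomial.eval_pow, Polynomial.eval_C, Polynomial.eval_add, Polynomial.eval_X]
    rw [add_assoc]
  refine ⟨Φ O, ?_, ?_⟩
  · refine close_of_sparse {y | ∃ e x, y = codeE (r e) e x}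
      (h := fun N => 2 ^ (Real.logb 2 (Real.logb 2 N)) ^ (ε / 2)) ?_ ?_ ?_
    · exact hK r hr2
    · filter_upwards [hg, eventually_ge_atTop 4] with n h3 h4
      refine le_trans ?_ h3.le
      rw [logb_two_pow]
      apply Real.rpow_le_rpow_of_exponent_le (by norm_num)
      have h8 : (4 : ℝ) ≤ n := by exact_mod_cast h4
      have h9 : (2 : ℝ) ≤ Real.logb 2 n := by
        rw [Real.le_logb_iff_rpow_le (by norm_num) (by linarith)]
        norm_num
        exact_mod_cast h4
      have h10 : Real.logb 2 ((n : ℝ) + 1) ≤ 1 + Real.logb 2 n := by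
        have : Real.logb 2 ((n : ℝ) + 1) ≤ Real.logb 2 (2 * (n : ℝ)) :=
          Real.logb_le_logb_of_le (by norm_num) (by linarith) (by linarith)
        rwa [Real.logb_mul (by norm_num) (by linarith), Real.logb_self_eq_one (by norm_num)] at this
      have h11 : 0 ≤ Real.logb 2 ((n : ℝ) + 1) := Real.logb_nonneg (by norm_num) (by linarith)
      calc (Real.logb 2 ((n : ℝ) + 1)) ^ (ε / 2) ≤ ((Real.logb 2 n) ^ (2 : ℝ)) ^ (ε / 2) := by
            apply Real.rpow_le_rpow h11 _ (half_pos hε).le
            rw [Real.rpow_two]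
            nlinarith
        _ = (Real.logb 2 n) ^ ε := by
            rw [← Real.rpow_mul (by linarith)]
            congr 1
            ring
    · intro y hy
      apply hΦ1
      intro e x _ hyx
      exact hy ⟨e, x, hyx⟩
  · intro L hL
    obtain ⟨e, he⟩ := hΦ2 O L hL
    have hLe : L = {x | Φ O (codeE (r e) e x) = true} := by
      ext x
      exact he x trivial
    rw [hLe]
    exact inTime_code good_Pol (Φ O) (hr e) e

end Pool.Agent.TH771.CX
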