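import Pool.Agent.TH771.CX.Synd3
import Pool.Agent.W900.CH.EFar
import Pool.Agent.W900.CH.PLev

/-!
# Changing few strings of any oracle makes nondeterministic exponential time closed under
complement
-/

set_option autoImplicit false

namespace Pool.Agent.TH771.CX

open Filter Pool.Agent.NPC
open Pool.Agent.H620R2.Gauge Pool.Agent.H622R2.Exp Pool.Agent.W900.CH

theorem card_pairs {K : ℕ} (lam : ℕ) :
    ((Finset.range (lam + 1)).sigma fun e => Finset.range (lam / (K * 2 ^ e))).card ≤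
      2 * (lam / K) := by
  rw [Finset.card_sigma]
  simp only [Finset.card_range, ← Nat.div_div_eq_div_mul]
  refine (Nat.geom_sum_le (b := 2) (le_refl 2) (lam / K) (lam + 1)).trans ?_
  rw [show (2 : ℕ) - 1 = 1 by norm_num, Nat.div_one, mul_comm]

theorem dist_le_pairs {O A : Oracle} {r : ℕ → Polynomial ℕ} {sc J : ℕ → ℕ → ℕ}
    (h : ∀ y, A y ≠ O y → ∃ e k, y = codeC (r e) (sc e) e k (J e k)) {n K lam : ℕ} (hK : 1 ≤ K)
    (hn : ∀ e k, (codeC (r e) (sc e) e k (J e k)).length ≤ n → K * 2 ^ e * (k + 1) ≤ lam) :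
    Pool.Agent.W900.CH.dist O A n ≤ 2 * (lam / K) := by
  classical
  refine le_trans ?_ (card_pairs lam)
  set T := (Finset.range (lam + 1)).sigma fun e => Finset.range (lam / (K * 2 ^ e)) with hT
  have hsub : {x : List Bool | x.length ≤ n ∧ A x ≠ O x} ⊆
      ((T.image fun p => codeC (r p.1) (sc p.1) p.1 p.2 (J p.1 p.2) : Finset (List Bool)) :
        Set (List Bool)) := by
    rintro x ⟨hx, hd⟩
    obtain ⟨e, k, hy⟩ := h x hd
    rw [Finset.mem_coe, Finset.mem_image]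
    refine ⟨⟨e, k⟩, ?_, hy.symm⟩
    rw [hy] at hx
    have h1 := hn e k hx
    have h2 : e < 2 ^ e := Nat.lt_two_pow_self
    have h3 : 2 ^ e ≤ K * 2 ^ e * (k + 1) := by
      calc 2 ^ e = 1 * 2 ^ e * 1 := by ring
        _ ≤ K * 2 ^ e * (k + 1) := Nat.mul_le_mul (Nat.mul_le_mul_right _ hK) (by omega)
    rw [hT, Finset.mem_sigma, Finset.mem_range, Finset.mem_range]
    refine ⟨by show e < lam + 1; omega, ?_⟩
    show k < lam / (K * 2 ^ e)
    have h4 : k + 1 ≤ lam / (K * 2 ^ e) := by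
      rw [Nat.le_div_iff_mul_le (Nat.mul_pos hK (by positivity))]
      rw [mul_comm]
      exact h1
    omega
  unfold Pool.Agent.W900.CH.dist
  refine (Set.ncard_le_ncard hsub (Finset.finite_toSet _)).trans ?_
  rw [Set.ncard_coe_finset]
  exact Finset.card_image_le

theorem exists_close_N {E : Set (Polynomial ℕ)} (hE : Good E) (sc κ : ℕ → ℕ → ℕ)
    (hκ : ∀ e, UPoly (fun x : List Bool => κ e x.length))
    (hsc : ∀ e, UPoly (fun x : List Bool => sc e (κ e x.length)))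
    (hle : ∀ e n, n ≤ sc e (κ e n))
    (hlen : ∀ e, ∀ q ∈ E, ∃ r' ∈ E, ∀ n, q.eval (sc e (κ e n)) ≤ r'.eval n)
    (lam : ℕ → ℕ) {K : ℕ} (hK : 1 ≤ K)
    (hcount : ∀ e k n, sc e k + 1 ≤ Nat.log 2 n → K * 2 ^ e * (k + 1) ≤ lam n) (O : Oracle) :
    ∃ A, (∀ n, Pool.Agent.W900.CH.dist O A n ≤ 2 * (lam n / K)) ∧
      ∀ L, InNTime E A L → InNTime E A Lᶜ := by
  obtain ⟨r, hr, hrn, hP⟩ := exists_synd hE sc
  obtain ⟨A, J, hA1, hA2⟩ := hP O
  refine ⟨A, fun n => dist_le_pairs hA1 hK fun e k hl => hcount e k n ?_, fun L hL => ?_⟩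
  · rw [C3.length_codeC] at hl
    have h1 : 2 ^ (r e).eval (sc e k) ≤ n := by omega
    have h2 : Nat.log 2 (2 ^ (r e).eval (sc e k)) ≤ Nat.log 2 n := Nat.log_mono_right h1
    rw [Nat.log_pow (by norm_num)] at h2
    exact (hrn e _).trans h2
  · obtain ⟨e, V, q, hV, hq, hL', hd⟩ := hA2 L hL
    set q' : Polynomial ℕ := Polynomial.C 1 * (Polynomial.X + 1) + q + r e +
      Polynomial.C 6 * (Polynomial.X + 1) with hq'
    have hq'E : q' ∈ E := hE.add _ (hE.add _ (hE.add _ (hE.lin 1) _ hq) _ (hr e)) _ (hE.lin 6)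
    have hq'e : ∀ S, S + q.eval S + (r e).eval S + 6 ≤ q'.eval S := by
      intro S
      rw [hq']
      simp only [Polynomial.eval_add, Polynomial.eval_mul, Polynomial.eval_C, Polynomial.eval_X,
        Polynomial.eval_one]
      nlinarith
    obtain ⟨r', hr', hr'2⟩ := hlen e q' hq'E
    refine compl_of_synd hV hL' e (r e) r' hr' (sc e) (fun k => sc e k + 1) (κ e) (hκ e) (hsc e)
      ((hsc e).add (UPoly.const 1)) (hle e) ?_ (fun n => KAux.cens_lt L _) hd
    intro n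
    refine (KAux.len_le q (r e) (le_refl _)).trans ?_
    exact Nat.pow_le_pow_right (by norm_num) ((hq'e _).trans (hr'2 n))

theorem upoly_size_div (b : ℕ) : UPoly (fun x : List Bool => x.length.size / b) :=
  UPoly.of_le (Poly.div KAux.upoly_size.toPoly (NPC.Poly.const b)) KAux.upoly_size
    fun _ => Nat.div_le_self _ _

theorem upoly_size_size : UPoly (fun x : List Bool => x.length.size.size) := by
  have h2 : UPoly (fun x : List Bool => x.length.size.bits.length) :=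
    UPoly.length (Poly.natBits KAux.upoly_size.toPoly)
  refine Poly.congr h2 fun x => ?_
  simp only [Nat.size_eq_bits_len]

theorem upoly_size_size_div (b : ℕ) : UPoly (fun x : List Bool => x.length.size.size / b) :=
  UPoly.of_le (Poly.div upoly_size_size.toPoly (NPC.Poly.const b)) upoly_size_size
    fun _ => Nat.div_le_self _ _

theorem lt_mul_div_add (s b : ℕ) (hb : 1 ≤ b) : s ≤ b * (s / b + 1) := by
  have := Nat.lt_mul_div_succ s (by omega : 0 < b)
  omega

theorem mul_div_add_le (s b : ℕ) : b * (s / b + 1) ≤ s + b := by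
  have := Nat.mul_div_le s b
  rw [mul_add, mul_one]
  omega

/-- the scales for linear exponents -/
theorem scale_lin (b n : ℕ) : 2 ^ (b * (n.size / b + 1)) ≤ 2 ^ b * (2 * n + 1) := by
  calc 2 ^ (b * (n.size / b + 1)) ≤ 2 ^ (n.size + b) :=
        Nat.pow_le_pow_right (by norm_num) (mul_div_add_le _ _)
    _ = 2 ^ b * 2 ^ n.size := by rw [pow_add, mul_comm]
    _ ≤ _ := Nat.mul_le_mul_left _ (KAux.two_pow_size_le n)

/-- the scales for polynomial exponents -/
theorem scale_pol (b n : ℕ) : 2 ^ (2 ^ (b * (n.size.size / b + 1))) ≤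
    2 ^ 2 ^ b * (2 * n + 1) ^ (2 * 2 ^ b) := by
  calc 2 ^ (2 ^ (b * (n.size.size / b + 1))) ≤ 2 ^ (2 ^ b * (2 * n.size + 1)) :=
        Nat.pow_le_pow_right (by norm_num) (scale_lin b n.size)
    _ = 2 ^ 2 ^ b * (2 ^ n.size) ^ (2 * 2 ^ b) := by
        rw [← pow_mul, ← pow_add]
        congr 1
        ring
    _ ≤ _ := Nat.mul_le_mul_left _ (Nat.pow_le_pow_left (KAux.two_pow_size_le n) _)

/-- For linear exponents. -/
theorem exists_close_NE_aux {K : ℕ} (hK : 1 ≤ K) (O : Oracle) :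
    ∃ A, (∀ n, Pool.Agent.W900.CH.dist O A n ≤ 2 * (Nat.log 2 (Nat.log 2 n) / K)) ∧
      ∀ L, InNTime Lin A L → InNTime Lin A Lᶜ := by
  have hb : ∀ e, 1 ≤ K * 2 ^ e := fun e => Nat.mul_pos hK (by positivity)
  refine exists_close_N good_Lin (fun e k => 2 ^ (K * 2 ^ e * (k + 1)))
    (fun e n => n.size / (K * 2 ^ e)) (fun e => upoly_size_div _) (fun e => ?_) (fun e n => ?_)
    (fun e q hq => ?_) (fun n => Nat.log 2 (Nat.log 2 n)) hK (fun e k n h => ?_) O
  · refine UPoly.of_le (n := fun x : List Bool => 2 ^ (K * 2 ^ e) * (2 * x.length + 1))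
      (KAux.poly_two_pow ((UPoly.const _).mul ((upoly_size_div _).add (UPoly.const 1)))) ?_
      fun x => scale_lin _ _
    exact (UPoly.const _).mul (((UPoly.const 2).mul (UPoly.length Poly.id)).add (UPoly.const 1))
  · show n ≤ 2 ^ (K * 2 ^ e * (n.size / (K * 2 ^ e) + 1))
    calc n ≤ 2 ^ n.size := (Nat.lt_size_self n).le
      _ ≤ _ := Nat.pow_le_pow_right (by norm_num) (lt_mul_div_add _ _ (hb e))
  · obtain ⟨c, rfl⟩ := hq
    refine ⟨Polynomial.C (c * 2 ^ (K * 2 ^ e + 1)) * (Polynomial.X + 1), ⟨_, rfl⟩, fun n => ?_⟩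
    simp only [Polynomial.eval_mul, Polynomial.eval_C, Polynomial.eval_add, Polynomial.eval_X,
      Polynomial.eval_one]
    rw [mul_assoc c]
    apply Nat.mul_le_mul_left
    refine (Nat.add_le_add_right (scale_lin _ _) 1).trans ?_
    rw [pow_succ]
    have := Nat.one_le_two_pow (n := K * 2 ^ e)
    nlinarith
  · have h1 : 2 ^ (K * 2 ^ e * (k + 1)) ≤ Nat.log 2 n := by
      have : 2 ^ (K * 2 ^ e * (k + 1)) + 1 ≤ Nat.log 2 n := h
      omega
    have h2 : Nat.log 2 (2 ^ (K * 2 ^ e * (k + 1))) ≤ Nat.log 2 (Nat.log 2 n) :=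
      Nat.log_mono_right h1
    rwa [Nat.log_pow (by norm_num)] at h2

/-- For polynomial exponents. -/
theorem exists_close_NEXP_aux {K : ℕ} (hK : 1 ≤ K) (O : Oracle) :
    ∃ A, (∀ n, Pool.Agent.W900.CH.dist O A n ≤ 2 * (Nat.log 2 (Nat.log 2 (Nat.log 2 n)) / K)) ∧
      ∀ L, InNTime Pol A L → InNTime Pol A Lᶜ := by
  have hb : ∀ e, 1 ≤ K * 2 ^ e := fun e => Nat.mul_pos hK (by positivity)
  refine exists_close_N good_Pol (fun e k => 2 ^ (2 ^ (K * 2 ^ e * (k + 1))))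
    (fun e n => n.size.size / (K * 2 ^ e)) (fun e => upoly_size_size_div _) (fun e => ?_)
    (fun e n => ?_) (fun e q hq => ?_) (fun n => Nat.log 2 (Nat.log 2 (Nat.log 2 n))) hK
    (fun e k n h => ?_) O
  · have h1 : UPoly (fun x : List Bool =>
        2 ^ (K * 2 ^ e * (x.length.size.size / (K * 2 ^ e) + 1))) := by
      refine UPoly.of_le (n := fun x : List Bool => 2 ^ (K * 2 ^ e) * (2 * x.length.size + 1))
        (KAux.poly_two_pow ((UPoly.const _).mul ((upoly_size_size_div _).add (UPoly.const 1)))) ?_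
        fun x => scale_lin _ _
      exact (UPoly.const _).mul (((UPoly.const 2).mul KAux.upoly_size).add (UPoly.const 1))
    refine UPoly.of_le (n := fun x : List Bool =>
      ((Polynomial.C (2 ^ 2 ^ (K * 2 ^ e))) *
        (2 * Polynomial.X + 1) ^ (2 * 2 ^ (K * 2 ^ e)) : Polynomial ℕ).eval x.length)
      (KAux.poly_two_pow h1) ((UPoly.length Poly.id).eval _) fun x => ?_
    refine (scale_pol _ _).trans (le_of_eq ?_)
    simp
  · show n ≤ 2 ^ (2 ^ (K * 2 ^ e * (n.size.size / (K * 2 ^ e) + 1)))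
    calc n ≤ 2 ^ n.size := (Nat.lt_size_self n).le
      _ ≤ 2 ^ 2 ^ n.size.size :=
        Nat.pow_le_pow_right (by norm_num) (Nat.lt_size_self n.size).le
      _ ≤ _ := Nat.pow_le_pow_right (by norm_num)
        (Nat.pow_le_pow_right (by norm_num) (lt_mul_div_add _ _ (hb e)))
  · refine ⟨q.comp ((Polynomial.C (2 ^ 2 ^ (K * 2 ^ e))) *
        (2 * Polynomial.X + 1) ^ (2 * 2 ^ (K * 2 ^ e))), Set.mem_univ _, fun n => ?_⟩
    rw [Polynomial.eval_comp]
    apply KAux.eval_mono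
    refine (scale_pol _ _).trans (le_of_eq ?_)
    simp
  · have h1 : 2 ^ (2 ^ (K * 2 ^ e * (k + 1))) ≤ Nat.log 2 n := by
      have : 2 ^ (2 ^ (K * 2 ^ e * (k + 1))) + 1 ≤ Nat.log 2 n := h
      omega
    have h2 : Nat.log 2 (2 ^ (2 ^ (K * 2 ^ e * (k + 1)))) ≤ Nat.log 2 (Nat.log 2 n) :=
      Nat.log_mono_right h1
    rw [Nat.log_pow (by norm_num)] at h2
    have h3 : Nat.log 2 (2 ^ (K * 2 ^ e * (k + 1))) ≤ Nat.log 2 (Nat.log 2 (Nat.log 2 n)) :=
      Nat.log_mono_right h2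
    rwa [Nat.log_pow (by norm_num)] at h3

theorem exists_K {ε : ℝ} (hε : 0 < ε) : ∃ K : ℕ, 1 ≤ K ∧ ∀ l : ℕ, ((2 * (l / K) : ℕ) : ℝ) ≤ ε * l := by
  obtain ⟨K, hK⟩ := exists_nat_gt (2 / ε)
  have hK0 : (0 : ℝ) < K := lt_trans (by positivity) hK
  have hK1 : 1 ≤ K := by exact_mod_cast hK0
  refine ⟨K, hK1, fun l => ?_⟩
  have h1 : ((l / K : ℕ) : ℝ) ≤ l / K := Nat.cast_div_le
  rw [div_lt_iff₀ hε] at hK
  push_cast
  calc 2 * ((l / K : ℕ) : ℝ) ≤ 2 * (l / K) := by linarith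
    _ = 2 / K * l := by ring
    _ ≤ ε * l := by
      apply mul_le_mul_of_nonneg_right _ (by positivity)
      rw [div_le_iff₀ hK0]
      linarith

theorem log_le_logb (n : ℕ) : (Nat.log 2 n : ℝ) ≤ Real.logb 2 n := Real.natLog_le_logb n 2

/-- Every oracle can be changed at few strings such that `NE = coNE`. -/
theorem exists_close_NE {g : ℕ → ℝ} {ε : ℝ} (hε : 0 < ε)
    (hg : ∀ᶠ n : ℕ in atTop, ε * Real.logb 2 (Real.logb 2 n) < g n) (O : Oracle) :
    ∃ A, Close g O A ∧ ∀ L, InNTime Lin A L → InNTime Lin A Lᶜ := by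
  obtain ⟨K, hK1, hK⟩ := exists_K hε
  obtain ⟨A, h1, h2⟩ := exists_close_NE_aux hK1 O
  refine ⟨A, ?_, h2⟩
  unfold Close
  filter_upwards [hg, eventually_ge_atTop 4] with n h3 h4
  refine (Nat.cast_le.2 (h1 n)).trans ((hK _).trans (le_trans ?_ h3.le))
  apply mul_le_mul_of_nonneg_left _ hε.le
  have h5 : 1 ≤ Nat.log 2 n := Nat.log_pos (by norm_num) (by omega)
  refine (log_le_logb _).trans ?_
  exact Real.logb_le_logb_of_le (by norm_num) (by exact_mod_cast h5) (log_le_logb n)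

/-- Every oracle can be changed at few strings such that `NEXP = coNEXP`. -/
theorem exists_close_NEXP {g : ℕ → ℝ} {ε : ℝ} (hε : 0 < ε)
    (hg : ∀ᶠ n : ℕ in atTop, ε * Real.logb 2 (Real.logb 2 (Real.logb 2 n)) < g n) (O : Oracle) :
    ∃ A, Close g O A ∧ ∀ L, InNTime Pol A L → InNTime Pol A Lᶜ := by
  obtain ⟨K, hK1, hK⟩ := exists_K hε
  obtain ⟨A, h1, h2⟩ := exists_close_NEXP_aux hK1 O
  refine ⟨A, ?_, h2⟩
  unfold Close
  filter_upwards [hg, eventually_ge_atTop 16] with n h3 h4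
  refine (Nat.cast_le.2 (h1 n)).trans ((hK _).trans (le_trans ?_ h3.le))
  apply mul_le_mul_of_nonneg_left _ hε.le
  have h5 : 4 ≤ Nat.log 2 n := by
    have h6 : Nat.log 2 (2 ^ 4) ≤ Nat.log 2 n := Nat.log_mono_right (by omega)
    rwa [Nat.log_pow (by norm_num)] at h6
  have h7 : 1 ≤ Nat.log 2 (Nat.log 2 n) := Nat.log_pos (by norm_num) (by omega)
  have h8 : ((Nat.log 2 (Nat.log 2 n) : ℕ) : ℝ) ≤ Real.logb 2 (Real.logb 2 n) := by
    refine (log_le_logb _).trans ?_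
    exact Real.logb_le_logb_of_le (by norm_num)
      (by exact_mod_cast (by omega : 0 < Nat.log 2 n)) (log_le_logb n)
  refine (log_le_logb _).trans ?_
  exact Real.logb_le_logb_of_le (by norm_num) (by exact_mod_cast h7) h8

end Pool.Agent.TH771.CX
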