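import Pool.Agent.TH771.CX.NESpace

/-!
# Changing few strings of a random oracle does not make `NE` and `ESPACE` equal, II
-/

set_option autoImplicit false

namespace Pool.Agent.TH771.CX

open Finset Pool.Agent.NPC Pool.Agent.H620R2.Gauge Pool.Agent.H622R2.Exp H568R2 MeasureTheory
open Pool.Agent.W900.CH Pool.Agent.H249R3.Gau Pool.Agent.H249R3.Gau.Alt Pool.Agent.H676
open Pool.Agent.H628R3.RO (randomOracle)

theorem small_boundP (r : Polynomial ℕ) {δ : ℝ} (hδ : 0 < δ) : ∃ n₀ : ℕ, ∀ n ≥ n₀, ∀ s : ℕ,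
    s ≤ 2 ^ (n / 4) → 2 * (s : ℝ) ≤ 2 ^ n ∧
      ((2 ^ n + 1) * ((2 ^ n * 2 ^ r.eval n + 1) * (1 + 2 ^ r.eval n * 2 ^ n))) ^ s *
        (3 * (1 / 2) ^ (2 ^ n - s) + 2 ^ (-((2 : ℝ) ^ n))) ≤ δ := by
  obtain ⟨k₀, hk₀⟩ := Filter.eventually_atTop.1 (E0.poly_le
    ((Polynomial.C 2 * r + Polynomial.C 3 * Polynomial.X + Polynomial.C 4).comp
      (Polynomial.C 4 * Polynomial.X + Polynomial.C 4)) 1)
  obtain ⟨k₁, hk₁⟩ := exists_pow_lt_of_lt_one hδ (by norm_num : (1 / 2 : ℝ) < 1)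
  refine ⟨4 * k₀ + k₁ + 16, fun n hn s hs => ?_⟩
  obtain ⟨u, hu⟩ : ∃ u, u = n / 4 := ⟨_, rfl⟩
  rw [← hu] at hs
  have hu1 : k₀ ≤ u := by omega
  have hu2 : 4 * u ≤ n := by omega
  have hu3 : n ≤ 4 * u + 4 := by omega
  have hu4 : 4 ≤ u := by omega
  have hP : 2 * r.eval n + 3 * n + 4 ≤ 2 ^ u := by
    have h1 := hk₀ u hu1
    rw [one_mul, Polynomial.eval_comp] at h1
    have h2 := eval_mono (Polynomial.C 2 * r + Polynomial.C 3 * Polynomial.X + Polynomial.C 4) hu3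
    simp only [Polynomial.eval_add, Polynomial.eval_mul, Polynomial.eval_C,
      Polynomial.eval_X] at h1 h2
    omega
  have e3 : 1 ≤ 2 ^ u := Nat.one_le_two_pow
  have eU : 2 ^ u * 2 ^ u = 2 ^ (2 * u) := by rw [← pow_add]; congr 1; ring
  have e1 : 2 ^ (2 * u) * 4 ≤ 2 ^ n := by
    rw [show (4 : ℕ) = 2 ^ 2 by norm_num, ← pow_add]
    exact Nat.pow_le_pow_right (by norm_num) (by omega)
  have e2 : 2 ^ u ≤ 2 ^ (2 * u) := Nat.pow_le_pow_right (by norm_num) (by omega)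
  have e5 : 16 ≤ 2 ^ u := by
    calc 16 = 2 ^ 4 := by norm_num
      _ ≤ 2 ^ u := Nat.pow_le_pow_right (by norm_num) hu4
  have e4 : k₁ + n / 2 ≤ 2 ^ n := by
    have h1 : n < 2 ^ n := Nat.lt_two_pow_self
    have h2 : 2 ^ (n - 1) * 2 = 2 ^ n := by
      rw [← pow_succ]; congr 1; omega
    have h3 : n - 1 < 2 ^ (n - 1) := Nat.lt_two_pow_self
    omega
  have hs2n : s ≤ 2 ^ n := hs.trans (e2.trans (by omega))
  refine ⟨?_, ?_⟩
  · have : 2 * s ≤ 2 ^ n := by omega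
    exact_mod_cast this
  -- the base
  have g1 : (2 : ℝ) ^ n + 1 ≤ 2 ^ (n + 1) := by
    have : (1 : ℝ) ≤ 2 ^ n := one_le_pow₀ (by norm_num)
    rw [pow_succ]
    linarith
  have hab : (1 : ℝ) ≤ 2 ^ (n + r.eval n) := one_le_pow₀ (by norm_num)
  have g2 : (2 : ℝ) ^ n * 2 ^ r.eval n + 1 ≤ 2 ^ (n + r.eval n + 1) := by
    rw [pow_succ, ← pow_add]
    linarith
  have g3 : (1 : ℝ) + 2 ^ r.eval n * 2 ^ n ≤ 2 ^ (n + r.eval n + 1) := by
    rw [pow_succ, ← pow_add, add_comm (r.eval n) n]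
    linarith
  have f1 : ((2 ^ n + 1) * ((2 ^ n * 2 ^ r.eval n + 1) * (1 + 2 ^ r.eval n * 2 ^ n))) ^ s ≤
      (2 : ℝ) ^ ((2 * r.eval n + 3 * n + 3) * s) := by
    calc ((2 ^ n + 1) * ((2 ^ n * 2 ^ r.eval n + 1) * (1 + 2 ^ r.eval n * 2 ^ n))) ^ s
        ≤ ((2 : ℝ) ^ (n + 1) * (2 ^ (n + r.eval n + 1) * 2 ^ (n + r.eval n + 1))) ^ s := by gcongr
      _ = (2 : ℝ) ^ ((2 * r.eval n + 3 * n + 3) * s) := by
          rw [← pow_add, ← pow_add, ← pow_mul]
          congr 1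
          ring
  have f2 : 3 * (1 / 2 : ℝ) ^ (2 ^ n - s) + 2 ^ (-((2 : ℝ) ^ n)) ≤ 4 * (1 / 2) ^ (2 ^ n - s) := by
    have h1 : (2 : ℝ) ^ (-((2 : ℝ) ^ n)) = (1 / 2) ^ (2 ^ n) := by
      have : ((2 : ℝ) ^ n) = ((2 ^ n : ℕ) : ℝ) := by push_cast; ring
      rw [this, Real.rpow_neg (by norm_num), Real.rpow_natCast, one_div, inv_pow]
    have h2 : ((1 : ℝ) / 2) ^ (2 ^ n) ≤ (1 / 2) ^ (2 ^ n - s) :=
      pow_le_pow_of_le_one (by norm_num) (by norm_num) (Nat.sub_le _ _)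
    rw [h1]
    linarith
  have h5 : (2 * r.eval n + 3 * n + 3) * s + 2 + k₁ ≤ 2 ^ n - s := by
    have h6 : (2 * r.eval n + 3 * n + 4) * s ≤ 2 ^ (2 * u) := by
      rw [← eU]
      exact Nat.mul_le_mul hP hs
    have h7 : (2 * r.eval n + 3 * n + 4) * s = (2 * r.eval n + 3 * n + 3) * s + s := by ring
    have h8 : k₁ ≤ n := by omega
    have h9 : n ≤ 2 ^ u := by omega
    omega
  calc ((2 ^ n + 1) * ((2 ^ n * 2 ^ r.eval n + 1) * (1 + 2 ^ r.eval n * 2 ^ n))) ^ s *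
        (3 * (1 / 2) ^ (2 ^ n - s) + 2 ^ (-((2 : ℝ) ^ n)))
      ≤ (2 : ℝ) ^ ((2 * r.eval n + 3 * n + 3) * s) * (4 * (1 / 2) ^ (2 ^ n - s)) := by
        gcongr
    _ ≤ (2 : ℝ) ^ ((2 * r.eval n + 3 * n + 3) * s) *
        (4 * (1 / 2) ^ ((2 * r.eval n + 3 * n + 3) * s + 2 + k₁)) := by
        apply mul_le_mul_of_nonneg_left _ (by positivity)
        apply mul_le_mul_of_nonneg_left _ (by norm_num)
        exact pow_le_pow_of_le_one (by norm_num) (by norm_num) h5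
    _ = ((2 : ℝ) ^ ((2 * r.eval n + 3 * n + 3) * s) *
        (1 / 2) ^ ((2 * r.eval n + 3 * n + 3) * s)) * (4 * (1 / 2) ^ 2) * (1 / 2) ^ k₁ := by
        rw [pow_add, pow_add]; ring
    _ = (1 / 2) ^ k₁ := by rw [two_half]; norm_num
    _ ≤ δ := hk₁.le

/-- Almost no oracle can be changed at few strings such that `NE` and `ESPACE` are equal. -/
theorem ae_far_NES {g : ℕ → ℝ}
    (hg : ∀ ε : ℝ, 0 < ε → ∃ᶠ n : ℕ in Filter.atTop, g n ≤ (n : ℝ) ^ ε) :
    ∀ᵐ O ∂randomOracle, ∀ A, Close g O A → ¬ InNTime Lin A (par2 A) := by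
  classical
  have hS : ∀ᵐ O ∂randomOracle, ∀ A, Close g O A →
      A ∉ {A : Oracle | InNTime Lin A (par2 A)} := by
    refine ae_far_of fun n₁ => ?_
    have hc : Countable (Polynomial ℕ) := N1.countable_poly
    have hcE : Countable Lin := inferInstance
    have hsub : {O : Oracle | ∃ A ∈ {A : Oracle | InNTime Lin A (par2 A)}, ∀ n ≥ n₁,
        (Pool.Agent.W900.CH.dist O A n : ℝ) ≤ g n} ⊆ ⋃ θ : Alg × Lin,
          {O : Oracle | ∃ A ∈ XA Lin (θ, 1), ∀ n ≥ n₁,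
            (Pool.Agent.W900.CH.dist O A n : ℝ) ≤ g n} := by
      rintro O ⟨A, ⟨V, ⟨M, hM⟩, q, hq, h⟩, hA⟩
      refine Set.mem_iUnion.2 ⟨(M, ⟨q, hq⟩), A, ⟨V, hM, fun x => ?_⟩, hA⟩
      rw [h x]
      rfl
    refine measure_mono_null hsub (measure_iUnion_null fun θ => measure_of_null ?_)
    intro δ hδ
    obtain ⟨⟨M, q⟩, hθ⟩ : ∃ θ' : Alg × Lin, θ = θ' := ⟨θ, rfl⟩
    subst hθ
    obtain ⟨qb, hqb⟩ := Alg.out_local M
    obtain ⟨r, ⟨c, hc⟩, hrr⟩ := exists_r good_Lin q.2 1 qb M.p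
    have hre : ∀ n, r.eval n = c * (n + 1) := by
      intro n
      rw [hc]
      simp
    have hc1 : 1 ≤ c := by
      by_contra h
      have h1 := hrr 0
      rw [hre] at h1
      have : c = 0 := by omega
      subst this
      simp at h1
    obtain ⟨n₀, hn₀⟩ := small_boundP r hδ
    obtain ⟨n₂, hn₂⟩ := evP_bound M (q : Polynomial ℕ) r (fun n => by
      have h' := hrr n
      have hp : 0 < 2 ^ n := by positivity
      refine ⟨?_, ?_, ?_⟩ <;> omega)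
    -- the length
    have hcR : (0 : ℝ) < c := by exact_mod_cast hc1
    obtain ⟨m, hgm, hm⟩ := ((hg (1 / (8 * c)) (by positivity)).and_eventually
      (Filter.eventually_ge_atTop (n₁ + 2 ^ (c * (n₀ + n₂ + 17))))).exists
    obtain ⟨n, hn⟩ : ∃ n, n = Nat.log 2 m / c - 1 := ⟨_, rfl⟩
    have hm0 : m ≠ 0 := by
      have : 0 < 2 ^ (c * (n₀ + n₂ + 17)) := by positivity
      omega
    have hlog : c * (n₀ + n₂ + 17) ≤ Nat.log 2 m := by
      apply Nat.le_log_of_pow_le (by norm_num)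
      omega
    have hdiv : n₀ + n₂ + 17 ≤ Nat.log 2 m / c := by
      rw [Nat.le_div_iff_mul_le hc1, mul_comm]
      exact hlog
    have hn1 : n + 1 = Nat.log 2 m / c := by omega
    have hle : 2 ^ (c * (n + 1)) ≤ m := by
      have h1 : c * (n + 1) ≤ Nat.log 2 m := by
        rw [hn1]
        exact Nat.mul_div_le _ _
      exact (Nat.pow_le_pow_right (by norm_num) h1).trans (Nat.pow_log_le_self 2 hm0)
    have hlt : m < 2 ^ (c * (n + 2)) := by
      have h1 : Nat.log 2 m < c * (n + 2) := by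
        have h2 := Nat.lt_mul_div_succ (Nat.log 2 m) hc1
        rw [show n + 2 = Nat.log 2 m / c + 1 by omega]
        exact h2
      exact lt_of_lt_of_le (Nat.lt_pow_succ_log_self (by norm_num) m)
        (Nat.pow_le_pow_right (by norm_num) h1)
    -- the number of changes
    obtain ⟨s, hs⟩ : ∃ s, s = ⌊g m⌋₊ := ⟨_, rfl⟩
    have hs4 : s ≤ 2 ^ (n / 4) := by
      have h1 : (s : ℝ) ≤ (2 : ℝ) ^ (n / 4 : ℕ) := by
        have h2 : (s : ℝ) ≤ (m : ℝ) ^ (1 / (8 * c : ℝ)) := by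
          rw [hs]
          rcases le_total 0 (g m) with h | h
          · exact (Nat.floor_le h).trans hgm
          · rw [Nat.floor_of_nonpos h]
            push_cast
            positivity
        have h3 : (m : ℝ) ^ (1 / (8 * c : ℝ)) ≤ ((2 : ℝ) ^ (c * (n + 2))) ^ (1 / (8 * c : ℝ)) := by
          apply Real.rpow_le_rpow (by positivity) _ (by positivity)
          exact_mod_cast hlt.le
        have h4 : ((2 : ℝ) ^ (c * (n + 2))) ^ (1 / (8 * c : ℝ)) = (2 : ℝ) ^ (((n : ℝ) + 2) / 8) := by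
          rw [← Real.rpow_natCast, ← Real.rpow_mul (by norm_num)]
          congr 1
          push_cast
          field_simp
        have h5 : (2 : ℝ) ^ (((n : ℝ) + 2) / 8) ≤ (2 : ℝ) ^ ((n / 4 : ℕ) : ℝ) := by
          apply Real.rpow_le_rpow_of_exponent_le (by norm_num)
          have h6 : n + 2 ≤ 8 * (n / 4) := by omega
          have h7 : ((n : ℝ) + 2) ≤ 8 * ((n / 4 : ℕ) : ℝ) := by exact_mod_cast h6
          linarith
        rw [Real.rpow_natCast] at h5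
        linarith
      exact_mod_cast h1
    obtain ⟨N, hN⟩ : ∃ N, N = 2 ^ 2 ^ r.eval n := ⟨_, rfl⟩
    obtain ⟨hκ, hb⟩ := hn₀ n (by omega) s hs4
    refine cover_of_event (EvP M q n N s) _ ?_ (fun _ => 0) δ ?_
    · rintro O ⟨A, hA, hd⟩
      obtain ⟨V, hMV, hV⟩ := hA
      have h' := hrr n
      have hp : 0 < 2 ^ n := by positivity
      have h3 : qb.eval (ell (q : Polynomial ℕ) 1 n) + 1 ≤ 2 ^ r.eval n := by omega
      have h4 : 3 * mm n + 1 ≤ 2 ^ r.eval n := by omega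
      refine ⟨pre N A, ?_, evA_of hMV hV hqb h3 h4 hN.ge⟩
      refine (df_pre O A N).trans ?_
      have h1 : Nat.log 2 N = 2 ^ r.eval n := by
        rw [hN]
        exact Nat.log_pow (by norm_num) _
      rw [h1, hre, hs]
      refine (dist_mono O A hle).trans (Nat.le_floor ?_)
      exact hd m (le_trans (Nat.le_add_right _ _) hm)
    · rw [Real.rpow_zero, mul_one]
      exact (hn₂ n (by omega) N hN.ge s _ hκ).trans hb
  filter_upwards [hS] with O hO A hA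
  exact hO A hA

end Pool.Agent.TH771.CX
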