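import Pool.Agent.TH771.CX.Synd1

/-!
# The census verifier which reads the census number from the syndrome
-/

set_option autoImplicit false

namespace Pool.Agent.TH771.CX

open Pool.Agent.NPC Pool.Agent.H620R2.Gauge Pool.Agent.H622R2.Exp

open Classical in
/-- the verifier for the complement; the census number is coded by the syndrome of the oracle on
the code strings -/
noncomputable def VerS (A : Oracle) (V : List Bool → List Bool) (q r : Polynomial ℕ) (e : ℕ)
    (sc β κ : ℕ → ℕ) (z : List Bool) : List Bool :=
  match unbits Dat (unpair z).1 with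
  | none => []
  | some d =>
    if d.2 = List.replicate (2 ^ r.eval (sc (κ (unpair z).2.length))) true ∧
      (∀ (i : ℕ) (w : List Bool), d.1[i]? = some (some w) →
        (str i).length ≤ sc (κ (unpair z).2.length) ∧ w.length ≤ 2 ^ q.eval (str i).length ∧
        V (pairBits w (str i)) = [true]) ∧
      (d.1[idx (unpair z).2]?).join = none ∧
      valB (dgs (β (κ (unpair z).2.length))
        ((cqs e (κ (unpair z).2.length) d.2.length d.2).map A)) =
        (d.1.filter Option.isSome).length
    then [true] else []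

theorem exists_virt (e k b : ℕ) (pd : List Bool) (f : ℕ → Bool) :
    ∃ A' : Oracle, (cqs e k b pd).map A' = (List.range b).map f := by
  classical
  refine ⟨fun y => decide (∃ i, y = (List.replicate e true ++ false ::
    (List.replicate k true ++ false :: (List.replicate i true ++ false :: pd))) ∧ f i = true), ?_⟩
  unfold cqs
  rw [List.map_map]
  refine List.map_congr_left fun i _ => ?_
  simp only [Function.comp]
  rw [Bool.eq_iff_iff, decide_eq_true_eq]
  constructor
  · rintro ⟨i', h1, h2⟩
    obtain ⟨_, h3⟩ := CC.rep_inj _ _ _ _ h1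
    obtain ⟨_, h4⟩ := CC.rep_inj _ _ _ _ h3
    obtain ⟨h5, _⟩ := CC.rep_inj _ _ _ _ h4
    rw [h5]
    exact h2
  · intro h
    exact ⟨i, rfl, h⟩

theorem poly_dgs {α : Type} [TEnc α] {b : α → ℕ} {l : α → List Bool} (hb : UPoly b)
    (hl : Poly l) : Poly (fun a => dgs (b a) (l a)) := by
  unfold dgs
  refine NPC.Poly.map (F := fun a i => dg (l a) i) hb.range ?_
  unfold dg
  have hl' : Poly (fun p : α × ℕ => l p.1) := hl.comp (Poly.fst Poly.id)
  refine Poly.decide_eq (Poly.mod (Poly.length ?_) (NPC.Poly.const 2)) (NPC.Poly.const 1)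
  refine Poly.filter (p := fun (p : α × ℕ) j => (l p.1).getD j false && (Nat.bits j).getD p.2 false)
    (UPoly.range (UPoly.length hl')) ?_
  refine Poly.and (Poly.getD (hl'.comp (Poly.fst Poly.id)) (Poly.snd Poly.id) (NPC.Poly.const false))
    (Poly.getD (Poly.natBits (Poly.snd Poly.id)) (Poly.snd (Poly.fst Poly.id))
      (NPC.Poly.const false))

theorem verS_isFP {A : Oracle} {V : List Bool → List Bool} (hV : IsFP A V) (q r : Polynomial ℕ)
    (e : ℕ) (sc β κ : ℕ → ℕ) (hκ : UPoly (fun x : List Bool => κ x.length))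
    (hsc : UPoly (fun x : List Bool => sc (κ x.length)))
    (hβ : UPoly (fun x : List Bool => β (κ x.length))) : IsFP A (VerS A V q r e sc β κ) := by
  obtain ⟨T, hT⟩ := M1.exists_T
  have hx : Poly (fun z : List Bool => (unpair z).2) := Poly.snd poly_unpair
  have h1 := IsFP.votes hV T (Q := fun _ => []) (NPC.Poly.const []) M1.poly_wf
    (H := fun p => p.2) (Poly.snd Poly.id)
  have h2 : IsFP A (fun z => dgs (β (κ (unpair z).2.length))
      ((cqs e (κ (unpair z).2.length) (M1.dt z).2.length (M1.dt z).2).map A)) :=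
    IsFP.tt (H := fun p => dgs (β (κ (unpair p.1).2.length)) p.2)
      (M1.poly_cqs e (hκ.comp hx) (UPoly.length (Poly.snd M1.poly_dt)) (Poly.snd M1.poly_dt))
      (poly_dgs (hβ.comp (hx.comp (Poly.fst Poly.id))) (Poly.snd Poly.id))
  have h0 : IsFP A (fun z : List Bool => z) := IsFP.of_poly Poly.id
  have h3 := IsFP.pair h0 (IsFP.pair h1 h2)
  have hfin : Poly (fun y : List Bool =>
      if ((unbits Dat (unpair (unpair y).1).1).isSome &&
        M1.tst q r sc κ (unpair y).1 (unpair (unpair y).2).1 (unpair (unpair y).2).2) = true then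
        [true] else ([] : List Bool)) := by
    have hz : Poly (fun y : List Bool => (unpair y).1) := Poly.fst poly_unpair
    have hy : Poly (fun y : List Bool => (unpair y).2) := Poly.snd poly_unpair
    refine Poly.ite (Poly.decide_bool (Poly.and ?_ (M1.poly_tst q r hsc hz
      (Poly.fst (poly_unpair.comp hy)) (Poly.snd (poly_unpair.comp hy))))) (NPC.Poly.const _)
      (NPC.Poly.const _)
    refine (Poly.optElim (o := fun y : List Bool => unbits Dat (unpair (unpair y).1).1)
      (g := fun _ => false) (h := fun _ _ => true)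
      (poly_unbits.comp (Poly.fst (poly_unpair.comp hz))) (NPC.Poly.const false)
      (NPC.Poly.const true)).congr fun y => ?_
    cases unbits Dat (unpair (unpair y).1).1 <;> rfl
  have h4 := IsFP.comp (IsFP.of_poly hfin) h3
  refine (congrArg (IsFP A) (funext fun z => ?_)).mp h4
  simp only [unpair_pairBits]
  unfold VerS
  cases hd : unbits Dat (unpair z).1 with
  | none => simp
  | some d =>
    simp only [Option.isSome_some, Bool.true_and]
    have hdt : M1.dt z = d := by
      unfold M1.dt
      rw [hd]
      rfl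
    obtain ⟨A', hA'⟩ := exists_virt e (κ (unpair z).2.length) (β (κ (unpair z).2.length))
      (M1.dt z).2 (fun i => dg ((cqs e (κ (unpair z).2.length) (M1.dt z).2.length
        (M1.dt z).2).map A) i)
    have h5 := M1.tst_iff A' V q r e sc β κ z hT hd
    rw [hA'] at h5
    have h6 : (cqs e (κ (unpair z).2.length) (β (κ (unpair z).2.length)) d.2).map A' =
        dgs (β (κ (unpair z).2.length))
          ((cqs e (κ (unpair z).2.length) d.2.length d.2).map A) := by
      rw [← hdt, hA']
      rfl
    rw [h6] at h5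
    classical exact if_congr h5 rfl rfl

/-- The complement of a language in nondeterministic exponential time, from the syndromes. -/
theorem compl_of_synd {E : Set (Polynomial ℕ)} {A : Oracle} {L : Set (List Bool)}
    {V : List Bool → List Bool} (hV : IsFP A V) {q : Polynomial ℕ}
    (hL : ∀ x : List Bool,
      (x ∈ L ↔ ∃ w : List Bool, w.length ≤ 2 ^ q.eval x.length ∧ V (pairBits w x) = [true]))
    (e : ℕ) (r r' : Polynomial ℕ) (hr' : r' ∈ E) (sc β κ : ℕ → ℕ)
    (hκ : UPoly (fun x : List Bool => κ x.length))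
    (hsc : UPoly (fun x : List Bool => sc (κ x.length)))
    (hβ : UPoly (fun x : List Bool => β (κ x.length)))
    (hle : ∀ n, n ≤ sc (κ n))
    (hlen : ∀ n, 2 ^ (sc (κ n) + 1) * (8 * 2 ^ q.eval (sc (κ n)) + 8) +
      8 * 2 ^ r.eval (sc (κ n)) + 8 ≤ 2 ^ r'.eval n)
    (hcen : ∀ n, cens L (sc (κ n)) < 2 ^ β (κ n))
    (hA : ∀ k, ∀ i < β k, dg ((cqs e k (2 ^ r.eval (sc k))
      (List.replicate (2 ^ r.eval (sc k)) true)).map A) i = (cens L (sc k)).testBit i) :
    InNTime E A Lᶜ := by
  refine ⟨VerS A V q r e sc β κ, verS_isFP hV q r e sc β κ hκ hsc hβ, r', hr', fun x => ?_⟩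
  set pd : List Bool := List.replicate (2 ^ r.eval (sc (κ x.length))) true with hpd
  have hpdl : pd.length = 2 ^ r.eval (sc (κ x.length)) := by simp [hpd]
  obtain ⟨A', hA'⟩ := exists_virt e (κ x.length) (β (κ x.length)) pd
    (fun i => dg ((cqs e (κ x.length) pd.length pd).map A) i)
  have hver : ∀ w, VerS A V q r e sc β κ (pairBits w x) = Ver A' V q r e sc β κ (pairBits w x) := by
    intro w
    unfold VerS Ver
    rw [unpair_pairBits]
    dsimp only
    cases unbits Dat w with
    | none => rfl
    | some d =>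
      dsimp only
      classical
      refine if_congr ?_ rfl rfl
      constructor
      · rintro ⟨h1, h2, h3, h4⟩
        refine ⟨h1, h2, h3, ?_⟩
        rw [h1] at h4 ⊢
        rw [← hpd, hA']
        exact h4
      · rintro ⟨h1, h2, h3, h4⟩
        refine ⟨h1, h2, h3, ?_⟩
        rw [h1] at h4 ⊢
        rw [← hpd, hA'] at h4
        exact h4
  obtain ⟨h1, h2⟩ := ver_correct (A := A') hL e r sc β κ x (hle _) (hcen _) (fun i hi => by
    have h3 := getD_cqs A' r sc e (κ x.length) (β (κ x.length)) i hi
    rw [← hpd, hA', List.getD_eq_getElem?_getD, List.getElem?_map, List.getElem?_range hi] at h3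
    have h4 := hA (κ x.length) i hi
    rw [← h3, ← h4, hpdl]
    rfl)
  constructor
  · intro hx
    obtain ⟨w, hw, hv⟩ := h1 hx
    exact ⟨w, hw.trans (hlen _), (hver w).trans hv⟩
  · rintro ⟨w, _, hv⟩
    exact h2 w ((hver w).symm.trans hv)

end Pool.Agent.TH771.CX
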