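import Pool.Agent.TH771.CX.FarND

/-!
# Changing few bits does not help nondeterministic algorithms, III

The inputs have levels. The changes are made level by level; a level where nothing has to be
changed is found such that the changes made before are cheap.
-/

set_option autoImplicit false

namespace Pool.Agent.TH771.CX

open Finset Pool.Agent.W900.CH

variable {I : Type*} [Fintype I] [DecidableEq I] {X : Type*} [Fintype X] [DecidableEq X]

open Classical in
/-- One step: points near `G` by few relevant changes. -/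
theorem step_card (V τ : X → (I → Bool) → Bool) (B : X → Finset I)
    (hτ : ∀ x a a', (∀ i ∈ B x, a' i = a i) → τ x a' = τ x a) (p : ℕ) (hp : 1 ≤ p)
    (S : Finset X)
    (hV : ∀ x ∉ S, ∀ a, V x a = true → ∃ Q : Finset I, Q.card ≤ p ∧
      ∀ y : I → Bool, (∀ i ∈ Q, y i = a i) → V x y = true)
    (K : ℕ) (hK : (univ \ S).card ≤ K) (G : Finset (I → Bool)) (hG : G ⊆ near V τ S)
    (k : ℕ) (κ : ℝ) (hκ : 2 * (k : ℝ) ≤ κ) :
    ((univ.filter fun O : I → Bool => ∃ b ∈ G, (df O b).card ≤ k ∧
        (∀ x ∉ S, ∀ i ∈ B x, b i = O i) ∧ ∀ z ∈ df O b, fl b z ∉ near V τ S).card : ℝ) ≤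
      ((K * p + 1) * (1 + p * κ)) ^ k * (G.card + 2 ^ (-κ) * 2 ^ Fintype.card I) := by
  choose! Q hQ hQV using hV
  set F : Finset I := (univ \ S).biUnion B with hF
  have memF : ∀ i, i ∈ F ↔ ∃ x ∉ S, i ∈ B x := by
    intro i
    rw [hF, Finset.mem_biUnion]
    simp
  -- the relevant bits
  set T : (I → Bool) → Finset I := fun A =>
    ((univ \ S).filter fun x => V x A = true).biUnion fun x => Q x A with hT
  set Cr : (I → Bool) → I → X → Prop := fun A z x =>
    x ∉ S ∧ V x A = false ∧ V x (fl A z) = true with hCr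
  set SS : (I → Bool) → Finset I := fun A =>
    univ.filter fun z => z ∉ F ∧ ∃ x, Cr A z x with hSS
  set C : (I → Bool) → I → Finset I := fun A z =>
    if h : ∃ x, Cr A z x then Q h.choose (fl A z) else {z} with hC
  have hCx : ∀ A z, z ∈ SS A → ∃ x, Cr A z x ∧ C A z = Q x (fl A z) := by
    intro A z hz
    rw [hSS, Finset.mem_filter] at hz
    refine ⟨hz.2.2.choose, hz.2.2.choose_spec, ?_⟩
    rw [hC]
    simp only
    rw [dif_pos hz.2.2]
  have hnear : ∀ A, A ∈ near V τ S ↔ ∀ x ∉ S, V x A = τ x A := fun A => mem_near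
  have hmemC : ∀ A z x, Cr A z x → z ∈ Q x (fl A z) := by
    intro A z x h
    by_contra hz
    have h1 := hQV x h.1 (fl A z) h.2.2 A fun i hi => by
      rw [fl_ne]
      rintro rfl
      exact hz hi
    rw [h.2.1] at h1
    exact Bool.false_ne_true h1
  have hcastT : (((K * p : ℕ) : ℝ)) = K * p := by push_cast; ring
  rw [← hcastT]
  refine spread (near V τ S) G hG F SS ?_ C p hp ?_ ?_ ?_ T (K * p) ?_ k κ hκ _ ?_
  · intro A _ z hz
    rw [hSS, Finset.mem_filter] at hz
    exact hz.2.1
  · intro A _ z hz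
    obtain ⟨x, hx, hCeq⟩ := hCx A z hz
    rw [hCeq]
    exact hQ x hx.1 _ hx.2.2
  · intro A _ z hz
    obtain ⟨x, hx, hCeq⟩ := hCx A z hz
    rw [hCeq]
    exact hmemC A z x hx
  · intro A hA z hz A' hA' hFA hCA
    obtain ⟨x, hx, hCeq⟩ := hCx A z hz
    rw [hCeq] at hCA
    by_contra hne
    have h1 : V x A' = true := by
      apply hQV x hx.1 (fl A z) hx.2.2
      intro i hi
      by_cases hiz : i = z
      · subst hiz
        rw [fl_self]
        revert hne
        cases A' i <;> cases A i <;> simp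
      · rw [fl_ne _ hiz]
        exact hCA i hi hiz
    have h2 := (hnear A').1 hA' x hx.1
    have h3 := (hnear A).1 hA x hx.1
    have h4 : τ x A' = τ x A := by
      apply hτ
      intro i hi
      exact hFA i ((memF i).2 ⟨x, hx.1, hi⟩)
    rw [h1, h4, ← h3, hx.2.1] at h2
    exact Bool.false_ne_true h2.symm
  · intro A _
    refine Finset.card_biUnion_le.trans ?_
    have h1 : ∑ x ∈ (univ \ S).filter (fun x => V x A = true), (Q x A).card ≤
        ∑ x ∈ (univ \ S).filter (fun x : X => V x A = true), p := by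
      refine Finset.sum_le_sum fun x hx => ?_
      rw [Finset.mem_filter, Finset.mem_sdiff] at hx
      exact hQ x hx.1.2 A hx.2
    refine h1.trans ?_
    rw [Finset.sum_const, smul_eq_mul]
    exact Nat.mul_le_mul_right _ ((Finset.card_le_card (Finset.filter_subset _ _)).trans hK)
  · intro O hO
    rw [Finset.mem_filter] at hO
    obtain ⟨_, A, hAG, hA1, hA2, hA3⟩ := hO
    refine ⟨A, hAG, ?_, hA1⟩
    intro z hz
    have hzF : z ∉ F := by
      intro h
      obtain ⟨x, hx, hi⟩ := (memF z).1 h
      exact mem_df.1 hz (hA2 x hx z hi).symm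
    have hnot := hA3 z hz
    rw [hnear] at hnot
    push Not at hnot
    obtain ⟨x, hxS, hx⟩ := hnot
    have h1 : τ x (fl A z) = τ x A := by
      apply hτ
      intro i hi
      rw [fl_ne]
      rintro rfl
      exact hzF ((memF i).2 ⟨x, hxS, hi⟩)
    have h2 := (hnear A).1 (hG hAG) x hxS
    rw [h1, ← h2] at hx
    rw [Finset.mem_union]
    cases hVA : V x A with
    | true =>
      left
      rw [hT]
      simp only
      rw [Finset.mem_biUnion]
      refine ⟨x, by
        rw [Finset.mem_filter, Finset.mem_sdiff]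
        exact ⟨⟨Finset.mem_univ _, hxS⟩, hVA⟩, ?_⟩
      by_contra hzQ
      apply hx
      rw [hVA]
      apply hQV x hxS A hVA
      intro i hi
      rw [fl_ne]
      rintro rfl
      exact hzQ hi
    | false =>
      right
      rw [hSS, Finset.mem_filter]
      refine ⟨Finset.mem_univ _, hzF, x, hxS, hVA, ?_⟩
      rw [hVA] at hx
      cases h : V x (fl A z) with
      | true => rfl
      | false => exact absurd h hx

/-- the inputs above level `s` -/
def up (lv : X → ℕ) (s : ℕ) : Finset X := univ.filter fun x => s < lv x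

omit [DecidableEq X] in
theorem mem_up {lv : X → ℕ} {s : ℕ} {x : X} : x ∈ up lv s ↔ s < lv x := by
  unfold up
  rw [Finset.mem_filter]
  exact ⟨fun h => h.2, fun h => ⟨Finset.mem_univ _, h⟩⟩

open Classical in
/-- The points from which a point of `H` is reached by changes level by level; the changes at the
level `s` are at most `a s`, each of them relevant for the tests up to level `s`. -/
noncomputable def Ch (V τ : X → (I → Bool) → Bool) (B : X → Finset I) (lv : X → ℕ)
    (S : Finset X) (a : ℕ → ℕ) (H : Finset (I → Bool)) (t : ℕ) : ℕ → Finset (I → Bool)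
  | 0 => H ∩ near V τ (S ∪ up lv t)
  | j + 1 => (near V τ (S ∪ up lv (t - (j + 1)))).filter fun O =>
      ∃ b ∈ Ch V τ B lv S a H t j, (df O b).card ≤ a (t - j) ∧
        (∀ x ∉ S ∪ up lv (t - j), ∀ i ∈ B x, b i = O i) ∧
        ∀ z ∈ df O b, fl b z ∉ near V τ (S ∪ up lv (t - j))

theorem Ch_near (V τ : X → (I → Bool) → Bool) (B : X → Finset I) (lv : X → ℕ)
    (S : Finset X) (a : ℕ → ℕ) (H : Finset (I → Bool)) (t j : ℕ) :
    Ch V τ B lv S a H t j ⊆ near V τ (S ∪ up lv (t - j)) := by
  cases j with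
  | zero => exact Finset.inter_subset_right
  | succ j =>
    unfold Ch
    exact Finset.filter_subset _ _

theorem Ch_card (V τ : X → (I → Bool) → Bool) (B : X → Finset I)
    (hτ : ∀ x a a', (∀ i ∈ B x, a' i = a i) → τ x a' = τ x a) (lv : X → ℕ)
    (p : ℕ → ℕ) (hp : ∀ s, 1 ≤ p s) (hpm : Monotone p)
    (hV : ∀ x a, V x a = true → ∃ Q : Finset I, Q.card ≤ p (lv x) ∧
      ∀ y : I → Bool, (∀ i ∈ Q, y i = a i) → V x y = true)
    (K : ℕ → ℕ) (hK : ∀ s, (univ \ up lv s).card ≤ K s)
    (S : Finset X) (a : ℕ → ℕ) (H : Finset (I → Bool)) (t : ℕ) (κ : ℝ)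
    (hκ : ∀ s, 2 * (a s : ℝ) ≤ κ) (j : ℕ) :
    ((Ch V τ B lv S a H t j).card : ℝ) ≤
      (∏ i ∈ Finset.range j, ((K (t - i) * p (t - i) + 1 : ℝ) * (1 + p (t - i) * κ)) ^ a (t - i)) *
        (H.card + j * (2 ^ (-κ) * 2 ^ Fintype.card I)) := by
  classical
  have hκ0 : 0 ≤ κ := le_trans (by positivity) (hκ 0)
  have hM : ∀ s, (1 : ℝ) ≤ ((K s * p s + 1 : ℝ) * (1 + p s * κ)) := by
    intro s
    have h1 : (1 : ℝ) ≤ K s * p s + 1 := by
      have : (0 : ℝ) ≤ (K s : ℝ) * p s := by positivity
      linarith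
    have h2 : (1 : ℝ) ≤ 1 + p s * κ := by
      have : (0 : ℝ) ≤ (p s : ℝ) * κ := by positivity
      linarith
    nlinarith
  set η : ℝ := 2 ^ (-κ) * 2 ^ Fintype.card I with hη
  have hη0 : 0 ≤ η := by positivity
  induction j with
  | zero =>
    simp only [Finset.range_zero, Finset.prod_empty, one_mul, Nat.cast_zero, zero_mul, add_zero]
    unfold Ch
    exact_mod_cast Finset.card_le_card Finset.inter_subset_left
  | succ j ih =>
    have h1 := step_card V τ B hτ (p (t - j)) (hp _) (S ∪ up lv (t - j)) (fun x hx b hb => by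
        have hlv : lv x ≤ t - j := by
          by_contra h
          rw [not_le] at h
          exact hx (Finset.mem_union_right _ (mem_up.2 h))
        obtain ⟨Q, hQ, hQ2⟩ := hV x b hb
        exact ⟨Q, hQ.trans (hpm hlv), hQ2⟩) (K (t - j))
      ((Finset.card_le_card (Finset.sdiff_subset_sdiff (Finset.Subset.refl _)
        Finset.subset_union_right)).trans (hK _)) (Ch V τ B lv S a H t j)
      (Ch_near V τ B lv S a H t j) (a (t - j)) κ (hκ _)
    have h2 : ((Ch V τ B lv S a H t (j + 1)).card : ℝ) ≤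
        ((K (t - j) * p (t - j) + 1) * (1 + p (t - j) * κ)) ^ a (t - j) *
          ((Ch V τ B lv S a H t j).card + η) := by
      refine le_trans ?_ h1
      rw [Nat.cast_le]
      apply Finset.card_le_card
      intro O hO
      unfold Ch at hO
      rw [Finset.mem_filter] at hO ⊢
      exact ⟨Finset.mem_univ _, hO.2⟩
    refine h2.trans ?_
    rw [Finset.prod_range_succ]
    set P : ℝ := ∏ i ∈ Finset.range j,
      ((K (t - i) * p (t - i) + 1 : ℝ) * (1 + p (t - i) * κ)) ^ a (t - i) with hP
    set M : ℝ := ((K (t - j) * p (t - j) + 1 : ℝ) * (1 + p (t - j) * κ)) ^ a (t - j) with hMd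
    have hP1 : 1 ≤ P := by
      rw [hP]
      refine Finset.prod_induction _ (fun x => (1 : ℝ) ≤ x) (fun a b ha hb => ?_) le_rfl
        (fun i _ => one_le_pow₀ (hM _))
      nlinarith
    have hM0 : 0 ≤ M := le_trans zero_le_one (one_le_pow₀ (hM _))
    have h3 : ((Ch V τ B lv S a H t j).card : ℝ) + η ≤
        P * (H.card + (j + 1 : ℕ) * η) := by
      push_cast
      nlinarith
    calc M * ((Ch V τ B lv S a H t j).card + η) ≤ M * (P * (H.card + (j + 1 : ℕ) * η)) :=
          mul_le_mul_of_nonneg_left h3 hM0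
      _ = P * M * (H.card + (j + 1 : ℕ) * η) := by ring

/-- If every level is bad then there are few levels. -/
theorem good_level (A : ℕ → ℕ) (nu : ℕ → ℝ) (hnu0 : ∀ s, 0 < nu s)
    (hnu : ∀ s, 2 * nu s ≤ nu (s + 1)) (R : ℕ)
    (hR : 2 * ∑ s ∈ Finset.range (R + 1), A s < R) :
    ∃ t, 1 ≤ t ∧ t ≤ R ∧ A t = 0 ∧ ∑ s ∈ Finset.range t, A s * nu s ≤ 2 * nu (t - 1) := by
  by_contra hcon
  push Not at hcon
  have key : ∀ t, t ≤ R → (∑ s ∈ Finset.range (t + 1), A s * nu s) / nu t + t ≤
      2 * ∑ s ∈ Finset.range (t + 1), (A s : ℝ) := by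
    intro t
    induction t with
    | zero =>
      intro _
      rw [Finset.sum_range_succ, Finset.sum_range_zero, zero_add, Finset.sum_range_succ,
        Finset.sum_range_zero, zero_add, mul_div_assoc, div_self (hnu0 0).ne']
      have : (0 : ℝ) ≤ A 0 := by positivity
      push_cast
      linarith
    | succ t ih =>
      intro ht
      have ih := ih (by omega)
      have hc := hcon (t + 1) (by omega) ht
      rw [Nat.add_sub_cancel] at hc
      set U : ℝ := ∑ s ∈ Finset.range (t + 1), A s * nu s with hU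
      have hU0 : 0 ≤ U := Finset.sum_nonneg fun s _ => mul_nonneg (by positivity) (hnu0 s).le
      have e1 : (∑ s ∈ Finset.range (t + 1 + 1), A s * nu s) / nu (t + 1) =
          U / nu (t + 1) + A (t + 1) := by
        rw [Finset.sum_range_succ, add_div, mul_div_assoc, div_self (hnu0 _).ne', mul_one]
      have e2 : U / nu (t + 1) ≤ U / nu t / 2 := by
        rw [div_div]
        exact div_le_div_of_nonneg_left hU0 (mul_pos (hnu0 t) (by norm_num))
          (by linarith [hnu t])
      have e3 : 0 ≤ U / nu t := div_nonneg hU0 (hnu0 t).le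
      rw [e1, Finset.sum_range_succ _ (t + 1)]
      push_cast
      by_cases hA : A (t + 1) = 0
      · have h1 := hc hA
        have h2 : 2 < U / nu t := by
          rw [lt_div_iff₀ (hnu0 t)]
          exact h1
        rw [hA]
        push_cast
        linarith
      · have h1 : (1 : ℝ) ≤ A (t + 1) := by exact_mod_cast Nat.one_le_iff_ne_zero.2 hA
        linarith
  have h1 := key R le_rfl
  have h2 : 0 ≤ (∑ s ∈ Finset.range (R + 1), A s * nu s) / nu R :=
    div_nonneg (Finset.sum_nonneg fun s _ => mul_nonneg (by positivity) (hnu0 s).le) (hnu0 R).le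
  have h3 : (2 : ℝ) * ∑ s ∈ Finset.range (R + 1), (A s : ℝ) < R := by exact_mod_cast hR
  linarith

theorem df_ch (O : I → Bool) {D D' : Finset I} (h : D ⊆ D') :
    df (ch O D) (ch O D') = D' \ D := by
  ext i
  rw [mem_df, Finset.mem_sdiff]
  unfold ch
  by_cases h1 : i ∈ D
  · simp [h1, h h1]
  · by_cases h2 : i ∈ D'
    · simp [h1, h2]
    · simp [h1, h2]

theorem fl_ch (O : I → Bool) {D : Finset I} {z : I} (h : z ∈ D) :
    fl (ch O D) z = ch O (D.erase z) := by
  funext i
  by_cases hi : i = z
  · subst hi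
    rw [fl_self]
    unfold ch
    simp [h]
  · rw [fl_ne _ hi]
    unfold ch
    simp [hi]

open Classical in
/-- Level by level. -/
theorem exists_chain (V τ : X → (I → Bool) → Bool) (B : X → Finset I)
    (hB : ∀ x x', x ≠ x' → Disjoint (B x) (B x')) (lv : X → ℕ)
    (hlv : ∀ x, 1 ≤ lv x) (k : ℕ) (nu : ℕ → ℝ) (hnu0 : ∀ s, 0 < nu s)
    (hnu : ∀ s, 2 * nu s ≤ nu (s + 1)) (R : ℕ) (hR : 4 * k < R) (O : I → Bool)
    (hO : O ∈ far V τ k) :
    ∃ t, 1 ≤ t ∧ t ≤ R ∧ ∃ (S : Finset X) (a : ℕ → ℕ), (∀ x ∈ S, lv x < t) ∧ S.card ≤ k ∧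
      (∀ s, a s ≤ k) ∧ ∑ s ∈ Finset.range t, a s ≤ k ∧
      ∑ s ∈ Finset.range t, (a s + (S.filter fun x => lv x = s).card : ℝ) * nu s ≤
        2 * nu (t - 1) ∧
      O ∈ Ch V τ B lv S a (univ.filter fun b => ∀ x, lv x = t → V x b = τ x b)
        (t - 1) (t - 1) := by
  obtain ⟨b', hb', hVb'⟩ := mem_far.1 hO
  set D : Finset I := df O b' with hD
  have hchD : ch O D = b' := by
    have : df O b' = df b' O := by
      ext i
      rw [mem_df, mem_df, ne_comm]
    rw [hD, this, ch_df]
  set S : Finset X := univ.filter fun x => ∃ i ∈ B x, i ∈ D with hS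
  have hSmem : ∀ x, x ∈ S ↔ ∃ i ∈ B x, i ∈ D := by
    intro x
    rw [hS, Finset.mem_filter]
    exact ⟨fun h => h.2, fun h => ⟨Finset.mem_univ _, h⟩⟩
  have hSk : S.card ≤ D.card := by
    rcases S.eq_empty_or_nonempty with hSe | ⟨x0, hx0⟩
    · rw [hSe]
      simp
    have hmem : ∀ x ∈ S, ∃ i ∈ B x, i ∈ D := fun x hx => (hSmem x).1 hx
    have hIne : Nonempty I := ⟨(hmem x0 hx0).choose⟩
    choose! f hf hfO using hmem
    refine Finset.card_le_card_of_injOn f ?_ ?_
    · intro x hx
      exact hfO x hx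
    · intro x hx x' hx' h
      by_contra hne
      have h1 := hf x hx
      have h2 := hf x' hx'
      have h3 := hB x x' hne
      have h4 : f x ∈ B x' := by
        have h : f x = f x' := h
        rw [h]
        exact h2
      exact Finset.disjoint_left.1 h3 h1 h4
  -- what is right
  let Gd : ℕ → Finset I → Prop := fun s D' => D' ⊆ D ∧
    ∀ x ∉ S, lv x ≤ s → V x (ch O D') = τ x (ch O D')
  have hGD : ∀ s, Gd s D := fun s => ⟨Finset.Subset.refl _, fun x _ _ => by
    rw [hchD]; exact hVb' x⟩
  have hnext : ∀ (s : ℕ) (D' : Finset I), D' ⊆ D → ∃ D'' : Finset I, D' ⊆ D'' ∧ Gd s D'' ∧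
      ∀ D₃ : Finset I, D' ⊆ D₃ → Gd s D₃ → D''.card ≤ D₃.card := by
    intro s D' hD'
    have hne : ((univ : Finset (Finset I)).filter fun D'' => D' ⊆ D'' ∧ Gd s D'').Nonempty :=
      ⟨D, by rw [Finset.mem_filter]; exact ⟨Finset.mem_univ _, hD', hGD s⟩⟩
    obtain ⟨D'', h1, h2⟩ := Finset.exists_min_image _ Finset.card hne
    rw [Finset.mem_filter] at h1
    refine ⟨D'', h1.2.1, h1.2.2, fun D₃ h3 h4 => h2 D₃ ?_⟩
    rw [Finset.mem_filter]
    exact ⟨Finset.mem_univ _, h3, h4⟩
  choose! nx hnx1 hnx2 hnx3 using hnext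
  let Ds : ℕ → Finset I := fun s => Nat.rec ∅ (fun s D' => nx (s + 1) D') s
  have hDs0 : Ds 0 = ∅ := rfl
  have hDs1 : ∀ s, Ds (s + 1) = nx (s + 1) (Ds s) := fun s => rfl
  have hDsD : ∀ s, Ds s ⊆ D := by
    intro s
    induction s with
    | zero => rw [hDs0]; exact Finset.empty_subset _
    | succ s ih => rw [hDs1]; exact (hnx2 _ _ ih).1
  have hDsm : ∀ s, Ds s ⊆ Ds (s + 1) := fun s => by rw [hDs1]; exact hnx1 _ _ (hDsD s)
  have hDsG : ∀ s, Gd s (Ds s) := by
    intro s
    cases s with
    | zero =>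
      refine ⟨hDsD 0, fun x _ hx => ?_⟩
      have := hlv x
      omega
    | succ s => rw [hDs1]; exact hnx2 _ _ (hDsD s)
  let a : ℕ → ℕ := fun s => (Ds s \ Ds (s - 1)).card
  have ha0 : a 0 = 0 := by simp [a]
  have ha1 : ∀ s, a (s + 1) = (Ds (s + 1)).card - (Ds s).card := by
    intro s
    show (Ds (s + 1) \ Ds (s + 1 - 1)).card = _
    rw [Nat.add_sub_cancel, Finset.card_sdiff_of_subset (hDsm s)]
  have hasum : ∀ n, ∑ s ∈ Finset.range (n + 1), a s = (Ds n).card := by
    intro n
    induction n with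
    | zero => simp [ha0, hDs0]
    | succ n ih =>
      rw [Finset.sum_range_succ, ih, ha1]
      have := Finset.card_le_card (hDsm n)
      omega
  have hak : ∀ s, a s ≤ k := by
    intro s
    refine (Finset.card_le_card ((Finset.sdiff_subset).trans (hDsD s))).trans hb'
  set A : ℕ → ℕ := fun s => a s + (S.filter fun x => lv x = s).card with hA
  have hSsum : ∑ s ∈ Finset.range (R + 1), (S.filter fun x => lv x = s).card ≤ S.card := by
    rw [← Finset.card_biUnion]
    · apply Finset.card_le_card
      intro x hx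
      rw [Finset.mem_biUnion] at hx
      obtain ⟨s, _, hx⟩ := hx
      exact (Finset.mem_filter.1 hx).1
    · intro s _ s' _ hne
      show Disjoint _ _
      rw [Finset.disjoint_left]
      intro x hx hx'
      rw [Finset.mem_filter] at hx hx'
      exact hne (hx.2.symm.trans hx'.2)
  have hAR : 2 * ∑ s ∈ Finset.range (R + 1), A s < R := by
    have h1 : ∑ s ∈ Finset.range (R + 1), A s = (Ds R).card +
        ∑ s ∈ Finset.range (R + 1), (S.filter fun x => lv x = s).card := by
      rw [hA, Finset.sum_add_distrib, hasum]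
    have h2 := Finset.card_le_card (hDsD R)
    omega
  obtain ⟨t, ht1, htR, htA, htsum⟩ := good_level A nu hnu0 hnu R hAR
  have hat : a t = 0 := by
    have : a t + (S.filter fun x => lv x = t).card = 0 := htA
    omega
  have hSt : S.filter (fun x => lv x = t) = ∅ := by
    have : a t + (S.filter fun x => lv x = t).card = 0 := htA
    rw [← Finset.card_eq_zero]
    omega
  have hDst : Ds t = Ds (t - 1) := by
    have h1 : Ds (t - 1) ⊆ Ds t := by
      have := hDsm (t - 1)
      rwa [Nat.sub_add_cancel ht1] at this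
    have h2 : Ds t \ Ds (t - 1) = ∅ := Finset.card_eq_zero.1 hat
    exact (Finset.sdiff_eq_empty_iff_subset.1 h2).antisymm h1
  set S' : Finset X := S.filter fun x => lv x < t with hS'
  have hunion : ∀ s, s < t → S' ∪ up lv s = S ∪ up lv s := by
    intro s hs
    ext x
    rw [Finset.mem_union, Finset.mem_union, mem_up, hS', Finset.mem_filter]
    constructor
    · rintro (h | h)
      · exact Or.inl h.1
      · exact Or.inr h
    · rintro (h | h)
      · by_cases hx : lv x < t
        · exact Or.inl ⟨h, hx⟩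
        · right
          omega
      · exact Or.inr h
  -- blocks outside `S` are not changed
  have hBO : ∀ (D' : Finset I), D' ⊆ D → ∀ x ∉ S, ∀ i ∈ B x, ch O D' i = O i := by
    intro D' hD' x hx i hi
    unfold ch
    rw [if_neg]
    intro h
    exact hx ((hSmem x).2 ⟨i, hi, hD' h⟩)
  refine ⟨t, ht1, htR, S', a, ?_, ?_, hak, ?_, ?_, ?_⟩
  · intro x hx
    rw [hS', Finset.mem_filter] at hx
    exact hx.2
  · exact ((Finset.card_le_card (Finset.filter_subset _ _)).trans hSk).trans hb'
  · have h1 := hasum (t - 1)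
    rw [Nat.sub_add_cancel ht1] at h1
    rw [h1]
    exact (Finset.card_le_card (hDsD _)).trans hb'
  · refine le_trans (le_of_eq ?_) htsum
    refine Finset.sum_congr rfl fun s hs => ?_
    rw [Finset.mem_range] at hs
    have h1 : S'.filter (fun x => lv x = s) = S.filter (fun x => lv x = s) := by
      ext x
      rw [hS']
      simp only [Finset.mem_filter]
      constructor
      · rintro ⟨⟨h1, _⟩, h2⟩
        exact ⟨h1, h2⟩
      · rintro ⟨h1, h2⟩
        exact ⟨⟨h1, by omega⟩, h2⟩
    rw [h1, hA]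
    push_cast
    ring
  · have hnear : ∀ s, s < t → ∀ D', Gd s D' → ch O D' ∈ near V τ (S' ∪ up lv s) := by
      intro s hs D' hG
      rw [hunion s hs, mem_near]
      intro x hx
      rw [Finset.mem_union, mem_up] at hx
      push Not at hx
      exact hG.2 x hx.1 hx.2
    have hmain : ∀ j, j ≤ t - 1 → ch O (Ds (t - 1 - j)) ∈ Ch V τ B lv S' a
        (univ.filter fun b => ∀ x, lv x = t → V x b = τ x b) (t - 1) j := by
      intro j
      induction j with
      | zero =>
        intro _
        unfold Ch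
        rw [Finset.mem_inter, Finset.mem_filter, Nat.sub_zero]
        refine ⟨⟨Finset.mem_univ _, ?_⟩, ?_⟩
        · intro x hx
          rw [← hDst]
          apply (hDsG t).2 x _ hx.le
          intro hxS
          have : x ∈ S.filter (fun x => lv x = t) := Finset.mem_filter.2 ⟨hxS, hx⟩
          rw [hSt] at this
          exact absurd this (Finset.notMem_empty _)
        · exact hnear (t - 1) (by omega) _ (hDsG _)
      | succ j ih =>
        intro hj
        have ih := ih (by omega)
        obtain ⟨s, hs⟩ : ∃ s, t - 1 - j = s + 1 := ⟨t - 1 - j - 1, by omega⟩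
        have hs' : t - 1 - (j + 1) = s := by omega
        rw [hs] at ih
        unfold Ch
        rw [Finset.mem_filter, hs', hs]
        refine ⟨hnear s (by omega) _ (hDsG s), ch O (Ds (s + 1)), ih, ?_, ?_, ?_⟩
        · rw [df_ch O (hDsm s)]
          exact le_of_eq rfl
        · intro x hx i hi
          have hxS : x ∉ S := by
            rw [hunion (s + 1) (by omega)] at hx
            exact fun h => hx (Finset.mem_union_left _ h)
          exact (hBO _ (hDsD (s + 1)) x hxS i hi).trans (hBO _ (hDsD s) x hxS i hi).symm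
        · intro z hz hn
          rw [df_ch O (hDsm s), Finset.mem_sdiff] at hz
          rw [fl_ch O hz.1, hunion (s + 1) (by omega), mem_near] at hn
          have hG : Gd (s + 1) ((Ds (s + 1)).erase z) := by
            refine ⟨(Finset.erase_subset _ _).trans (hDsD (s + 1)), fun x hx hx2 => hn x ?_⟩
            rw [Finset.mem_union, mem_up]
            push Not
            exact ⟨hx, hx2⟩
          have h1 := hnx3 (s + 1) (Ds s) (hDsD s) ((Ds (s + 1)).erase z) (by
            intro i hi
            rw [Finset.mem_erase]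
            refine ⟨?_, hDsm s hi⟩
            rintro rfl
            exact hz.2 hi) hG
          rw [← hDs1] at h1
          have h2 := Finset.card_erase_lt_of_mem hz.1
          omega
    have := hmain (t - 1) le_rfl
    rw [Nat.sub_self, hDs0] at this
    have h0 : ch O ∅ = O := by
      funext i
      unfold ch
      simp
    rwa [h0] at this

end Pool.Agent.TH771.CX
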