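import Pool.Agent.TH771.CX.Transfer

/-!
# Changing few bits does not help nondeterministic algorithms, II

`V x a` is a family of nondeterministic tests (each acceptance has a certificate of `p` bits), and
`τ x` are targets which depend on pairwise disjoint blocks `B x` of bits. If few changes of a point
make all tests right, then the point is near a set of points where all but few tests are right, by
changes of few relevant bits.
-/

set_option autoImplicit false

namespace Pool.Agent.TH771.CX

open Finset Pool.Agent.W900.CH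

variable {I : Type*} [Fintype I] [DecidableEq I] {X : Type*} [Fintype X] [DecidableEq X]

/-- flip one bit -/
def fl (a : I → Bool) (z : I) : I → Bool := Function.update a z (!(a z))

theorem fl_self (a : I → Bool) (z : I) : fl a z z = !(a z) := by
  unfold fl; rw [Function.update_self]

theorem fl_ne (a : I → Bool) {z i : I} (h : i ≠ z) : fl a z i = a i := by
  unfold fl; rw [Function.update_of_ne h]

theorem df_fl {O A : I → Bool} {z : I} (h : z ∈ df O A) : df O (fl A z) = (df O A).erase z := by
  ext i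
  rw [Finset.mem_erase, mem_df, mem_df]
  rw [mem_df] at h
  by_cases hi : i = z
  · subst hi
    rw [fl_self]
    constructor
    · intro h1
      exfalso
      revert h h1
      cases O i <;> cases A i <;> simp
    · intro h1
      exact absurd rfl h1.1
  · rw [fl_ne _ hi]
    exact ⟨fun h1 => ⟨hi, h1⟩, fun h1 => h1.2⟩

open Classical in
/-- The points where all tests outside `S` are right. -/
noncomputable def near (V τ : X → (I → Bool) → Bool) (S : Finset X) : Finset (I → Bool) :=
  univ.filter fun a => ∀ x ∉ S, V x a = τ x a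

open Classical in
/-- The points where `k` changes make all tests right. -/
noncomputable def far (V τ : X → (I → Bool) → Bool) (k : ℕ) : Finset (I → Bool) :=
  univ.filter fun a => ∃ b, (df a b).card ≤ k ∧ ∀ x, V x b = τ x b

theorem mem_near {V τ : X → (I → Bool) → Bool} {S : Finset X} {a : I → Bool} :
    a ∈ near V τ S ↔ ∀ x ∉ S, V x a = τ x a := by
  unfold near
  rw [Finset.mem_filter]
  exact ⟨fun h => h.2, fun h => ⟨Finset.mem_univ _, h⟩⟩

theorem mem_far {V τ : X → (I → Bool) → Bool} {k : ℕ} {a : I → Bool} :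
    a ∈ far V τ k ↔ ∃ b, (df a b).card ≤ k ∧ ∀ x, V x b = τ x b := by
  unfold far
  rw [Finset.mem_filter]
  exact ⟨fun h => h.2, fun h => ⟨Finset.mem_univ _, h⟩⟩

open Classical in
theorem far_fix (V τ : X → (I → Bool) → Bool) (B : X → Finset I)
    (hτ : ∀ x a a', (∀ i ∈ B x, a' i = a i) → τ x a' = τ x a) (p : ℕ) (hp : 1 ≤ p)
    (hV : ∀ x a, V x a = true → ∃ Q : Finset I, Q.card ≤ p ∧
      ∀ y : I → Bool, (∀ i ∈ Q, y i = a i) → V x y = true)
    (S : Finset X) (k : ℕ) (κ : ℝ) (hκ : 2 * (k : ℝ) ≤ κ) :
    ((univ.filter fun O : I → Bool => ∃ b, (df O b).card ≤ k ∧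
        (∀ x ∉ S, ∀ i ∈ B x, b i = O i) ∧ b ∈ near V τ S).card : ℝ) ≤
      ((Fintype.card X * p + 1) * (1 + p * κ)) ^ k *
        ((near V τ S).card + 2 ^ (-κ) * 2 ^ Fintype.card I) := by
  choose! Q hQ hQV using hV
  set F : Finset I := (univ \ S).biUnion B with hF
  have memF : ∀ i, i ∈ F ↔ ∃ x ∉ S, i ∈ B x := by
    intro i
    rw [hF, Finset.mem_biUnion]
    simp
  -- the relevant bits
  set T : (I → Bool) → Finset I := fun A =>
    (univ.filter fun x => V x A = true).biUnion fun x => Q x A with hT
  set Cr : (I → Bool) → I → X → Prop := fun A z x =>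
    x ∉ S ∧ V x A = false ∧ V x (fl A z) = true with hCr
  set SS : (I → Bool) → Finset I := fun A =>
    univ.filter fun z => z ∉ F ∧ ∃ x, Cr A z x with hSS
  set C : (I → Bool) → I → Finset I := fun A z =>
    if h : ∃ x, Cr A z x then Q h.choose (fl A z) else {z} with hC
  have hCx : ∀ A z, z ∈ SS A → ∃ x, Cr A z x ∧ C A z = Q x (fl A z) := by
    intro A z hz
    rw [hSS, Finset.mem_filter] at hz
    refine ⟨hz.2.2.choose, hz.2.2.choose_spec, ?_⟩
    rw [hC]
    simp only
    rw [dif_pos hz.2.2]
  have hnear : ∀ A, A ∈ near V τ S ↔ ∀ x ∉ S, V x A = τ x A := by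
    intro A
    unfold near
    rw [Finset.mem_filter]
    exact ⟨fun h => h.2, fun h => ⟨Finset.mem_univ _, h⟩⟩
  have hmemC : ∀ A z x, Cr A z x → z ∈ Q x (fl A z) := by
    intro A z x h
    by_contra hz
    have h1 := hQV x (fl A z) h.2.2 A fun i hi => by
      rw [fl_ne]
      rintro rfl
      exact hz hi
    rw [h.2.1] at h1
    exact Bool.false_ne_true h1
  have hcastT : (((Fintype.card X * p : ℕ) : ℝ)) = Fintype.card X * p := by push_cast; ring
  rw [← hcastT]
  refine spread (near V τ S) (near V τ S) (Finset.Subset.refl _) F SS ?_ C p hp ?_ ?_ ?_ T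
    (Fintype.card X * p) ?_ k κ hκ _ ?_
  · intro A _ z hz
    rw [hSS, Finset.mem_filter] at hz
    exact hz.2.1
  · intro A _ z hz
    obtain ⟨x, hx, hCeq⟩ := hCx A z hz
    rw [hCeq]
    exact hQ x _ hx.2.2
  · intro A _ z hz
    obtain ⟨x, hx, hCeq⟩ := hCx A z hz
    rw [hCeq]
    exact hmemC A z x hx
  · intro A hA z hz A' hA' hFA hCA
    obtain ⟨x, hx, hCeq⟩ := hCx A z hz
    rw [hCeq] at hCA
    by_contra hne
    have h1 : V x A' = true := by
      apply hQV x (fl A z) hx.2.2
      intro i hi
      by_cases hiz : i = z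
      · subst hiz
        rw [fl_self]
        revert hne
        cases A' i <;> cases A i <;> simp
      · rw [fl_ne _ hiz]
        exact hCA i hi hiz
    have h2 := (hnear A').1 hA' x hx.1
    have h3 := (hnear A).1 hA x hx.1
    have h4 : τ x A' = τ x A := by
      apply hτ
      intro i hi
      exact hFA i ((memF i).2 ⟨x, hx.1, hi⟩)
    rw [h1, h4, ← h3, hx.2.1] at h2
    exact Bool.false_ne_true h2.symm
  · intro A _
    refine Finset.card_biUnion_le.trans ?_
    have h1 : ∑ x ∈ univ.filter (fun x => V x A = true), (Q x A).card ≤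
        ∑ x ∈ univ.filter (fun x : X => V x A = true), p := by
      refine Finset.sum_le_sum fun x hx => ?_
      rw [Finset.mem_filter] at hx
      exact hQ x A hx.2
    refine h1.trans ?_
    rw [Finset.sum_const, smul_eq_mul]
    exact Nat.mul_le_mul_right _ (Finset.card_le_univ _)
  · intro O hO
    rw [Finset.mem_filter] at hO
    obtain ⟨_, b₀, hb₀, hb₁, hb₂⟩ := hO
    -- a minimal change
    set P : Finset (I → Bool) := univ.filter fun b => (df O b).card ≤ k ∧
        (∀ x ∉ S, ∀ i ∈ B x, b i = O i) ∧ b ∈ near V τ S with hP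
    have hPne : P.Nonempty := ⟨b₀, by
      rw [hP, Finset.mem_filter]
      exact ⟨Finset.mem_univ _, hb₀, hb₁, hb₂⟩⟩
    obtain ⟨A, hAP, hmin⟩ := Finset.exists_min_image P (fun b => (df O b).card) hPne
    rw [hP, Finset.mem_filter] at hAP
    obtain ⟨_, hA1, hA2, hA3⟩ := hAP
    refine ⟨A, hA3, ?_, hA1⟩
    intro z hz
    have hzF : z ∉ F := by
      intro h
      obtain ⟨x, hx, hi⟩ := (memF z).1 h
      exact mem_df.1 hz (hA2 x hx z hi).symm
    have hlt : (df O (fl A z)).card < (df O A).card := by
      rw [df_fl hz]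
      exact Finset.card_erase_lt_of_mem hz
    have hnot : fl A z ∉ near V τ S := by
      intro hn
      have hmem : fl A z ∈ P := by
        rw [hP, Finset.mem_filter]
        refine ⟨Finset.mem_univ _, hlt.le.trans hA1, ?_, hn⟩
        intro x hx i hi
        rw [fl_ne]
        · exact hA2 x hx i hi
        · rintro rfl
          exact hzF ((memF i).2 ⟨x, hx, hi⟩)
      have := hmin _ hmem
      omega
    rw [hnear] at hnot
    push Not at hnot
    obtain ⟨x, hxS, hx⟩ := hnot
    have h1 : τ x (fl A z) = τ x A := by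
      apply hτ
      intro i hi
      rw [fl_ne]
      rintro rfl
      exact hzF ((memF i).2 ⟨x, hxS, hi⟩)
    have h2 := (hnear A).1 hA3 x hxS
    rw [h1, ← h2] at hx
    rw [Finset.mem_union]
    cases hVA : V x A with
    | true =>
      left
      rw [hT]
      simp only
      rw [Finset.mem_biUnion]
      refine ⟨x, by rw [Finset.mem_filter]; exact ⟨Finset.mem_univ _, hVA⟩, ?_⟩
      by_contra hzQ
      apply hx
      rw [hVA]
      apply hQV x A hVA
      intro i hi
      rw [fl_ne]
      rintro rfl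
      exact hzQ hi
    | false =>
      right
      rw [hSS, Finset.mem_filter]
      refine ⟨Finset.mem_univ _, hzF, x, hxS, hVA, ?_⟩
      rw [hVA] at hx
      cases h : V x (fl A z) with
      | true => rfl
      | false => exact absurd h hx

open Classical in
/-- The number of points where `k` changes make all tests right. -/
theorem far_card (V τ : X → (I → Bool) → Bool) (B : X → Finset I)
    (hB : ∀ x x', x ≠ x' → Disjoint (B x) (B x'))
    (hτ : ∀ x a a', (∀ i ∈ B x, a' i = a i) → τ x a' = τ x a) (p : ℕ) (hp : 1 ≤ p)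
    (hV : ∀ x a, V x a = true → ∃ Q : Finset I, Q.card ≤ p ∧
      ∀ y : I → Bool, (∀ i ∈ Q, y i = a i) → V x y = true)
    (k : ℕ) (κ : ℝ) (hκ : 2 * (k : ℝ) ≤ κ) (β : ℝ)
    (hβ : ∀ S : Finset X, S.card ≤ k → ((near V τ S).card : ℝ) ≤ β * 2 ^ Fintype.card I) :
    ((far V τ k).card : ℝ) ≤ ((Fintype.card X + 1) * ((Fintype.card X * p + 1) *
      (1 + p * κ))) ^ k * ((β + 2 ^ (-κ)) * 2 ^ Fintype.card I) := by
  set Y : Finset X → Finset (I → Bool) := fun S =>
    univ.filter fun O : I → Bool => ∃ b, (df O b).card ≤ k ∧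
        (∀ x ∉ S, ∀ i ∈ B x, b i = O i) ∧ b ∈ near V τ S with hY
  set 𝒮 : Finset (Finset X) := (univ : Finset X).powerset.filter (fun S => S.card ≤ k) with h𝒮
  have hcov : far V τ k ⊆ 𝒮.biUnion Y := by
    intro O hO
    unfold far at hO
    rw [Finset.mem_filter] at hO
    obtain ⟨_, b, hb, hVb⟩ := hO
    set S : Finset X := univ.filter fun x => ∃ i ∈ B x, b i ≠ O i with hS
    have hSk : S.card ≤ k := by
      refine le_trans ?_ hb
      have hmem : ∀ x ∈ S, ∃ i ∈ B x, b i ≠ O i := by
        intro x hx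
        rw [hS, Finset.mem_filter] at hx
        exact hx.2
      rcases S.eq_empty_or_nonempty with hSe | ⟨x0, hx0⟩
      · rw [hSe]
        simp
      have hIne : Nonempty I := ⟨(hmem x0 hx0).choose⟩
      choose! f hf hfO using hmem
      refine Finset.card_le_card_of_injOn f ?_ ?_
      · intro x hx
        exact mem_df.2 (hfO x hx).symm
      · intro x hx x' hx' h
        by_contra hne
        have h1 := hf x hx
        have h2 := hf x' hx'
        have h3 := hB x x' hne
        have h4 : f x ∈ B x' := by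
          have h : f x = f x' := h
          rw [h]
          exact h2
        exact Finset.disjoint_left.1 h3 h1 h4
    rw [Finset.mem_biUnion]
    refine ⟨S, ?_, ?_⟩
    · rw [h𝒮, Finset.mem_filter, Finset.mem_powerset]
      exact ⟨Finset.subset_univ _, hSk⟩
    · rw [hY]
      simp only
      rw [Finset.mem_filter]
      refine ⟨Finset.mem_univ _, b, hb, ?_, ?_⟩
      · intro x hx i hi
        by_contra hne
        apply hx
        rw [hS, Finset.mem_filter]
        exact ⟨Finset.mem_univ _, i, hi, hne⟩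
      · unfold near
        rw [Finset.mem_filter]
        exact ⟨Finset.mem_univ _, fun x _ => hVb x⟩
  have h1 : ((far V τ k).card : ℝ) ≤ ∑ S ∈ 𝒮, ((Y S).card : ℝ) := by
    have h2 := (Finset.card_le_card hcov).trans Finset.card_biUnion_le
    exact_mod_cast h2
  have hκ0 : 0 ≤ κ := le_trans (by positivity) hκ
  have h3 : ∀ S ∈ 𝒮, ((Y S).card : ℝ) ≤
      ((Fintype.card X * p + 1) * (1 + p * κ)) ^ k * ((β + 2 ^ (-κ)) * 2 ^ Fintype.card I) := by
    intro S hS
    rw [h𝒮, Finset.mem_filter] at hS
    refine (far_fix V τ B hτ p hp hV S k κ hκ).trans ?_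
    apply mul_le_mul_of_nonneg_left _ (by positivity)
    have := hβ S hS.2
    linarith
  have h4 : (𝒮.card : ℝ) ≤ (Fintype.card X + 1) ^ k := by
    have := card_small' (univ : Finset X) k
    rw [Finset.card_univ] at this
    exact_mod_cast this
  have hβ0 : 0 ≤ β + 2 ^ (-κ) := by
    have h5 := hβ ∅ (by simp)
    have h6 : (0 : ℝ) ≤ (near V τ (∅ : Finset X)).card := by positivity
    have h7 : 0 ≤ β * 2 ^ Fintype.card I := h6.trans h5
    have h8 : 0 ≤ β := by
      by_contra h
      rw [not_le] at h
      have : β * 2 ^ Fintype.card I < 0 := mul_neg_of_neg_of_pos h (by positivity)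
      linarith
    positivity
  calc ((far V τ k).card : ℝ) ≤ ∑ S ∈ 𝒮, ((Y S).card : ℝ) := h1
    _ ≤ ∑ S ∈ 𝒮, ((Fintype.card X * p + 1) * (1 + p * κ)) ^ k *
        ((β + 2 ^ (-κ)) * 2 ^ Fintype.card I) := Finset.sum_le_sum h3
    _ = 𝒮.card * (((Fintype.card X * p + 1) * (1 + p * κ)) ^ k *
        ((β + 2 ^ (-κ)) * 2 ^ Fintype.card I)) := by rw [Finset.sum_const, nsmul_eq_mul]
    _ ≤ (Fintype.card X + 1) ^ k * (((Fintype.card X * p + 1) * (1 + p * κ)) ^ k *
        ((β + 2 ^ (-κ)) * 2 ^ Fintype.card I)) :=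
        mul_le_mul_of_nonneg_right h4 (by positivity)
    _ = _ := by rw [mul_pow (Fintype.card X + 1 : ℝ)]; ring

end Pool.Agent.TH771.CX
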