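import Pool.Agent.TH771.CX.Chain

/-!
# Changing few bits does not help nondeterministic algorithms, IV: the number of the bad points
-/

set_option autoImplicit false

namespace Pool.Agent.TH771.CX

open Finset Pool.Agent.W900.CH

variable {I : Type*} [Fintype I] [DecidableEq I] {X : Type*} [Fintype X] [DecidableEq X]

theorem Ch_congr (V τ : X → (I → Bool) → Bool) (B : X → Finset I) (lv : X → ℕ)
    (S : Finset X) (a a' : ℕ → ℕ) (H : Finset (I → Bool)) (t j : ℕ)
    (h : ∀ i < j, a (t - i) = a' (t - i)) :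
    Ch V τ B lv S a H t j = Ch V τ B lv S a' H t j := by
  induction j with
  | zero => rfl
  | succ j ih =>
    unfold Ch
    rw [ih fun i hi => h i (by omega), h j (by omega)]

/-- the number of the sets of small weight -/
theorem count_sets (w : X → ℕ) (W : ℕ) (hw : ∑ x, ((1 : ℝ) / 2) ^ w x ≤ 1) :
    (((univ : Finset X).powerset.filter fun S => ∑ x ∈ S, w x ≤ W).card : ℝ) ≤ 2 ^ (W + 2) := by
  have h1 : (((univ : Finset X).powerset.filter fun S => ∑ x ∈ S, w x ≤ W).card : ℝ) ≤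
      ∑ S ∈ (univ : Finset X).powerset, 2 ^ W * ∏ x ∈ S, ((1 : ℝ) / 2) ^ w x := by
    rw [Finset.card_eq_sum_ones, Nat.cast_sum]
    refine le_trans (Finset.sum_le_sum (g := fun S => 2 ^ W * ∏ x ∈ S, ((1 : ℝ) / 2) ^ w x)
      fun S hS => ?_) (Finset.sum_le_sum_of_subset_of_nonneg (Finset.filter_subset _ _)
        fun S _ _ => by positivity)
    rw [Finset.mem_filter] at hS
    rw [Finset.prod_pow_eq_pow_sum, Nat.cast_one]
    have h2 : ((1 : ℝ) / 2) ^ W ≤ (1 / 2) ^ (∑ x ∈ S, w x) :=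
      pow_le_pow_of_le_one (by norm_num) (by norm_num) hS.2
    calc (1 : ℝ) = 2 ^ W * (1 / 2) ^ W := by rw [← mul_pow]; norm_num
      _ ≤ _ := mul_le_mul_of_nonneg_left h2 (by positivity)
  refine h1.trans ?_
  rw [← Finset.mul_sum, ← Finset.prod_one_add, pow_add]
  apply mul_le_mul_of_nonneg_left _ (by positivity)
  calc ∏ x, (1 + ((1 : ℝ) / 2) ^ w x) ≤ ∏ x, Real.exp (((1 : ℝ) / 2) ^ w x) := by
        refine Finset.prod_le_prod (fun x _ => by positivity) fun x _ => ?_
        have := Real.add_one_le_exp (((1 : ℝ) / 2) ^ w x)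
        linarith
    _ = Real.exp (∑ x, ((1 : ℝ) / 2) ^ w x) := (Real.exp_sum _ _).symm
    _ ≤ Real.exp 1 := Real.exp_le_exp.2 hw
    _ ≤ 2 ^ 2 := by
        have := Real.exp_one_lt_d9
        norm_num
        linarith

/-- extension by zero -/
def ext0 {R k : ℕ} (f : Fin (R + 1) → Fin (k + 1)) (s : ℕ) : ℕ :=
  if h : s < R + 1 then (f ⟨s, h⟩ : ℕ) else 0

open Classical in
theorem far_sum (V τ : X → (I → Bool) → Bool) (B : X → Finset I)
    (hB : ∀ x x', x ≠ x' → Disjoint (B x) (B x'))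
    (hτ : ∀ x a a', (∀ i ∈ B x, a' i = a i) → τ x a' = τ x a) (lv : X → ℕ)
    (hlv : ∀ x, 1 ≤ lv x)
    (p : ℕ → ℕ) (hp : ∀ s, 1 ≤ p s) (hpm : Monotone p)
    (hV : ∀ x a, V x a = true → ∃ Q : Finset I, Q.card ≤ p (lv x) ∧
      ∀ y : I → Bool, (∀ i ∈ Q, y i = a i) → V x y = true)
    (K : ℕ → ℕ) (hK : ∀ s, (univ \ up lv s).card ≤ K s)
    (w : ℕ → ℕ) (hw0 : ∀ s, 0 < w s) (hw : ∀ s, 2 * w s ≤ w (s + 1))
    (hwp : ∀ s, (K s * p s + 1) * p s ≤ 2 ^ w s)
    (hwx : ∑ x, ((1 : ℝ) / 2) ^ w (lv x) ≤ 1)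
    (R k : ℕ) (hR : 4 * k < R) (κ : ℕ → ℝ) (hκ : ∀ t, 1 ≤ t → 2 * (k : ℝ) ≤ κ t)
    (β : ℕ → ℝ) (hβ : ∀ t, 1 ≤ t → t ≤ R →
      ((univ.filter fun b : I → Bool => ∀ x, lv x = t → V x b = τ x b).card : ℝ) ≤
        β t * 2 ^ Fintype.card I) :
    ((far V τ k).card : ℝ) ≤ (∑ t ∈ Finset.Icc 1 R, (k + 1) ^ (R + 1) *
      2 ^ (4 * w (t - 1) + 2) * (1 + κ t) ^ k * (β t + R * 2 ^ (-κ t))) *
        2 ^ Fintype.card I := by
  set H : ℕ → Finset (I → Bool) := fun t =>
    univ.filter fun b => ∀ x, lv x = t → V x b = τ x b with hH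
  set F : Finset (Fin (R + 1) → Fin (k + 1)) := univ with hF
  set 𝒮 : ℕ → Finset (Finset X) := fun t =>
    (univ : Finset X).powerset.filter fun S => ∑ x ∈ S, w (lv x) ≤ 2 * w (t - 1) with h𝒮
  set Y : ℕ → (Fin (R + 1) → Fin (k + 1)) → Finset X → Finset (I → Bool) := fun t f S =>
    if ∑ s ∈ Finset.range t, ext0 f s * w s ≤ 2 * w (t - 1) ∧ ∑ s ∈ Finset.range t, ext0 f s ≤ k
    then Ch V τ B lv S (ext0 f) (H t) (t - 1) (t - 1) else ∅ with hY
  have hcov : far V τ k ⊆ (Finset.Icc 1 R).biUnion fun t => F.biUnion fun f =>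
      (𝒮 t).biUnion fun S => Y t f S := by
    intro O hO
    obtain ⟨t, ht1, htR, S, a, hS, hSk, hak, hask, hsum, hmem⟩ := exists_chain V τ B hB lv hlv k
      (fun s => (w s : ℝ)) (fun s => by exact_mod_cast hw0 s) (fun s => by exact_mod_cast hw s)
      R hR O hO
    have hsumN : ∑ s ∈ Finset.range t, (a s + (S.filter fun x => lv x = s).card) * w s ≤
        2 * w (t - 1) := by
      have : ((∑ s ∈ Finset.range t, (a s + (S.filter fun x => lv x = s).card) * w s : ℕ) : ℝ) ≤
          ((2 * w (t - 1) : ℕ) : ℝ) := by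
        push_cast
        exact hsum
      exact_mod_cast this
    have hsplit : ∑ s ∈ Finset.range t, (a s + (S.filter fun x => lv x = s).card) * w s =
        ∑ s ∈ Finset.range t, a s * w s +
          ∑ s ∈ Finset.range t, (S.filter fun x => lv x = s).card * w s := by
      rw [← Finset.sum_add_distrib]
      exact Finset.sum_congr rfl fun s _ => by ring
    have hSw : ∑ x ∈ S, w (lv x) = ∑ s ∈ Finset.range t, (S.filter fun x => lv x = s).card * w s := by
      rw [← Finset.sum_fiberwise_of_maps_to (g := lv) (t := Finset.range t)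
        (fun x hx => Finset.mem_range.2 (hS x hx))]
      refine Finset.sum_congr rfl fun s _ => ?_
      rw [Finset.sum_congr rfl (g := fun _ => w s) (fun x hx => by
        rw [(Finset.mem_filter.1 hx).2]), Finset.sum_const, smul_eq_mul]
    set f : Fin (R + 1) → Fin (k + 1) := fun s => ⟨a s, by have := hak s; omega⟩ with hf
    have hfa : ∀ s, s < R + 1 → ext0 f s = a s := by
      intro s hs
      unfold ext0
      rw [dif_pos hs]
    rw [Finset.mem_biUnion]
    refine ⟨t, Finset.mem_Icc.2 ⟨ht1, htR⟩, ?_⟩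
    rw [Finset.mem_biUnion]
    refine ⟨f, Finset.mem_univ _, ?_⟩
    rw [Finset.mem_biUnion]
    refine ⟨S, ?_, ?_⟩
    · rw [h𝒮, Finset.mem_filter, Finset.mem_powerset]
      refine ⟨Finset.subset_univ _, ?_⟩
      rw [hSw]
      omega
    · rw [hY]
      simp only
      have e1 : ∑ s ∈ Finset.range t, ext0 f s * w s = ∑ s ∈ Finset.range t, a s * w s :=
        Finset.sum_congr rfl fun s hs => by
          rw [Finset.mem_range] at hs
          rw [hfa s (by omega)]
      have e2 : ∑ s ∈ Finset.range t, ext0 f s = ∑ s ∈ Finset.range t, a s :=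
        Finset.sum_congr rfl fun s hs => by
          rw [Finset.mem_range] at hs
          rw [hfa s (by omega)]
      rw [if_pos ⟨by rw [e1]; omega, by rw [e2]; exact hask⟩]
      rw [Ch_congr V τ B lv S (ext0 f) a (H t) (t - 1) (t - 1) fun i hi => hfa _ (by omega)]
      exact hmem
  have hη0 : ∀ t, (0 : ℝ) ≤ 2 ^ (-κ t) * 2 ^ Fintype.card I := fun t => by positivity
  have hYc : ∀ t ∈ Finset.Icc 1 R, ∀ f S, ((Y t f S).card : ℝ) ≤
      2 ^ (2 * w (t - 1)) * (1 + κ t) ^ k * ((β t + R * 2 ^ (-κ t)) * 2 ^ Fintype.card I) := by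
    intro t ht f S
    rw [Finset.mem_Icc] at ht
    have hκt := hκ t ht.1
    have hκ0 : 0 ≤ κ t := le_trans (by positivity) hκt
    have hβt : (0 : ℝ) ≤ β t * 2 ^ Fintype.card I :=
      le_trans (by positivity) (hβ t ht.1 ht.2)
    have hR0 : (0 : ℝ) ≤ (β t + R * 2 ^ (-κ t)) * 2 ^ Fintype.card I := by
      have := hη0 t
      have h3 : (0 : ℝ) ≤ R := by positivity
      nlinarith
    rw [hY]
    simp only
    by_cases hc : ∑ s ∈ Finset.range t, ext0 f s * w s ≤ 2 * w (t - 1) ∧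
        ∑ s ∈ Finset.range t, ext0 f s ≤ k
    · rw [if_pos hc]
      have h1 := Ch_card V τ B hτ lv p hp hpm hV K hK S (ext0 f) (H t) (t - 1) (κ t) (by
        intro s
        have h2 : ext0 f s ≤ k := by
          unfold ext0
          split_ifs with h
          · have := (f ⟨s, h⟩).2
            omega
          · omega
        have h3 : (ext0 f s : ℝ) ≤ k := by exact_mod_cast h2
        linarith) (t - 1)
      refine h1.trans ?_
      have h4 : ∏ i ∈ Finset.range (t - 1), ((K (t - 1 - i) * p (t - 1 - i) + 1 : ℝ) *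
          (1 + p (t - 1 - i) * κ t)) ^ ext0 f (t - 1 - i) ≤
          2 ^ (2 * w (t - 1)) * (1 + κ t) ^ k := by
        have h5 : ∏ i ∈ Finset.range (t - 1), ((K (t - 1 - i) * p (t - 1 - i) + 1 : ℝ) *
            (1 + p (t - 1 - i) * κ t)) ^ ext0 f (t - 1 - i) ≤
            ∏ i ∈ Finset.range (t - 1), ((2 : ℝ) ^ w (t - 1 - i) * (1 + κ t)) ^
              ext0 f (t - 1 - i) := by
          refine Finset.prod_le_prod (fun i _ => by positivity) fun i _ => ?_
          apply pow_le_pow_left₀ (by positivity)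
          have h6 : ((K (t - 1 - i) * p (t - 1 - i) + 1 : ℝ)) * p (t - 1 - i) ≤
              2 ^ w (t - 1 - i) := by exact_mod_cast hwp (t - 1 - i)
          have h7 : (1 : ℝ) + p (t - 1 - i) * κ t ≤ p (t - 1 - i) * (1 + κ t) := by
            have : (1 : ℝ) ≤ p (t - 1 - i) := by exact_mod_cast hp (t - 1 - i)
            linarith
          calc ((K (t - 1 - i) * p (t - 1 - i) + 1 : ℝ) * (1 + p (t - 1 - i) * κ t))
              ≤ ((K (t - 1 - i) * p (t - 1 - i) + 1 : ℝ)) * (p (t - 1 - i) * (1 + κ t)) :=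
                mul_le_mul_of_nonneg_left h7 (by positivity)
            _ = ((K (t - 1 - i) * p (t - 1 - i) + 1 : ℝ) * p (t - 1 - i)) * (1 + κ t) := by ring
            _ ≤ _ := mul_le_mul_of_nonneg_right h6 (by positivity)
        refine h5.trans ?_
        have h8 : ∏ i ∈ Finset.range (t - 1), ((2 : ℝ) ^ w (t - 1 - i) * (1 + κ t)) ^
            ext0 f (t - 1 - i) = 2 ^ (∑ i ∈ Finset.range (t - 1),
              ext0 f (t - 1 - i) * w (t - 1 - i)) * (1 + κ t) ^
                (∑ i ∈ Finset.range (t - 1), ext0 f (t - 1 - i)) := by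
          rw [← Finset.prod_pow_eq_pow_sum, ← Finset.prod_pow_eq_pow_sum, ← Finset.prod_mul_distrib]
          refine Finset.prod_congr rfl fun i _ => ?_
          rw [mul_pow, ← pow_mul, mul_comm (w _)]
        rw [h8]
        have hre : ∀ g : ℕ → ℕ, ∑ i ∈ Finset.range (t - 1), g (t - 1 - i) ≤
            ∑ s ∈ Finset.range t, g s := by
          intro g
          have e1 : ∑ i ∈ Finset.range (t - 1), g (t - 1 - i) =
              ∑ i ∈ Finset.range (t - 1), g (i + 1) := by
            rw [← Finset.sum_range_reflect]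
            refine Finset.sum_congr rfl fun i hi => ?_
            rw [Finset.mem_range] at hi
            congr 1
            omega
          rw [e1]
          have e2 : ∑ s ∈ Finset.range t, g s = ∑ i ∈ Finset.range (t - 1), g (i + 1) + g 0 := by
            rw [← Finset.sum_range_succ', Nat.sub_add_cancel ht.1]
          omega
        have h9 := hre (fun s => ext0 f s * w s)
        have h10 := hre (ext0 f)
        apply mul_le_mul
        · exact pow_le_pow_right₀ (by norm_num) (h9.trans hc.1)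
        · exact pow_le_pow_right₀ (by linarith) (h10.trans hc.2)
        · positivity
        · positivity
      have h11 : ((H t).card : ℝ) + ((t - 1 : ℕ) : ℝ) * (2 ^ (-κ t) * 2 ^ Fintype.card I) ≤
          (β t + R * 2 ^ (-κ t)) * 2 ^ Fintype.card I := by
        have h12 := hβ t ht.1 ht.2
        have h13 : ((t - 1 : ℕ) : ℝ) ≤ R := by exact_mod_cast (by omega : t - 1 ≤ R)
        have h14 := mul_le_mul_of_nonneg_right h13 (hη0 t)
        have h15 : ((H t).card : ℝ) ≤ β t * 2 ^ Fintype.card I := h12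
        linarith
      exact mul_le_mul h4 h11 (by positivity) (by positivity)
    · rw [if_neg hc, Finset.card_empty, Nat.cast_zero]
      positivity
  have h𝒮c : ∀ t, ((𝒮 t).card : ℝ) ≤ 2 ^ (2 * w (t - 1) + 2) := fun t =>
    count_sets (fun x => w (lv x)) (2 * w (t - 1)) hwx
  have hFc : (F.card : ℝ) = (k + 1) ^ (R + 1) := by
    rw [hF, Finset.card_univ]
    simp
  have hfar : ((far V τ k).card : ℝ) ≤ ∑ t ∈ Finset.Icc 1 R, ∑ f ∈ F, ∑ S ∈ 𝒮 t,
      ((Y t f S).card : ℝ) := by
    have h1 := Finset.card_le_card hcov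
    have h2 : ((Finset.Icc 1 R).biUnion fun t => F.biUnion fun f =>
      (𝒮 t).biUnion fun S => Y t f S).card ≤ ∑ t ∈ Finset.Icc 1 R, ∑ f ∈ F, ∑ S ∈ 𝒮 t,
        (Y t f S).card := by
      refine Finset.card_biUnion_le.trans (Finset.sum_le_sum fun t _ => ?_)
      refine Finset.card_biUnion_le.trans (Finset.sum_le_sum fun f _ => ?_)
      exact Finset.card_biUnion_le
    exact_mod_cast h1.trans h2
  refine hfar.trans ?_
  rw [Finset.sum_mul]
  refine Finset.sum_le_sum fun t ht => ?_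
  have hb := hYc t ht
  set b : ℝ := 2 ^ (2 * w (t - 1)) * (1 + κ t) ^ k *
    ((β t + R * 2 ^ (-κ t)) * 2 ^ Fintype.card I) with hbd
  have hb0 : 0 ≤ b := le_trans (by positivity) (hb (fun _ => 0) ∅)
  calc ∑ f ∈ F, ∑ S ∈ 𝒮 t, ((Y t f S).card : ℝ) ≤ ∑ f ∈ F, ∑ S ∈ 𝒮 t, b :=
        Finset.sum_le_sum fun f _ => Finset.sum_le_sum fun S _ => hb f S
    _ = F.card * ((𝒮 t).card * b) := by
        rw [Finset.sum_const, Finset.sum_const, nsmul_eq_mul, nsmul_eq_mul]
    _ ≤ (k + 1) ^ (R + 1) * (2 ^ (2 * w (t - 1) + 2) * b) := by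
        rw [hFc]
        apply mul_le_mul_of_nonneg_left _ (by positivity)
        exact mul_le_mul_of_nonneg_right (h𝒮c t) hb0
    _ = (k + 1) ^ (R + 1) * 2 ^ (4 * w (t - 1) + 2) * (1 + κ t) ^ k *
        (β t + R * 2 ^ (-κ t)) * 2 ^ Fintype.card I := by
        rw [hbd, show 4 * w (t - 1) + 2 = (2 * w (t - 1) + 2) + 2 * w (t - 1) by ring,
          pow_add 2 (2 * w (t - 1) + 2)]
        ring

end Pool.Agent.TH771.CX
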