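import Pool.Agent.TH771.CX.FarND
import Pool.Agent.H249R3.Gau.Alt
import Pool.Agent.W900.CH.EFar

/-!
# Changing few strings of a random oracle does not make `NE` and `ESPACE` equal
-/

set_option autoImplicit false

namespace Pool.Agent.TH771.CX

open Finset Pool.Agent.NPC Pool.Agent.H620R2.Gauge Pool.Agent.H622R2.Exp H568R2 MeasureTheory
open Pool.Agent.W900.CH Pool.Agent.H249R3.Gau Pool.Agent.H249R3.Gau.Alt Pool.Agent.H676
open Pool.Agent.H628R3.RO (randomOracle)

/-- `k` alternations decide the parity test language for the inputs with numbers in `J`. -/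
def EvJ (M : Alg) (q : Polynomial ℕ) (k n N : ℕ) (J : Finset ℕ) (a : Fin N → Bool) : Prop :=
  ∀ j ∈ J, QF (2 ^ q.eval n) (leaf M N) k true (bitsOf n j) a =
    par (blk N (padq q4 (bitsOf n j))) a

open Classical in
/-- The parity test language is hard for one block of quantifiers, on every set `J` of inputs. -/
theorem evJ_bound (M : Alg) (q : Polynomial ℕ) (k : ℕ) (r : Polynomial ℕ)
    (hr : ∀ n, 3 * mm n + 1 ≤ 2 ^ r.eval n ∧ M.p.eval (ell q k n) ≤ 2 ^ r.eval n ∧
      ell q k n + k + 2 + 2 ^ n ≤ 2 ^ r.eval n) :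
    ∃ n₀ : ℕ, ∀ n ≥ n₀, ∀ N : ℕ, 2 ^ 2 ^ r.eval n ≤ N → ∀ J ⊆ Finset.range (2 ^ n),
      Ex unif (fun a : Fin N → Bool => if EvJ M q k n N J a then (1 : ℝ) else 0) ≤
        3 * (1 / 2) ^ J.card := by
  obtain ⟨n₀, hn₀⟩ := Filter.eventually_atTop.1 (second_le r k)
  refine ⟨n₀, fun n hn N hN J hJ => ?_⟩
  obtain ⟨hr1, hr2, hr3⟩ := hr n
  have hG := hn₀ n hn
  have hJK : J.card ≤ 2 ^ n := by
    have := Finset.card_le_card hJ
    rwa [Finset.card_range] at this
  have hpl : ∀ i, (padq q4 (bitsOf n i)).length = mm n := fun i => by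
    rw [E0.length_padq4, length_bitsOf]
  have hN1 : 2 ^ (2 * mm n + 1) ≤ N + 1 := by
    have : 2 ^ (2 * mm n + 1) ≤ 2 ^ 2 ^ r.eval n := Nat.pow_le_pow_right (by norm_num) (by omega)
    omega
  set T : ℕ := 2 ^ r.eval n with hT
  set K : ℕ := 2 ^ n with hK
  set m : ℕ := 2 ^ q.eval n with hm
  have hT1 : 1 ≤ T := Nat.one_le_two_pow
  have hTR : (1 : ℝ) ≤ (T : ℝ) := by exact_mod_cast hT1
  set q' : ℝ := 1 / (24 * T) with hq'
  have hq0 : 0 ≤ q' := by positivity
  have hq1 : q' ≤ 1 / 3 := by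
    rw [hq', div_le_div_iff₀ (by positivity) (by norm_num)]
    linarith
  have hell : ell q k n = n + k * (2 * m + 1) := rfl
  have h1 := comb (I := Fin N) hT1 hq0 hq1 m (leaf M N) k n (by
      intro y hy
      refine (dtr_out M N y).mono ?_
      exact (eval_mono _ hy).trans hr2) J
      (fun j => blk N (padq q4 (bitsOf n j))) (by
      intro j hj j' hj' hne
      have hj := hJ hj
      have hj' := hJ hj'
      rw [Finset.mem_range] at hj hj'
      apply blk_disj
      · rw [hpl, hpl]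
      · intro h
        exact hne (bitsOf_inj hj hj' (E0.padq_inj h))) ({()} : Finset Unit)
      (fun j _ => bitsOf n j) (by
      intro j _ h _
      rw [length_bitsOf]) (K * T) (2 ^ mm n / (K * T + 1))
      (Nat.mul_le_mul_right _ hJK) (by
      intro j _
      rw [blk_card N _ (by rw [hpl]; exact hN1), hpl]
      exact Nat.mul_div_le _ _)
  have h3 : Ex unif (fun a : Fin N → Bool => if EvJ M q k n N J a then (1 : ℝ) else 0) ≤
      k * 2 ^ (n + k * (2 * m + 1) + 2) * (12 * T * q') ^ (T + 1) +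
        J.card * ((((K * T : ℕ) : ℝ) + 1) * (1 - q' ^ k) ^ (2 ^ mm n / (K * T + 1))) +
        1 * (1 / 2) ^ J.card := by
    refine le_trans (le_of_eq ?_) (h1.trans (le_of_eq ?_))
    · congr 1
      funext a
      by_cases h : EvJ M q k n N J a
      · rw [if_pos h, if_pos ⟨(), Finset.mem_singleton_self _, h⟩]
      · rw [if_neg h, if_neg]
        rintro ⟨_, _, h'⟩
        exact h h'
    · rw [Finset.card_singleton, Nat.cast_one]
  have hqt : 12 * (T : ℝ) * q' = 1 / 2 := by
    rw [hq']; field_simp; norm_num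
  rw [hqt] at h3
  have hJhalf : ((1 : ℝ) / 2) ^ K ≤ (1 / 2) ^ J.card :=
    pow_le_pow_of_le_one (by norm_num) (by norm_num) hJK
  -- first term
  have t1 : (k : ℝ) * 2 ^ (n + k * (2 * m + 1) + 2) * (1 / 2) ^ (T + 1) ≤ (1 / 2) ^ K := by
    have hk : (k : ℝ) ≤ 2 ^ k := by exact_mod_cast Nat.lt_two_pow_self.le
    have e1 : (k : ℝ) * 2 ^ (n + k * (2 * m + 1) + 2) ≤ 2 ^ (ell q k n + k + 2) := by
      calc (k : ℝ) * 2 ^ (n + k * (2 * m + 1) + 2) ≤ 2 ^ k * 2 ^ (n + k * (2 * m + 1) + 2) :=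
            mul_le_mul_of_nonneg_right hk (by positivity)
        _ = 2 ^ (ell q k n + k + 2) := by rw [← pow_add, hell]; congr 1; ring
    calc (k : ℝ) * 2 ^ (n + k * (2 * m + 1) + 2) * (1 / 2) ^ (T + 1) ≤
          2 ^ (ell q k n + k + 2) * (1 / 2) ^ ((ell q k n + k + 2) + K) := by
          apply mul_le_mul e1 _ (by positivity) (by positivity)
          exact pow_le_pow_of_le_one (by norm_num) (by norm_num) (by omega)
      _ = (2 ^ (ell q k n + k + 2) * (1 / 2) ^ (ell q k n + k + 2)) * (1 / 2) ^ K := by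
          rw [pow_add (1 / 2 : ℝ) (ell q k n + k + 2) K, mul_assoc]
      _ = (1 / 2) ^ K := by rw [two_half, one_mul]
  -- second term
  set e : ℕ := n + (n + r.eval n + 1) + 2 ^ n with he
  have t2 : (J.card : ℝ) * ((((K * T : ℕ) : ℝ) + 1) *
      (1 - q' ^ k) ^ (2 ^ mm n / (K * T + 1))) ≤ (1 / 2) ^ K := by
    have e1 : e * (24 * T) ^ k ≤ 2 ^ mm n / (K * T + 1) := by
      rw [Nat.le_div_iff_mul_le (by positivity)]
      exact hG
    have e2 := few T k _ e hT1 e1
    have e3 : ((K * T : ℕ) : ℝ) + 1 ≤ 2 ^ (n + r.eval n + 1) := by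
      have : K * T + 1 ≤ 2 ^ (n + r.eval n + 1) := by
        have h5 : K * T = 2 ^ (n + r.eval n) := by rw [pow_add]
        have h6 : 1 ≤ 2 ^ (n + r.eval n) := Nat.one_le_two_pow
        rw [h5, pow_succ]
        omega
      exact_mod_cast this
    have e4 : (J.card : ℝ) ≤ 2 ^ n := by exact_mod_cast hJK
    have e5 : (0 : ℝ) ≤ (1 - q' ^ k) ^ (2 ^ mm n / (K * T + 1)) := by
      apply pow_nonneg
      have : q' ^ k ≤ 1 := pow_le_one₀ hq0 (by linarith)
      linarith
    calc (J.card : ℝ) * ((((K * T : ℕ) : ℝ) + 1) * (1 - q' ^ k) ^ (2 ^ mm n / (K * T + 1))) ≤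
          2 ^ n * ((((K * T : ℕ) : ℝ) + 1) * (1 - q' ^ k) ^ (2 ^ mm n / (K * T + 1))) :=
          mul_le_mul_of_nonneg_right e4 (by positivity)
      _ ≤ 2 ^ n * (2 ^ (n + r.eval n + 1) * (1 / 2) ^ e) := by
          apply mul_le_mul_of_nonneg_left _ (by positivity)
          apply mul_le_mul e3 e2 e5 (by positivity)
      _ = 2 ^ (n + (n + r.eval n + 1)) * (1 / 2) ^ (n + (n + r.eval n + 1) + K) := by
          rw [← mul_assoc, ← pow_add]
      _ = (2 ^ (n + (n + r.eval n + 1)) * (1 / 2) ^ (n + (n + r.eval n + 1))) * (1 / 2) ^ K := by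
          rw [pow_add (1 / 2 : ℝ) (n + (n + r.eval n + 1)) K, mul_assoc]
      _ = (1 / 2) ^ K := by rw [two_half, one_mul]
  linarith

open Classical in
/-- The event that few changes make the algorithm decide the parity test language on the inputs of
length `n`. -/
def EvP (M : Alg) (q : Polynomial ℕ) (n N s : ℕ) (a : Fin N → Bool) : Prop :=
  ∃ b : Fin N → Bool, (df a b).card ≤ s ∧ EvA M q 1 n N b

/-- acceptance by the nondeterministic algorithm has small certificates -/
theorem cert (M : Alg) (q : Polynomial ℕ) (n N : ℕ) (j : ℕ) (a : Fin N → Bool)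
    (h : QF (2 ^ q.eval n) (leaf M N) 1 true (bitsOf n j) a = true) :
    ∃ Q : Finset (Fin N), Q.card ≤ M.p.eval (ell q 1 n) ∧ ∀ y : Fin N → Bool,
      (∀ i ∈ Q, y i = a i) → QF (2 ^ q.eval n) (leaf M N) 1 true (bitsOf n j) y = true := by
  classical
  unfold QF at h
  rw [decide_eq_true_eq] at h
  obtain ⟨w, hw, hl⟩ := h
  obtain ⟨qb, hqb⟩ := Alg.out_local M
  obtain ⟨Q, hQc, _, hQ⟩ := hqb (orc N a) (pairBits w (bitsOf n j))
  refine ⟨univ.filter (fun i : Fin N => ∃ s ∈ Q, idx s = i.1), ?_, ?_⟩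
  · have h1 : (univ.filter (fun i : Fin N => ∃ s ∈ Q, idx s = i.1)).card ≤ Q.card := by
      refine Finset.card_le_card_of_injOn (fun i => str i.1) ?_ ?_
      · intro i hi
        rw [Finset.coe_filter] at hi
        obtain ⟨_, s, hs, hsi⟩ := hi
        show str i.1 ∈ Q
        rw [← hsi, str_idx]
        exact hs
      · intro i _ j _ h
        exact Fin.ext (str_injective h)
    refine h1.trans (hQc.trans ?_)
    apply eval_mono
    rw [length_pairBits, length_bitsOf]
    unfold ell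
    omega
  · intro y hy
    unfold QF
    rw [decide_eq_true_eq]
    refine ⟨w, hw, ?_⟩
    simp only [QF] at hl ⊢
    unfold leaf at hl ⊢
    rw [decide_eq_true_eq] at hl ⊢
    rw [← hl]
    apply hQ
    intro s hs
    unfold orc
    by_cases h1 : idx s < N
    · rw [dif_pos h1, dif_pos h1]
      apply hy
      rw [Finset.mem_filter]
      exact ⟨Finset.mem_univ _, s, hs, rfl⟩
    · rw [dif_neg h1, dif_neg h1]

theorem Ex_mem {N : ℕ} (F : Finset (Fin N → Bool)) :
    Ex unif (fun a : Fin N → Bool => if a ∈ F then (1 : ℝ) else 0) = F.card * (1 / 2) ^ N := by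
  rw [Ex_ind, Fintype.card_fin]
  congr 2
  have e : univ.filter (fun a => a ∈ F) = F := by
    ext a
    simp
  rw [e]

open Classical in
theorem evP_bound (M : Alg) (q r : Polynomial ℕ)
    (hr : ∀ n, 3 * mm n + 1 ≤ 2 ^ r.eval n ∧ M.p.eval (ell q 1 n) ≤ 2 ^ r.eval n ∧
      ell q 1 n + 1 + 2 + 2 ^ n ≤ 2 ^ r.eval n) :
    ∃ n₀ : ℕ, ∀ n ≥ n₀, ∀ N : ℕ, 2 ^ 2 ^ r.eval n ≤ N → ∀ s : ℕ, ∀ κ : ℝ, 2 * (s : ℝ) ≤ κ →
      Ex unif (fun a : Fin N → Bool => if EvP M q n N s a then (1 : ℝ) else 0) ≤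
        ((2 ^ n + 1) * ((2 ^ n * 2 ^ r.eval n + 1) * (1 + 2 ^ r.eval n * κ))) ^ s *
          (3 * (1 / 2) ^ (2 ^ n - s) + 2 ^ (-κ)) := by
  obtain ⟨n₀, hn₀⟩ := evJ_bound M q 1 r hr
  refine ⟨n₀, fun n hn N hN s κ hκ => ?_⟩
  have hpl : ∀ i, (padq q4 (bitsOf n i)).length = mm n := fun i => by
    rw [E0.length_padq4, length_bitsOf]
  have h2N : (0 : ℝ) < 2 ^ N := by positivity
  set V : Fin (2 ^ n) → (Fin N → Bool) → Bool := fun x a =>
    QF (2 ^ q.eval n) (leaf M N) 1 true (bitsOf n x.1) a with hV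
  set B : Fin (2 ^ n) → Finset (Fin N) := fun x => blk N (padq q4 (bitsOf n x.1)) with hB
  set τ : Fin (2 ^ n) → (Fin N → Bool) → Bool := fun x a => par (B x) a with hτ
  have hfar := far_card V τ B ?_ ?_ (2 ^ r.eval n) Nat.one_le_two_pow ?_ s κ hκ
    (3 * (1 / 2) ^ (2 ^ n - s)) ?_
  · have e1 : Ex unif (fun a : Fin N → Bool => if EvP M q n N s a then (1 : ℝ) else 0) =
        Ex unif (fun a : Fin N → Bool => if a ∈ far V τ s then (1 : ℝ) else 0) := by
      congr 1
      funext a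
      refine if_congr ?_ rfl rfl
      rw [mem_far]
      unfold EvP EvA
      constructor
      · rintro ⟨b, hb, h⟩
        exact ⟨b, hb, fun x => h x.1 (Finset.mem_range.2 x.2)⟩
      · rintro ⟨b, hb, h⟩
        exact ⟨b, hb, fun j hj => h ⟨j, Finset.mem_range.1 hj⟩⟩
    rw [e1, Ex_mem]
    rw [Fintype.card_fin, Fintype.card_fin] at hfar
    push_cast at hfar
    calc ((far V τ s).card : ℝ) * (1 / 2) ^ N ≤
        (((2 ^ n + 1) * ((2 ^ n * 2 ^ r.eval n + 1) * (1 + 2 ^ r.eval n * κ))) ^ s *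
          ((3 * (1 / 2) ^ (2 ^ n - s) + 2 ^ (-κ)) * 2 ^ N)) * (1 / 2) ^ N :=
          mul_le_mul_of_nonneg_right hfar (by positivity)
      _ = ((2 ^ n + 1) * ((2 ^ n * 2 ^ r.eval n + 1) * (1 + 2 ^ r.eval n * κ))) ^ s *
          (3 * (1 / 2) ^ (2 ^ n - s) + 2 ^ (-κ)) * (2 ^ N * (1 / 2) ^ N) := by ring
      _ = _ := by rw [two_half, mul_one]
  · intro x x' hne
    apply blk_disj
    · rw [hpl, hpl]
    · intro h
      exact hne (Fin.ext (bitsOf_inj x.2 x'.2 (E0.padq_inj h)))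
  · intro x a a' h
    show par (B x) a' = par (B x) a
    unfold par
    have e : (B x).filter (fun i => a' i = true) = (B x).filter (fun i => a i = true) :=
      Finset.filter_congr fun i hi => by rw [h i hi]
    rw [e]
  · intro x a h
    obtain ⟨Q, hQ, hy⟩ := cert M q n N x.1 a h
    exact ⟨Q, hQ.trans (hr n).2.1, hy⟩
  · intro S hS
    have h1 := hn₀ n hn N hN ((univ \ S).image Fin.val) (by
      intro j hj
      rw [Finset.mem_image] at hj
      obtain ⟨x, _, rfl⟩ := hj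
      exact Finset.mem_range.2 x.2)
    have hcard : ((univ \ S).image (Fin.val : Fin (2 ^ n) → ℕ)).card = 2 ^ n - S.card := by
      rw [Finset.card_image_of_injective _ Fin.val_injective,
        Finset.card_sdiff_of_subset (Finset.subset_univ _), Finset.card_univ, Fintype.card_fin]
    rw [hcard] at h1
    have e1 : Ex unif (fun a : Fin N → Bool => if a ∈ near V τ S then (1 : ℝ) else 0) =
        Ex unif (fun a : Fin N → Bool =>
          if EvJ M q 1 n N ((univ \ S).image Fin.val) a then (1 : ℝ) else 0) := by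
      congr 1
      funext a
      refine if_congr ?_ rfl rfl
      rw [mem_near]
      unfold EvJ
      constructor
      · intro h j hj
        rw [Finset.mem_image] at hj
        obtain ⟨x, hx, rfl⟩ := hj
        exact h x (by simpa using hx)
      · intro h x hx
        exact h x.1 (Finset.mem_image.2 ⟨x, by simp [hx], rfl⟩)
    rw [← e1, Ex_mem] at h1
    rw [Fintype.card_fin]
    have h2 : ((1 : ℝ) / 2) ^ (2 ^ n - S.card) ≤ (1 / 2) ^ (2 ^ n - s) :=
      pow_le_pow_of_le_one (by norm_num) (by norm_num) (by omega)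
    calc ((near V τ S).card : ℝ) = ((near V τ S).card * (1 / 2) ^ N) * 2 ^ N := by
          rw [one_div, inv_pow]
          field_simp
      _ ≤ (3 * (1 / 2) ^ (2 ^ n - S.card)) * 2 ^ N := mul_le_mul_of_nonneg_right h1 h2N.le
      _ ≤ _ := mul_le_mul_of_nonneg_right (by linarith) h2N.le

end Pool.Agent.TH771.CX
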