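import Pool.Agent.TH771.CX.Levels
import Pool.Agent.TH771.CX.NESpace
import Pool.Agent.H622R2.Exp.N4
import Pool.Agent.H622R2.Exp.G

/-!
# Changing few strings of a random oracle does not put the complement of the test language into
nondeterministic exponential time
-/

set_option autoImplicit false

namespace Pool.Agent.TH771.CX

open Finset Pool.Agent.NPC Pool.Agent.H620R2.Gauge Pool.Agent.H622R2.Exp H568R2 MeasureTheory
open Pool.Agent.W900.CH Pool.Agent.H249R3.Gau Pool.Agent.H249R3.Gau.Alt Pool.Agent.H676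
open Pool.Agent.H628R3.RO (randomOracle)

/-- the inputs of the lengths `L 1`, ..., `L R` -/
abbrev Inp (L : ℕ → ℕ) (R : ℕ) : Type := Σ t : Fin R, Fin (2 ^ L (t.1 + 1))

variable {L : ℕ → ℕ} {R : ℕ}

/-- the level -/
def lvl (x : Inp L R) : ℕ := x.1.1 + 1

/-- the input as a string -/
def ipt (x : Inp L R) : List Bool := bitsOf (L (lvl x)) x.2.1

theorem length_ipt (x : Inp L R) : (ipt x).length = L (lvl x) := length_bitsOf _ _

theorem ipt_inj {x x' : Inp L R} (hl : lvl x = lvl x') (h : ipt x = ipt x') : x = x' := by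
  obtain ⟨⟨t, ht⟩, i, hi⟩ := x
  obtain ⟨⟨t', ht'⟩, i', hi'⟩ := x'
  have h1 : t = t' := by
    unfold lvl at hl
    simp only at hl
    omega
  subst h1
  unfold ipt lvl at h
  simp only at h
  have h2 := bitsOf_inj hi hi' h
  subst h2
  rfl

/-- the tests -/
noncomputable def tV (M : Alg) (q : Polynomial ℕ) (N : ℕ) (x : Inp L R) (a : Fin N → Bool) :
    Bool :=
  QF (2 ^ q.eval (L (lvl x))) (leaf M N) 1 true (ipt x) a

/-- the windows -/
noncomputable def tW (N : ℕ) (x : Inp L R) (j : Fin (2 ^ mm (L (lvl x)))) : Finset (Fin N) :=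
  witF N (padq q4 (ipt x)) j.1

open Classical in
/-- the targets -/
noncomputable def tT (N : ℕ) (x : Inp L R) (a : Fin N → Bool) : Bool :=
  decide (¬ HitF (tW N x) a)

open Classical in
/-- the blocks -/
noncomputable def tB (N : ℕ) (x : Inp L R) : Finset (Fin N) :=
  univ.biUnion (tW N x)

theorem mm_lt {n n' : ℕ} (h : n < n') : 3 * mm n ≤ 2 * mm n' := by
  unfold mm
  have h1 : 2 ^ (4 * (n' + 1)) ≥ 2 ^ (4 * (n + 1) + 4) := Nat.pow_le_pow_right (by norm_num) (by omega)
  have h2 : 2 ^ (4 * (n + 1) + 4) = 16 * 2 ^ (4 * (n + 1)) := by rw [pow_add]; ring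
  have h3 : 2 ^ (4 * (n + 1)) ≥ 4 * (n + 1) + 1 := Nat.lt_two_pow_self
  omega

theorem tB_disj (hL : StrictMono L) (N : ℕ) (x x' : Inp L R) (h : x ≠ x') :
    Disjoint (tB N x) (tB N x') := by
  rw [Finset.disjoint_left]
  intro e he he'
  unfold tB at he he'
  rw [Finset.mem_biUnion] at he he'
  obtain ⟨j, _, he⟩ := he
  obtain ⟨j', _, he'⟩ := he'
  rcases lt_trichotomy (lvl x) (lvl x') with hl | hl | hl
  · unfold tW witF at he he'
    rw [Finset.mem_filter] at he he'
    obtain ⟨_, i, hi, h1⟩ := he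
    obtain ⟨_, i', hi', h1'⟩ := he'
    have h2 := congrArg List.length (h1.symm.trans h1')
    rw [length_wit, length_wit, E0.length_padq4, E0.length_padq4, length_ipt, length_ipt] at h2
    rw [E0.length_padq4, length_ipt] at hi
    have := mm_lt (hL hl)
    omega
  · have hne : ipt x ≠ ipt x' := fun h' => h (ipt_inj hl h')
    have hj' : j'.1 < 2 ^ mm (L (lvl x)) := by
      rw [hl]
      exact j'.2
    have h2 := E0.windows_disj (N := N) (n := L (lvl x)) (length_ipt x)
      ((length_ipt x').trans (by rw [hl])) j.2 hj'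
      (by
        intro hh
        exact hne (Prod.mk.inj hh).1)
    exact Finset.disjoint_left.1 h2 he he'
  · unfold tW witF at he he'
    rw [Finset.mem_filter] at he he'
    obtain ⟨_, i, hi, h1⟩ := he
    obtain ⟨_, i', hi', h1'⟩ := he'
    have h2 := congrArg List.length (h1.symm.trans h1')
    rw [length_wit, length_wit, E0.length_padq4, E0.length_padq4, length_ipt, length_ipt] at h2
    rw [E0.length_padq4, length_ipt] at hi'
    have := mm_lt (hL hl)
    omega

theorem tT_local (N : ℕ) (x : Inp L R) (a a' : Fin N → Bool) (h : ∀ i ∈ tB N x, a' i = a i) :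
    tT N x a' = tT N x a := by
  unfold tT
  congr 1
  unfold HitF
  rw [eq_iff_iff]
  refine not_congr (exists_congr fun j => forall₂_congr fun i hi => ?_)
  rw [h i]
  unfold tB
  rw [Finset.mem_biUnion]
  exact ⟨j, Finset.mem_univ _, hi⟩

theorem card_low (hL : StrictMono L) (s : ℕ) :
    ((univ : Finset (Inp L R)) \ up lvl s).card ≤ 2 ^ (L s + 1) := by
  have h1 : ((univ : Finset (Inp L R)) \ up lvl s).card ≤
      (Finset.range (2 ^ (L s + 1) - 1)).card := by
    refine Finset.card_le_card_of_injOn (fun x => idx (ipt x)) ?_ ?_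
    · intro x hx
      rw [Finset.mem_coe, Finset.mem_sdiff, mem_up, not_lt] at hx
      rw [Finset.mem_coe, Finset.mem_range]
      have h2 := idx_lt (ipt x)
      rw [length_ipt] at h2
      have h3 : 2 ^ (L (lvl x) + 1) ≤ 2 ^ (L s + 1) :=
        Nat.pow_le_pow_right (by norm_num) (Nat.succ_le_succ (hL.monotone hx.2))
      show idx (ipt x) < _
      omega
    · intro x _ x' _ h
      have h2 : ipt x = ipt x' := by
        rw [← str_idx (ipt x), ← str_idx (ipt x')]
        exact congrArg str h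
      have h3 := congrArg List.length h2
      rw [length_ipt, length_ipt] at h3
      exact ipt_inj (hL.injective h3) h2
  rw [Finset.card_range] at h1
  exact h1.trans (Nat.sub_le _ _)

theorem sum_weights (hL : StrictMono L) (w : ℕ → ℕ) (hw : ∀ s, 2 * L s + 1 ≤ w s) :
    ∑ x : Inp L R, ((1 : ℝ) / 2) ^ w (lvl x) ≤ 1 := by
  rw [Fintype.sum_sigma]
  have h1 : ∀ t : Fin R, ∑ i : Fin (2 ^ L (t.1 + 1)), ((1 : ℝ) / 2) ^ w (lvl (⟨t, i⟩ : Inp L R)) ≤
      (1 / 2) ^ (t.1 + 1) * (1 / 2) := by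
    intro t
    have e1 : ∑ i : Fin (2 ^ L (t.1 + 1)), ((1 : ℝ) / 2) ^ w (lvl (⟨t, i⟩ : Inp L R)) =
        2 ^ L (t.1 + 1) * (1 / 2) ^ w (t.1 + 1) := by
      have : ∀ i : Fin (2 ^ L (t.1 + 1)), ((1 : ℝ) / 2) ^ w (lvl (⟨t, i⟩ : Inp L R)) =
          (1 / 2) ^ w (t.1 + 1) := fun i => rfl
      rw [Finset.sum_congr rfl fun i _ => this i, Finset.sum_const, Finset.card_univ,
        Fintype.card_fin, nsmul_eq_mul]
      push_cast
      ring
    rw [e1]
    have e2 : ((1 : ℝ) / 2) ^ w (t.1 + 1) ≤ (1 / 2) ^ (L (t.1 + 1) + L (t.1 + 1) + 1) :=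
      pow_le_pow_of_le_one (by norm_num) (by norm_num) (by have := hw (t.1 + 1); omega)
    have e3 : t.1 + 1 ≤ L (t.1 + 1) := hL.le_apply
    have e4 : ((1 : ℝ) / 2) ^ L (t.1 + 1) ≤ (1 / 2) ^ (t.1 + 1) :=
      pow_le_pow_of_le_one (by norm_num) (by norm_num) e3
    calc (2 : ℝ) ^ L (t.1 + 1) * (1 / 2) ^ w (t.1 + 1) ≤
        2 ^ L (t.1 + 1) * (1 / 2) ^ (L (t.1 + 1) + L (t.1 + 1) + 1) :=
          mul_le_mul_of_nonneg_left e2 (by positivity)
      _ = (2 ^ L (t.1 + 1) * (1 / 2) ^ L (t.1 + 1)) * (1 / 2) ^ L (t.1 + 1) * (1 / 2) := by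
          rw [pow_succ, pow_add]; ring
      _ = (1 / 2) ^ L (t.1 + 1) * (1 / 2) := by rw [two_half, one_mul]
      _ ≤ _ := mul_le_mul_of_nonneg_right e4 (by norm_num)
  refine (Finset.sum_le_sum fun t _ => h1 t).trans ?_
  rw [← Finset.sum_mul, Fin.sum_univ_eq_sum_range (fun t => ((1 : ℝ) / 2) ^ (t + 1))]
  have h2 : ∑ t ∈ Finset.range R, ((1 : ℝ) / 2) ^ (t + 1) = 1 - (1 / 2) ^ R := by
    induction R with
    | zero => simp
    | succ R ih =>
      rw [Finset.sum_range_succ, ih (fun t => h1 t.castSucc)]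
      rw [pow_succ]
      ring
  rw [h2]
  have : (0 : ℝ) ≤ (1 / 2) ^ R := by positivity
  linarith

end Pool.Agent.TH771.CX
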