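import Pool.Agent.TH771.CX.NLow

/-!
# Changing few strings of a random oracle does not put the complement of the test language into
nondeterministic exponential time, II
-/

set_option autoImplicit false

namespace Pool.Agent.TH771.CX

open Finset Pool.Agent.NPC Pool.Agent.H620R2.Gauge Pool.Agent.H622R2.Exp H568R2 MeasureTheory
open Pool.Agent.W900.CH Pool.Agent.H249R3.Gau Pool.Agent.H249R3.Gau.Alt Pool.Agent.H676
open Pool.Agent.H628R3.RO (randomOracle)

variable {L : ℕ → ℕ} {R : ℕ}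

theorem tV_iff (M : Alg) (q : Polynomial ℕ) (N : ℕ) (x : Inp L R) (a : Fin N → Bool) :
    tV M q N x a = true ↔ ∃ w : List Bool, w.length ≤ 2 ^ q.eval (L (lvl x)) ∧
      M.out (orc N a) (pairBits w (ipt x)) = some [true] := by
  classical
  unfold tV
  unfold QF
  rw [decide_eq_true_eq]
  refine exists_congr fun w => and_congr_right fun _ => ?_
  show leaf M N (pairBits w (ipt x)) a = true ↔ _
  unfold leaf
  exact decide_eq_true_iff

theorem tT_iff {N : ℕ} (x : Inp L R) (hN : 2 ^ (3 * mm (L (lvl x)) + 1) ≤ N) (a : Fin N → Bool) :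
    tT N x a = true ↔ ¬ ∃ j < 2 ^ mm (L (lvl x)), ∀ l < mm (L (lvl x)),
      orc N a (wit (padq q4 (ipt x)) j l) = true := by
  have hpl : (padq q4 (ipt x)).length = mm (L (lvl x)) := by
    rw [E0.length_padq4, length_ipt]
  have h4 := E0.hitF_iff (N := N) (x := padq q4 (ipt x)) (by rw [hpl]; omega) a
  rw [hpl] at h4
  rw [← h4]
  classical
  unfold tT
  rw [decide_eq_true_iff]
  exact Iff.rfl

open Classical in
theorem right_card (M : Alg) (q : Polynomial ℕ) : ∃ n₀ : ℕ, ∀ (L : ℕ → ℕ) (R N t : ℕ),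
    1 ≤ t → t ≤ R → n₀ ≤ L t → 16 ≤ L t → 2 ^ (3 * mm (L t) + 1) ≤ N →
    (((univ : Finset (Fin N → Bool)).filter fun b => ∀ x : Inp L R, lvl x = t →
      tV M q N x b = tT N x b).card : ℝ) ≤ 3 / 2 ^ (L t / 8) * 2 ^ N := by
  obtain ⟨n₀, hn₀⟩ := evC_bound M q
  refine ⟨n₀, fun L R N t ht htR hn hn2 hN => ?_⟩
  obtain ⟨t', rfl⟩ : ∃ t', t = t' + 1 := ⟨t - 1, by omega⟩
  set n := L (t' + 1) with hnd
  have hsz := N4.size_le hn2
  set s := n / 8 with hs
  have hcard : Fintype.card ((Fin (2 ^ s) × Fin (5 * s)) × Fin (10 * s * 8 ^ s)) =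
      50 * s ^ 2 * 16 ^ s := by
    rw [Fintype.card_prod, Fintype.card_prod, Fintype.card_fin, Fintype.card_fin,
      Fintype.card_fin]
    have h16 : (16 : ℕ) ^ s = 2 ^ s * 8 ^ s := by rw [← mul_pow]; norm_num
    rw [h16]
    ring
  let e := Fintype.equivFin ((Fin (2 ^ s) × Fin (5 * s)) × Fin (10 * s * 8 ^ s))
  have he : ∀ k, (e k).val < 2 ^ n := fun k =>
    lt_of_lt_of_le (e k).2 (by rw [hcard]; exact hsz)
  let x : (Fin (2 ^ s) × Fin (5 * s)) × Fin (10 * s * 8 ^ s) → List Bool :=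
    fun k => bitsOf n (e k).val
  have hxl : ∀ k, (x k).length = n := fun k => length_bitsOf n _
  have hxi : Function.Injective x := by
    intro k k' h
    exact e.injective (Fin.ext (bitsOf_inj (he k) (he k') h))
  have h1 := hn₀ n hn N s (by omega) hsz hN x hxi hxl
  rw [Ex_ind, Fintype.card_fin] at h1
  have h2 : ((univ : Finset (Fin N → Bool)).filter fun b => ∀ x : Inp L R, lvl x = t' + 1 →
      tV M q N x b = tT N x b).card ≤
      ((univ : Finset (Fin N → Bool)).filter fun b => EvC M q n N x b).card := by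
    apply Finset.card_le_card
    intro b hb
    rw [Finset.mem_filter] at hb ⊢
    refine ⟨Finset.mem_univ _, fun k => ?_⟩
    let y : Inp L R := ⟨⟨t', by omega⟩, ⟨(e k).val, he k⟩⟩
    have h3 := hb.2 y rfl
    have h4 := tV_iff M q N y b
    have h5 := tT_iff y hN b
    rw [h3, h5] at h4
    exact h4.symm
  have h6 : (((univ : Finset (Fin N → Bool)).filter fun b => EvC M q n N x b).card : ℝ) ≤
      3 / 2 ^ s * 2 ^ N := by
    calc (((univ : Finset (Fin N → Bool)).filter fun b => EvC M q n N x b).card : ℝ) =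
        ((((univ : Finset (Fin N → Bool)).filter fun b => EvC M q n N x b).card : ℝ) *
          (1 / 2) ^ N) * 2 ^ N := by
          rw [one_div, inv_pow]
          field_simp
      _ ≤ _ := mul_le_mul_of_nonneg_right h1 (by positivity)
  exact le_trans (by exact_mod_cast h2) h6

/-- acceptance has small certificates -/
theorem tV_cert (M : Alg) (q r : Polynomial ℕ) (hr : ∀ n, M.p.eval (ell q 1 n) ≤ 2 ^ r.eval n)
    (N : ℕ) (x : Inp L R) (a : Fin N → Bool) (h : tV M q N x a = true) :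
    ∃ Q : Finset (Fin N), Q.card ≤ 2 ^ r.eval (L (lvl x)) ∧
      ∀ y : Fin N → Bool, (∀ i ∈ Q, y i = a i) → tV M q N x y = true := by
  obtain ⟨Q, hQ, hy⟩ := cert M q (L (lvl x)) N x.2.1 a h
  exact ⟨Q, hQ.trans (hr _), hy⟩

theorem far_card_N (M : Alg) (q r : Polynomial ℕ)
    (hr : ∀ n, 3 * mm n + 1 ≤ 2 ^ r.eval n ∧ M.p.eval (ell q 1 n) ≤ 2 ^ r.eval n) :
    ∃ n₀ : ℕ, ∀ (L : ℕ → ℕ) (_ : StrictMono L) (_ : n₀ ≤ L 0) (w : ℕ → ℕ)
      (_ : ∀ s, 2 * r.eval (L s) + 2 * L s + 2 ≤ w s) (_ : ∀ s, 2 * w s ≤ w (s + 1))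
      (R k N : ℕ) (_ : 4 * k < R) (_ : ∀ t, 1 ≤ t → 2 * k ≤ L t / 8)
      (_ : 2 ^ 2 ^ r.eval (L R) ≤ N),
      ((far (tV (L := L) (R := R) M q N) (tT N) k).card : ℝ) ≤ (∑ t ∈ Finset.Icc 1 R,
        (k + 1) ^ (R + 1) * 2 ^ (4 * w (t - 1) + 2) * (1 + ((L t / 8 : ℕ) : ℝ)) ^ k *
          (3 / 2 ^ (L t / 8) + R * 2 ^ (-((L t / 8 : ℕ) : ℝ)))) * 2 ^ N := by
  obtain ⟨n₀, hn₀⟩ := right_card M q
  refine ⟨n₀ + 16, fun L hL hL0 w hw1 hw2 R k N hk hκ hN => ?_⟩
  have hLge : ∀ s, n₀ + 16 ≤ L s := fun s => hL0.trans (hL.monotone (Nat.zero_le s))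
  have h := far_sum (I := Fin N) (X := Inp L R) (tV M q N) (tT N) (tB N) (tB_disj hL N)
    (tT_local N) lvl (fun x => by unfold lvl; omega) (fun s => 2 ^ r.eval (L s))
    (fun s => Nat.one_le_two_pow)
    (fun s s' h => Nat.pow_le_pow_right (by norm_num) (eval_mono r (hL.monotone h)))
    (tV_cert M q r (fun n => (hr n).2) N) (fun s => 2 ^ (L s + 1)) (card_low hL) w
    (fun s => by have := hw1 s; omega) hw2 (fun s => by
      have h1 : 1 ≤ 2 ^ (L s + 1) * 2 ^ r.eval (L s) :=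
        Nat.mul_pos (by positivity) (by positivity)
      calc (2 ^ (L s + 1) * 2 ^ r.eval (L s) + 1) * 2 ^ r.eval (L s) ≤
          (2 * (2 ^ (L s + 1) * 2 ^ r.eval (L s))) * 2 ^ r.eval (L s) :=
            Nat.mul_le_mul_right _ (by omega)
        _ = 2 ^ (2 * r.eval (L s) + L s + 2) := by ring
        _ ≤ 2 ^ w s := Nat.pow_le_pow_right (by norm_num) (by have := hw1 s; omega))
    (sum_weights hL w fun s => by have := hw1 s; omega) R k hk
    (fun t => ((L t / 8 : ℕ) : ℝ)) (fun t ht => by exact_mod_cast hκ t ht)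
    (fun t => 3 / 2 ^ (L t / 8)) (fun t ht htR => by
      rw [Fintype.card_fin]
      refine hn₀ L R N t ht htR (by have := hLge t; omega) (by have := hLge t; omega) ?_
      · refine le_trans (Nat.pow_le_pow_right (by norm_num) ?_) hN
        exact (hr (L t)).1.trans (Nat.pow_le_pow_right (by norm_num)
          (eval_mono r (hL.monotone htR))))
  rw [Fintype.card_fin] at h
  exact h

end Pool.Agent.TH771.CX
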