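import Pool.Agent.TH771.CX.NLow2

/-!
# Changing few strings of a random oracle does not put the complement of the test language into
nondeterministic exponential time, III
-/

set_option autoImplicit false

namespace Pool.Agent.TH771.CX

open Finset Pool.Agent.NPC Pool.Agent.H620R2.Gauge Pool.Agent.H622R2.Exp H568R2 MeasureTheory
open Pool.Agent.W900.CH Pool.Agent.H249R3.Gau Pool.Agent.H249R3.Gau.Alt Pool.Agent.H676
open Pool.Agent.H628R3.RO (randomOracle)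

theorem sq_le_pow {ℓ : ℕ} (h : 20 ≤ ℓ) : 2 * ℓ * ℓ + 5 * ℓ + 2 ≤ 2 ^ (ℓ - 4) := by
  induction ℓ, h using Nat.le_induction with
  | base => norm_num
  | succ ℓ h ih =>
    have h1 : 2 ^ (ℓ + 1 - 4) = 2 * 2 ^ (ℓ - 4) := by
      rw [show ℓ + 1 - 4 = (ℓ - 4) + 1 by omega, pow_succ]; ring
    rw [h1]
    nlinarith

theorem term_le {ℓ k R k₁ w' : ℕ} (hℓ : 20 ≤ ℓ) (hR : R ≤ ℓ) (hk : k < R) (hk₁ : k₁ ≤ ℓ)
    (hw : 4 * w' ≤ 2 ^ (ℓ - 4)) :
    ((k : ℝ) + 1) ^ (R + 1) * 2 ^ (4 * w' + 2) * (1 + ((2 ^ (ℓ - 3) : ℕ) : ℝ)) ^ k *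
      (3 / 2 ^ (2 ^ (ℓ - 3)) + R * 2 ^ (-((2 ^ (ℓ - 3) : ℕ) : ℝ))) ≤ (1 / 2) ^ (R + k₁) := by
  set u : ℕ := 2 ^ (ℓ - 3) with hu
  have e0 : (2 : ℝ) ^ (-(u : ℝ)) = (1 / 2) ^ u := by
    rw [Real.rpow_neg (by norm_num), Real.rpow_natCast, one_div, inv_pow]
  have e1 : 3 / (2 : ℝ) ^ u + R * 2 ^ (-(u : ℝ)) ≤ 2 ^ ℓ * (1 / 2) ^ u := by
    rw [e0, one_div, inv_pow, div_eq_mul_inv, ← add_mul]
    apply mul_le_mul_of_nonneg_right _ (by positivity)
    have h1 : 3 + R ≤ 2 ^ ℓ := by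
      have h2 : ℓ < 2 ^ (ℓ - 1) := by
        have h3 := sq_le_pow hℓ
        have h4 : 2 ^ (ℓ - 4) ≤ 2 ^ (ℓ - 1) := Nat.pow_le_pow_right (by norm_num) (by omega)
        nlinarith
      have h5 : 2 ^ ℓ = 2 * 2 ^ (ℓ - 1) := by
        rw [← pow_succ']; congr 1; omega
      omega
    exact_mod_cast h1
  have e2 : ((k : ℝ) + 1) ^ (R + 1) ≤ 2 ^ (ℓ * (ℓ + 1)) := by
    have h1 : ((k : ℝ) + 1) ≤ 2 ^ ℓ := by
      have h2 : k + 1 ≤ 2 ^ ℓ := by
        have : ℓ < 2 ^ ℓ := Nat.lt_two_pow_self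
        omega
      exact_mod_cast h2
    calc ((k : ℝ) + 1) ^ (R + 1) ≤ (2 ^ ℓ) ^ (R + 1) := pow_le_pow_left₀ (by positivity) h1 _
      _ ≤ (2 ^ ℓ) ^ (ℓ + 1) := pow_le_pow_right₀ (one_le_pow₀ (by norm_num)) (by omega)
      _ = _ := by rw [← pow_mul]
  have e3 : (1 + (u : ℝ)) ^ k ≤ 2 ^ (ℓ * ℓ) := by
    have h1 : 1 + (u : ℝ) ≤ 2 ^ ℓ := by
      have h2 : 1 + u ≤ 2 ^ ℓ := by
        have h3 : 2 ^ ℓ = 8 * 2 ^ (ℓ - 3) := by
          rw [show (8 : ℕ) = 2 ^ 3 by norm_num, ← pow_add]; congr 1; omega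
        have h4 : 1 ≤ 2 ^ (ℓ - 3) := Nat.one_le_two_pow
        omega
      exact_mod_cast h2
    calc (1 + (u : ℝ)) ^ k ≤ (2 ^ ℓ) ^ k := pow_le_pow_left₀ (by positivity) h1 _
      _ ≤ (2 ^ ℓ) ^ ℓ := pow_le_pow_right₀ (one_le_pow₀ (by norm_num)) (by omega)
      _ = _ := by rw [← pow_mul]
  have e4 : ℓ * (ℓ + 1) + (4 * w' + 2) + ℓ * ℓ + ℓ + (R + k₁) ≤ u := by
    have h1 := sq_le_pow hℓ
    have h2 : u = 2 * 2 ^ (ℓ - 4) := by
      rw [hu, ← pow_succ']; congr 1; omega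
    nlinarith
  calc ((k : ℝ) + 1) ^ (R + 1) * 2 ^ (4 * w' + 2) * (1 + (u : ℝ)) ^ k *
      (3 / 2 ^ u + R * 2 ^ (-(u : ℝ)))
      ≤ 2 ^ (ℓ * (ℓ + 1)) * 2 ^ (4 * w' + 2) * 2 ^ (ℓ * ℓ) * (2 ^ ℓ * (1 / 2) ^ u) := by
        gcongr
    _ = 2 ^ (ℓ * (ℓ + 1) + (4 * w' + 2) + ℓ * ℓ + ℓ) * (1 / 2) ^ u := by
        rw [pow_add _ (ℓ * (ℓ + 1) + (4 * w' + 2) + ℓ * ℓ), pow_add _ (ℓ * (ℓ + 1) + (4 * w' + 2)),
          pow_add _ (ℓ * (ℓ + 1))]
        ring
    _ ≤ 2 ^ (ℓ * (ℓ + 1) + (4 * w' + 2) + ℓ * ℓ + ℓ) *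
        (1 / 2) ^ (ℓ * (ℓ + 1) + (4 * w' + 2) + ℓ * ℓ + ℓ + (R + k₁)) := by
        apply mul_le_mul_of_nonneg_left _ (by positivity)
        exact pow_le_pow_of_le_one (by norm_num) (by norm_num) e4
    _ = (1 / 2) ^ (R + k₁) := by
        rw [pow_add (1 / 2 : ℝ), ← mul_assoc, two_half, one_mul]

/-- Almost no oracle can be changed at few strings such that the complement of the test language
is in nondeterministic time. -/
theorem ae_far_N {E : Set (Polynomial ℕ)} (hE : Good E) {g : ℕ → ℝ}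
    (hlev : ∀ r ∈ E, ∃ d C : ℕ, 1 ≤ d ∧ (∀ n, 2 * r.eval n + 2 * n + 2 ≤ C * (n + 1) ^ d) ∧
      ∀ c₀ n₁ : ℕ, ∃ m ≥ n₁, ∃ (R : ℕ) (ℓ : ℕ → ℕ), n₁ ≤ ℓ 0 ∧ R ≤ ℓ 0 ∧
        (∀ t, d * ℓ t + c₀ ≤ ℓ (t + 1)) ∧ 4 * ⌊g m⌋₊ < R ∧ 2 ^ r.eval (2 ^ ℓ R) ≤ m) :
    ∀ᵐ O ∂randomOracle, ∀ A, Close g O A → ¬ InNTime E A (hit2 A)ᶜ := by
  classical
  have hS : ∀ᵐ O ∂randomOracle, ∀ A, Close g O A →
      A ∉ {A : Oracle | InNTime E A (hit2 A)ᶜ} := by
    refine ae_far_of fun n₁ => ?_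
    have hc : Countable (Polynomial ℕ) := N4.countable_poly
    have hcE : Countable E := inferInstance
    have hsub : {O : Oracle | ∃ A ∈ {A : Oracle | InNTime E A (hit2 A)ᶜ}, ∀ n ≥ n₁,
        (Pool.Agent.W900.CH.dist O A n : ℝ) ≤ g n} ⊆ ⋃ θ : Alg × E,
          {O : Oracle | ∃ A ∈ N4.XC E θ, ∀ n ≥ n₁,
            (Pool.Agent.W900.CH.dist O A n : ℝ) ≤ g n} := by
      rintro O ⟨A, ⟨V, ⟨M, hM⟩, q, hq, h⟩, hA⟩
      refine Set.mem_iUnion.2 ⟨(M, ⟨q, hq⟩), A, fun x => ?_, hA⟩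
      refine (h x).trans (exists_congr fun w => and_congr_right fun _ => ?_)
      show _ ↔ M.out A (pairBits w x) = some [true]
      rw [hM, Option.some.injEq]
    refine measure_mono_null hsub (measure_iUnion_null fun θ => measure_of_null ?_)
    intro δ hδ
    obtain ⟨⟨M, q⟩, hθ⟩ : ∃ θ' : Alg × E, θ = θ' := ⟨θ, rfl⟩
    subst hθ
    obtain ⟨qb, hqb⟩ := Alg.out_local M
    obtain ⟨r₁, hr₁, hrr⟩ := exists_r hE q.2 1 qb M.p
    obtain ⟨r₂, hr₂, hr₂a, hr₂b⟩ := evC_of hE M q.2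
    set r : Polynomial ℕ := r₁ + r₂ with hrdef
    have hrE : r ∈ E := hE.add _ hr₁ _ hr₂
    have hre : ∀ n, r.eval n = r₁.eval n + r₂.eval n := fun n => by
      rw [hrdef, Polynomial.eval_add]
    have hr1le : ∀ n, 2 ^ r₁.eval n ≤ 2 ^ r.eval n := fun n =>
      Nat.pow_le_pow_right (by norm_num) (by rw [hre]; omega)
    have hr2le : ∀ n, 2 ^ r₂.eval n ≤ 2 ^ r.eval n := fun n =>
      Nat.pow_le_pow_right (by norm_num) (by rw [hre]; omega)
    obtain ⟨n₀, hn₀⟩ := far_card_N M q r (fun n => by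
      have h' := hrr n
      have h'' := hr1le n
      have hp : 0 < 2 ^ n := by positivity
      refine ⟨?_, ?_⟩ <;> omega)
    obtain ⟨d, C, hd, hC, hex⟩ := hlev r hrE
    obtain ⟨k₁, hk₁⟩ := exists_pow_lt_of_lt_one hδ (by norm_num : (1 / 2 : ℝ) < 1)
    obtain ⟨m, hm, R, ℓ, hℓ0, hRℓ, hℓ, hgR, hrm⟩ := hex (d + 8 + Nat.size C) (n₁ + n₀ + k₁ + 20)
    set k : ℕ := ⌊g m⌋₊ with hkdef
    have hdℓ : ∀ t, ℓ t ≤ d * ℓ t := fun t => Nat.le_mul_of_pos_left _ hd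
    have hℓm : ∀ t, ℓ t + 8 ≤ ℓ (t + 1) := fun t => by
      have := hℓ t
      have := hdℓ t
      omega
    have hℓmono : ∀ t, ℓ 0 ≤ ℓ t := by
      intro t
      induction t with
      | zero => exact le_rfl
      | succ t ih => have := hℓm t; omega
    set L : ℕ → ℕ := fun t => 2 ^ ℓ t with hL
    have hLs : StrictMono L := strictMono_nat_of_lt_succ fun t =>
      Nat.pow_lt_pow_right (by norm_num) (by have := hℓm t; omega)
    have hLself : ∀ t, ℓ t < L t := fun t => Nat.lt_two_pow_self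
    set w : ℕ → ℕ := fun t => C * (L t + 1) ^ d with hw
    have hL8 : ∀ t, L t / 8 = 2 ^ (ℓ t - 3) := by
      intro t
      have h1 : 20 ≤ ℓ t := by have := hℓmono t; omega
      have h2 : L t = 8 * 2 ^ (ℓ t - 3) := by
        show 2 ^ ℓ t = 8 * 2 ^ (ℓ t - 3)
        rw [show (8 : ℕ) = 2 ^ 3 by norm_num, ← pow_add]
        congr 1
        omega
      rw [h2]
      exact Nat.mul_div_cancel_left _ (by norm_num)
    have hw4 : ∀ t, 4 * w t ≤ 2 ^ (ℓ (t + 1) - 4) := by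
      intro t
      have h1 := hℓ t
      have h2 : L t + 1 ≤ 2 ^ (ℓ t + 1) := by
        rw [hL, pow_succ]
        have : 1 ≤ 2 ^ ℓ t := Nat.one_le_two_pow
        simp only
        omega
      have h3 : C ≤ 2 ^ Nat.size C := (Nat.lt_size_self C).le
      calc 4 * w t = 4 * (C * (L t + 1) ^ d) := rfl
        _ ≤ 2 ^ 2 * (2 ^ Nat.size C * (2 ^ (ℓ t + 1)) ^ d) := by
            have := Nat.pow_le_pow_left h2 d
            gcongr
            norm_num
        _ = 2 ^ (2 + (Nat.size C + (ℓ t + 1) * d)) := by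
            rw [← pow_mul, ← pow_add, ← pow_add]
        _ ≤ 2 ^ (ℓ (t + 1) - 4) := by
            apply Nat.pow_le_pow_right (by norm_num)
            have h4 : (ℓ t + 1) * d = d * ℓ t + d := by ring
            omega
    have hw2 : ∀ t, 2 * w t ≤ w (t + 1) := by
      intro t
      have h1 := hℓm t
      have h2 : 2 * (L t + 1) ≤ L (t + 1) + 1 := by
        have h3 : 2 ^ (ℓ t + 2) ≤ L (t + 1) := Nat.pow_le_pow_right (by norm_num) (by omega)
        have h4 : 2 ^ (ℓ t + 2) = 4 * L t := by rw [pow_add, hL]; ring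
        have h5 : 1 ≤ L t := Nat.one_le_two_pow
        omega
      calc 2 * w t = C * (2 * (L t + 1) ^ d) := by rw [hw]; ring
        _ ≤ C * (2 ^ d * (L t + 1) ^ d) := by
            apply Nat.mul_le_mul_left
            apply Nat.mul_le_mul_right
            calc 2 = 2 ^ 1 := by norm_num
              _ ≤ 2 ^ d := Nat.pow_le_pow_right (by norm_num) hd
        _ = C * (2 * (L t + 1)) ^ d := by rw [mul_pow]
        _ ≤ w (t + 1) := Nat.mul_le_mul_left _ (Nat.pow_le_pow_left h2 d)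
    obtain ⟨N, hN⟩ : ∃ N, N = 2 ^ 2 ^ r.eval (L R) := ⟨_, rfl⟩
    have hcard := hn₀ L hLs (by have := hLself 0; omega) w (fun s => hC (L s)) hw2 R k N hgR
      (fun t _ => by
        rw [hL8 t]
        have h1 := hℓmono t
        have h2 : ℓ t - 3 < 2 ^ (ℓ t - 3) := Nat.lt_two_pow_self
        omega) hN.ge
    have hsum : (∑ t ∈ Finset.Icc 1 R,
        ((k : ℝ) + 1) ^ (R + 1) * 2 ^ (4 * w (t - 1) + 2) * (1 + ((L t / 8 : ℕ) : ℝ)) ^ k *
          (3 / 2 ^ (L t / 8) + R * 2 ^ (-((L t / 8 : ℕ) : ℝ)))) ≤ (1 / 2) ^ k₁ := by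
      have h1 : ∀ t ∈ Finset.Icc 1 R, ((k : ℝ) + 1) ^ (R + 1) * 2 ^ (4 * w (t - 1) + 2) *
          (1 + ((L t / 8 : ℕ) : ℝ)) ^ k *
          (3 / 2 ^ (L t / 8) + R * 2 ^ (-((L t / 8 : ℕ) : ℝ))) ≤ (1 / 2) ^ (R + k₁) := by
        intro t ht
        rw [Finset.mem_Icc] at ht
        have h2 := hℓmono t
        rw [hL8 t]
        apply term_le (ℓ := ℓ t) (by omega) (by omega) (by omega) (by omega)
        have h3 := hw4 (t - 1)
        rwa [Nat.sub_add_cancel ht.1] at h3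
      refine (Finset.sum_le_sum h1).trans ?_
      rw [Finset.sum_const, Nat.card_Icc, Nat.add_sub_cancel, nsmul_eq_mul, pow_add, ← mul_assoc]
      have h2 : (R : ℝ) * (1 / 2) ^ R ≤ 1 := by
        have h3 : (R : ℝ) ≤ 2 ^ R := by exact_mod_cast Nat.lt_two_pow_self.le
        calc (R : ℝ) * (1 / 2) ^ R ≤ 2 ^ R * (1 / 2) ^ R :=
              mul_le_mul_of_nonneg_right h3 (by positivity)
          _ = 1 := two_half R
      calc (R : ℝ) * (1 / 2) ^ R * (1 / 2) ^ k₁ ≤ 1 * (1 / 2) ^ k₁ :=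
            mul_le_mul_of_nonneg_right h2 (by positivity)
        _ = _ := one_mul _
    refine cover_of_event (fun a : Fin N → Bool =>
      a ∈ far (tV (L := L) (R := R) M q N) (tT N) k) _ ?_ (fun _ => 0) δ ?_
    · rintro O ⟨A, hA, hdA⟩
      rw [mem_far]
      refine ⟨pre N A, ?_, ?_⟩
      · refine (df_pre O A N).trans ?_
        have h1 : Nat.log 2 N = 2 ^ r.eval (L R) := by
          rw [hN]
          exact Nat.log_pow (by norm_num) _
        rw [h1]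
        refine (dist_mono O A hrm).trans (Nat.le_floor ?_)
        exact hdA m (by omega)
      · intro x
        have hxR : lvl x ≤ R := by
          unfold lvl
          have := x.1.2
          omega
        have hLle : L (lvl x) ≤ L R := hLs.monotone hxR
        have hev := hr₂b A (L (lvl x)) (κ := Unit) (fun _ => ipt x) (fun _ => length_ipt x)
          (fun _ => by
            have h := hA (ipt x)
            rw [length_ipt] at h
            exact h) N (by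
            rw [hN]
            apply Nat.pow_le_pow_right (by norm_num)
            exact (hr2le _).trans (Nat.pow_le_pow_right (by norm_num) (eval_mono r hLle)))
        have h1 := hev ()
        have h2 := tV_iff M q N x (pre N A)
        have h3 := tT_iff x (N := N) (by
          rw [hN]
          apply Nat.pow_le_pow_right (by norm_num)
          have h4 := hr₂a (L (lvl x))
          exact h4.trans ((hr2le _).trans (Nat.pow_le_pow_right (by norm_num)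
            (eval_mono r hLle)))) (pre N A)
        rw [Bool.eq_iff_iff, h2, h3]
        exact h1
    · rw [Real.rpow_zero, mul_one]
      refine le_trans (le_of_eq (Eq.trans ?_
        (Ex_mem (far (tV (L := L) (R := R) M q N) (tT N) k)))) ?_
      · congr 1
        funext a
        by_cases h : a ∈ far (tV (L := L) (R := R) M q N) (tT N) k
        · rw [if_pos h, if_pos h]
        · rw [if_neg h, if_neg h]
      have h2N : (0 : ℝ) < 2 ^ N := by positivity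
      calc ((far (tV (L := L) (R := R) M q N) (tT N) k).card : ℝ) * (1 / 2) ^ N ≤
          ((1 / 2) ^ k₁ * 2 ^ N) * (1 / 2) ^ N := by
            apply mul_le_mul_of_nonneg_right _ (by positivity)
            exact hcard.trans (mul_le_mul_of_nonneg_right hsum h2N.le)
        _ = (1 / 2) ^ k₁ := by rw [mul_assoc, two_half, mul_one]
        _ ≤ δ := hk₁.le
  filter_upwards [hS] with O hO A hA
  exact hO A hA

end Pool.Agent.TH771.CX
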