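import Pool.Agent.TH771.CX.NLow3
import Pool.Agent.H622R2.Exp.YAux

/-!
# The choice of the levels
-/

set_option autoImplicit false

namespace Pool.Agent.TH771.CX

open MeasureTheory Filter Pool.Agent.NPC
open Pool.Agent.H628R3.RO (randomOracle)
open Pool.Agent.H620R2.Gauge Pool.Agent.H622R2.Exp Pool.Agent.W900.CH

theorem logb_le_log (n : ℕ) : Real.logb 2 (n : ℝ) ≤ (Nat.log 2 n : ℝ) + 1 := by
  rcases Nat.eq_zero_or_pos n with rfl | hn
  · simp
  · have h1 : n < 2 ^ (Nat.log 2 n + 1) := Nat.lt_pow_succ_log_self (by norm_num) n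
    have h2 : (n : ℝ) ≤ 2 ^ ((Nat.log 2 n + 1 : ℕ) : ℝ) := by
      rw [Real.rpow_natCast]
      exact_mod_cast h1.le
    have h3 := Real.logb_le_logb_of_le (b := 2) (by norm_num) (by exact_mod_cast hn) h2
    rw [Real.logb_rpow (by norm_num) (by norm_num)] at h3
    push_cast at h3
    exact h3

theorem log_add_le (n k : ℕ) (hn : 1 ≤ n) (c : ℕ) (h : k + 1 ≤ 2 ^ c) :
    Nat.log 2 (n + k) ≤ Nat.log 2 n + c := by
  have h1 : n + k < 2 ^ (Nat.log 2 n + c + 1) := by
    have h2 : n < 2 ^ (Nat.log 2 n + 1) := Nat.lt_pow_succ_log_self (by norm_num) n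
    have h3 : n + k ≤ n * 2 ^ c := by nlinarith
    calc n + k ≤ n * 2 ^ c := h3
      _ < 2 ^ (Nat.log 2 n + 1) * 2 ^ c := by
        apply Nat.mul_lt_mul_of_pos_right h2 (by positivity)
      _ = _ := by rw [← pow_add]; congr 1; ring
  exact Nat.le_of_lt_succ (Nat.log_lt_of_lt_pow (by omega) h1)

/-- the double logarithm -/
theorem loglog_le {n : ℕ} (hn : 4 ≤ n) :
    Real.logb 2 (Real.logb 2 (n : ℝ)) ≤ (Nat.log 2 (Nat.log 2 n) : ℝ) + 2 := by
  have h1 := logb_le_log n
  have h0 : (1 : ℝ) ≤ Real.logb 2 (n : ℝ) := by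
    rw [Real.le_logb_iff_rpow_le (by norm_num) (by positivity)]
    norm_num
    exact_mod_cast (by omega : 2 ≤ n)
  have hl : 1 ≤ Nat.log 2 n := Nat.log_pos (by norm_num) (by omega)
  have h2 : Real.logb 2 (Real.logb 2 (n : ℝ)) ≤ Real.logb 2 ((Nat.log 2 n + 1 : ℕ) : ℝ) := by
    apply Real.logb_le_logb_of_le (by norm_num) (by linarith)
    push_cast
    exact h1
  have h3 := logb_le_log (Nat.log 2 n + 1)
  have h4 := log_add_le (Nat.log 2 n) 1 hl 1 (by norm_num)
  have h5 : ((Nat.log 2 (Nat.log 2 n + 1) : ℕ) : ℝ) ≤ (Nat.log 2 (Nat.log 2 n) + 1 : ℕ) := by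
    exact_mod_cast h4
  push_cast at h5
  linarith

/-- the triple logarithm -/
theorem logloglog_le {n : ℕ} (hn : 16 ≤ n) :
    Real.logb 2 (Real.logb 2 (Real.logb 2 (n : ℝ))) ≤
      (Nat.log 2 (Nat.log 2 (Nat.log 2 n)) : ℝ) + 3 := by
  have h1 := loglog_le (n := n) (by omega)
  have h0 : (2 : ℝ) ≤ Real.logb 2 (n : ℝ) := by
    rw [Real.le_logb_iff_rpow_le (by norm_num) (by positivity)]
    norm_num
    exact_mod_cast (by omega : 4 ≤ n)
  have h00 : (1 : ℝ) ≤ Real.logb 2 (Real.logb 2 (n : ℝ)) := by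
    rw [Real.le_logb_iff_rpow_le (by norm_num) (by linarith)]
    norm_num
    exact h0
  have hl1 : 4 ≤ Nat.log 2 n := by
    have : Nat.log 2 16 ≤ Nat.log 2 n := Nat.log_mono_right (by omega)
    have h16 : Nat.log 2 16 = 4 := by
      rw [show (16 : ℕ) = 2 ^ 4 by norm_num, Nat.log_pow (by norm_num)]
    omega
  have hl : 2 ≤ Nat.log 2 (Nat.log 2 n) := by
    have : Nat.log 2 4 ≤ Nat.log 2 (Nat.log 2 n) := Nat.log_mono_right hl1
    have h16 : Nat.log 2 4 = 2 := by
      rw [show (4 : ℕ) = 2 ^ 2 by norm_num, Nat.log_pow (by norm_num)]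
    omega
  have h2 : Real.logb 2 (Real.logb 2 (Real.logb 2 (n : ℝ))) ≤
      Real.logb 2 ((Nat.log 2 (Nat.log 2 n) + 2 : ℕ) : ℝ) := by
    apply Real.logb_le_logb_of_le (by norm_num) (by linarith)
    push_cast
    exact h1
  have h3 := logb_le_log (Nat.log 2 (Nat.log 2 n) + 2)
  have h4 := log_add_le (Nat.log 2 (Nat.log 2 n)) 2 (by omega) 2 (by norm_num)
  have h5 : ((Nat.log 2 (Nat.log 2 (Nat.log 2 n) + 2) : ℕ) : ℝ) ≤
      (Nat.log 2 (Nat.log 2 (Nat.log 2 n)) + 2 : ℕ) := by
    exact_mod_cast h4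
  push_cast at h5
  linarith

theorem tendsto_log : Tendsto (fun n : ℕ => Nat.log 2 n) atTop atTop := by
  refine tendsto_atTop.2 fun b => ?_
  filter_upwards [eventually_ge_atTop (2 ^ b)] with n hn
  have : Nat.log 2 (2 ^ b) ≤ Nat.log 2 n := Nat.log_mono_right hn
  rwa [Nat.log_pow (by norm_num)] at this

/-- the number of levels against the gauge -/
theorem levels_lt {lam b c : ℕ} {gm : ℝ} (hb : 1 ≤ b) (hg : gm ≤ 1 / (16 * b) * (lam + 3))
    (hl : 8 * b * (c + 16) ≤ lam) : 4 * ⌊gm⌋₊ < (lam - c) / (2 * b) - 1 := by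
  have hb' : (1 : ℝ) ≤ b := by exact_mod_cast hb
  have hlr : (8 * b * (c + 16) : ℝ) ≤ lam := by exact_mod_cast hl
  -- a lower bound for the number of levels
  have h1 : lam / (4 * b) + 1 < (lam - c) / (2 * b) - 1 := by
    have h2 : lam / (4 * b) + 3 ≤ (lam - c) / (2 * b) := by
      rw [Nat.le_div_iff_mul_le (by omega)]
      have h3 : lam / (4 * b) * (4 * b) ≤ lam := Nat.div_mul_le_self _ _
      have h5 : c ≤ b * c := Nat.le_mul_of_pos_left c hb
      have h4 : (lam / (4 * b) + 3) * (2 * b) + c ≤ lam := by nlinarith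
      exact Nat.le_sub_of_add_le h4
    have key : ∀ X Y : ℕ, X + 3 ≤ Y → X + 1 < Y - 1 := fun X Y h => by omega
    exact key _ _ h2
  refine lt_of_le_of_lt ?_ h1
  rcases lt_or_ge gm 0 with h | h
  · rw [Nat.floor_of_nonpos h.le, Nat.mul_zero]
    exact Nat.zero_le _
  · have h2 : ((⌊gm⌋₊ : ℕ) : ℝ) ≤ gm := Nat.floor_le h
    have h3 : (lam : ℝ) / (4 * b) < (lam / (4 * b) : ℕ) + 1 := by
      rw [div_lt_iff₀ (by positivity)]
      have := Nat.lt_div_mul_add (a := lam) (b := 4 * b) (by omega)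
      have h5 : (lam : ℝ) < ((lam / (4 * b) * (4 * b) + 4 * b : ℕ) : ℝ) := by exact_mod_cast this
      push_cast at h5 ⊢
      linarith
    have h4 : 4 * gm ≤ (lam : ℝ) / (4 * b) + 3 / (4 * b) := by
      calc 4 * gm ≤ 4 * (1 / (16 * b) * (lam + 3)) := by linarith
        _ = _ := by field_simp; ring
    have h5 : (3 : ℝ) / (4 * b) < 1 := by
      rw [div_lt_one (by positivity)]
      linarith
    have h6 : (4 * (⌊gm⌋₊ : ℕ) : ℝ) < ((lam / (4 * b) : ℕ) : ℝ) + 2 := by linarith
    have h7 : 4 * ⌊gm⌋₊ < lam / (4 * b) + 2 := by exact_mod_cast h6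
    omega

/-- The lower bound for linear exponents. -/
theorem ae_far_NE {g : ℕ → ℝ}
    (hg : ∀ ε : ℝ, 0 < ε → ∃ᶠ n : ℕ in atTop, g n ≤ ε * Real.logb 2 (Real.logb 2 n)) :
    ∀ᵐ O ∂randomOracle, ∀ A, Close g O A → ¬ InNTime Lin A (hit2 A)ᶜ := by
  refine ae_far_N good_Lin ?_
  rintro r ⟨c, rfl⟩
  refine ⟨1, 2 * c + 2, le_refl 1, fun n => ?_, fun c₀ n₁ => ?_⟩
  · simp only [Polynomial.eval_mul, Polynomial.eval_C, Polynomial.eval_add, Polynomial.eval_X,
      Polynomial.eval_one]
    rw [pow_one]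
    nlinarith
  · set b := c₀ + n₁ + 1 with hb
    have hlam := (tendsto_log.comp tendsto_log).eventually_ge_atTop (8 * b * (c + 1 + 16))
    have hev := (hg (1 / (16 * b)) (by positivity)).and_eventually
      (hlam.and (eventually_ge_atTop (max n₁ 16)))
    obtain ⟨m, hm1, hm2, hm3⟩ := hev.exists
    simp only [Function.comp] at hm2
    have hm4 : 16 ≤ m := le_trans (le_max_right _ _) hm3
    set lam := Nat.log 2 (Nat.log 2 m) with hlamd
    have hgm : g m ≤ 1 / (16 * b) * ((lam : ℝ) + 3) := by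
      refine hm1.trans ?_
      apply mul_le_mul_of_nonneg_left _ (by positivity)
      have := loglog_le (n := m) (by omega)
      rw [← hlamd] at this
      linarith
    have hR := levels_lt (lam := lam) (b := b) (c := c + 1) (by omega) hgm hm2
    set R := (lam - (c + 1)) / (2 * b) - 1 with hRd
    have hR1 : 1 ≤ R := by omega
    refine ⟨m, le_trans (le_max_left _ _) hm3, R, fun t => b * (R + t), ?_, ?_, fun t => ?_, hR, ?_⟩
    · show n₁ ≤ b * (R + 0)
      nlinarith
    · show R ≤ b * (R + 0)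
      nlinarith
    · show 1 * (b * (R + t)) + c₀ ≤ b * (R + (t + 1))
      nlinarith
    · show 2 ^ (Polynomial.C c * (Polynomial.X + 1)).eval (2 ^ (b * (R + R))) ≤ m
      have h1 : c + 1 + 2 * b * R ≤ lam := by
        have h2 : (lam - (c + 1)) / (2 * b) * (2 * b) ≤ lam - (c + 1) := Nat.div_mul_le_self _ _
        have h3 : R ≤ (lam - (c + 1)) / (2 * b) := by omega
        have h4 : 2 * b * R ≤ lam - (c + 1) := by nlinarith
        have h5 : c + 1 ≤ lam := by nlinarith
        omega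
      have h2 : (Polynomial.C c * (Polynomial.X + 1)).eval (2 ^ (b * (R + R))) ≤ Nat.log 2 m := by
        simp only [Polynomial.eval_mul, Polynomial.eval_C, Polynomial.eval_add, Polynomial.eval_X,
          Polynomial.eval_one]
        calc c * (2 ^ (b * (R + R)) + 1) ≤ 2 ^ c * 2 ^ (b * (R + R) + 1) := by
              apply Nat.mul_le_mul Nat.lt_two_pow_self.le
              rw [pow_succ]
              have := Nat.one_le_two_pow (n := b * (R + R))
              omega
          _ = 2 ^ (c + 1 + 2 * b * R) := by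
              rw [← pow_add]
              congr 1
              ring
          _ ≤ 2 ^ lam := Nat.pow_le_pow_right (by norm_num) h1
          _ ≤ Nat.log 2 m := Nat.pow_log_le_self 2 (by
              have : Nat.log 2 16 ≤ Nat.log 2 m := Nat.log_mono_right hm4
              have h16 : Nat.log 2 16 = 4 := by
                rw [show (16 : ℕ) = 2 ^ 4 by norm_num, Nat.log_pow (by norm_num)]
              omega)
      exact (Nat.pow_le_pow_right (by norm_num) h2).trans (Nat.pow_log_le_self 2 (by omega))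

/-- The lower bound for polynomial exponents. -/
theorem ae_far_NEXP {g : ℕ → ℝ}
    (hg : ∀ ε : ℝ, 0 < ε → ∃ᶠ n : ℕ in atTop,
      g n ≤ ε * Real.logb 2 (Real.logb 2 (Real.logb 2 n))) :
    ∀ᵐ O ∂randomOracle, ∀ A, Close g O A → ¬ InNTime Pol A (hit2 A)ᶜ := by
  refine ae_far_N good_Pol ?_
  intro r _
  obtain ⟨D, hD1, hD⟩ := YAux.poly_bound (2 * r + 2 * Polynomial.X + 2)
  have hDe : ∀ n, 2 * r.eval n + 2 * n + 2 ≤ 2 ^ D * (n + 1) ^ D := by
    intro n
    have h1 := hD n
    simp only [Polynomial.eval_add, Polynomial.eval_mul, Polynomial.eval_X,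
      Polynomial.eval_ofNat] at h1
    refine h1.trans ?_
    rw [← mul_pow]
    exact Nat.pow_le_pow_left (by omega) D
  refine ⟨D, 2 ^ D, hD1, hDe, fun c₀ n₁ => ?_⟩
  · set b := c₀ + n₁ + 4 * D + 1 with hb
    have hlam := (tendsto_log.comp (tendsto_log.comp tendsto_log)).eventually_ge_atTop
      (8 * b * (b + 16))
    have hev := (hg (1 / (16 * b)) (by positivity)).and_eventually
      (hlam.and (eventually_ge_atTop (max n₁ 16)))
    obtain ⟨m, hm1, hm2, hm3⟩ := hev.exists
    simp only [Function.comp] at hm2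
    have hm4 : 16 ≤ m := le_trans (le_max_right _ _) hm3
    set lam := Nat.log 2 (Nat.log 2 (Nat.log 2 m)) with hlamd
    have hgm : g m ≤ 1 / (16 * b) * ((lam : ℝ) + 3) := by
      refine hm1.trans ?_
      apply mul_le_mul_of_nonneg_left _ (by positivity)
      exact logloglog_le hm4
    have hR := levels_lt (lam := lam) (b := b) (c := b) (by omega) hgm hm2
    set R := (lam - b) / (2 * b) - 1 with hRd
    have hR1 : 1 ≤ R := by omega
    set B := 2 ^ b with hB
    have hbB : b < B := Nat.lt_two_pow_self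
    have hRB : R < B ^ R := Nat.lt_pow_self (by omega)
    have hBR : B ≤ B ^ R := Nat.le_self_pow (by omega) B
    refine ⟨m, le_trans (le_max_left _ _) hm3, R, fun t => B ^ (R + t), ?_, ?_, fun t => ?_, hR, ?_⟩
    · show n₁ ≤ B ^ (R + 0)
      rw [add_zero]
      omega
    · show R ≤ B ^ (R + 0)
      rw [add_zero]
      omega
    · show D * B ^ (R + t) + c₀ ≤ B ^ (R + (t + 1))
      have h1 : 1 ≤ B ^ (R + t) := Nat.one_le_pow _ _ (by omega)
      calc D * B ^ (R + t) + c₀ ≤ (D + c₀) * B ^ (R + t) := by nlinarith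
        _ ≤ B * B ^ (R + t) := Nat.mul_le_mul_right _ (by omega)
        _ = _ := by rw [← pow_succ']; congr 1
    · show 2 ^ r.eval (2 ^ (B ^ (R + R))) ≤ m
      have h1 : b * (2 * R + 1) ≤ lam := by
        have h2 : (lam - b) / (2 * b) * (2 * b) ≤ lam - b := Nat.div_mul_le_self _ _
        have h3 : R ≤ (lam - b) / (2 * b) := by omega
        have h4 : 2 * b * R ≤ lam - b := by nlinarith
        have h5 : b ≤ lam := by nlinarith
        have h6 : b * (2 * R + 1) = 2 * b * R + b := by ring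
        omega
      have hlog1 : 4 ≤ Nat.log 2 m := by
        have : Nat.log 2 16 ≤ Nat.log 2 m := Nat.log_mono_right hm4
        have h16 : Nat.log 2 16 = 4 := by
          rw [show (16 : ℕ) = 2 ^ 4 by norm_num, Nat.log_pow (by norm_num)]
        omega
      have hlog2 : 2 ≤ Nat.log 2 (Nat.log 2 m) := by
        have : Nat.log 2 4 ≤ Nat.log 2 (Nat.log 2 m) := Nat.log_mono_right hlog1
        have h16 : Nat.log 2 4 = 2 := by
          rw [show (4 : ℕ) = 2 ^ 2 by norm_num, Nat.log_pow (by norm_num)]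
        omega
      have h2 : B ^ (2 * R + 1) ≤ Nat.log 2 (Nat.log 2 m) := by
        calc B ^ (2 * R + 1) = 2 ^ (b * (2 * R + 1)) := by rw [hB, ← pow_mul]
          _ ≤ 2 ^ lam := Nat.pow_le_pow_right (by norm_num) h1
          _ ≤ _ := Nat.pow_log_le_self 2 (by omega)
      have h3 : 2 ^ B ^ (2 * R + 1) ≤ Nat.log 2 m :=
        (Nat.pow_le_pow_right (by norm_num) h2).trans (Nat.pow_log_le_self 2 (by omega))
      have h4 : r.eval (2 ^ (B ^ (R + R))) ≤ Nat.log 2 m := by
        refine le_trans ?_ h3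
        have h5 := hDe (2 ^ (B ^ (R + R)))
        have h6 : 2 ^ D * (2 ^ (B ^ (R + R)) + 1) ^ D ≤ 2 ^ (D + (B ^ (R + R) + 1) * D) := by
          rw [pow_add 2 D, pow_mul 2 (B ^ (R + R) + 1)]
          apply Nat.mul_le_mul_left
          apply Nat.pow_le_pow_left
          rw [pow_succ]
          have := Nat.one_le_two_pow (n := B ^ (R + R))
          omega
        have h7 : D + (B ^ (R + R) + 1) * D ≤ B ^ (2 * R + 1) := by
          have h8 : 1 ≤ B ^ (R + R) := Nat.one_le_pow _ _ (by omega)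
          have h9 : B ^ (2 * R + 1) = B * B ^ (R + R) := by
            rw [← pow_succ']; congr 1; ring
          rw [h9]
          nlinarith
        have h10 : r.eval (2 ^ (B ^ (R + R))) ≤ 2 * r.eval (2 ^ (B ^ (R + R))) + 2 * 2 ^ (B ^ (R + R)) + 2 := by
          omega
        exact h10.trans (h5.trans (h6.trans (Nat.pow_le_pow_right (by norm_num) h7)))
      exact (Nat.pow_le_pow_right (by norm_num) h4).trans (Nat.pow_log_le_self 2 (by omega))

end Pool.Agent.TH771.CX
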