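import Pool.Agent.H620R2.GaugeX.NonNullX
import Pool.Agent.W900.CH.NELev

/-!
# Changing few strings of any oracle puts nondeterministic exponential time into `BPP`
-/

set_option autoImplicit false

namespace Pool.Agent.TH771.CX

open MeasureTheory Filter Pool.Agent.NPC
open Pool.Agent.H628R3.RO (randomOracle)
open Pool.Agent.H620R2.Gauge Pool.Agent.H622R2.Exp Pool.Agent.W900.CH

/-- Every oracle can be changed at few strings such that `NEXP` is contained in `BPP`. -/
theorem exists_close_NX {g : ℕ → ℝ} {ε : ℝ} (hε : 0 < ε)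
    (hg : ∀ᶠ n : ℕ in atTop, 2 ^ (n : ℝ) ^ ε < g n) (O : Oracle) :
    ∃ A, Close g O A ∧ ∀ L, IsNEXP A L → IsBPP A L := by
  classical
  have hcount := Pool.Agent.H620R2.Gauge.CC.poly_countable
  obtain ⟨al, hal⟩ := exists_alg
  have h2 : Countable Alg := inferInstance
  have h3 : Nonempty (Alg × Polynomial ℕ) := ⟨(al 0, 0)⟩
  obtain ⟨u, hu⟩ := exists_surjective_nat (Alg × Polynomial ℕ)
  choose rd hrd using fun (M : Alg) (q : Polynomial ℕ) => nexp_local M q
  obtain ⟨K, hK'⟩ := Pool.Agent.W900.CH.exists_K hε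
  set R : ℕ → Polynomial ℕ := fun e => (Polynomial.X + Polynomial.C (e + 1)) ^ K with hR
  have hRe : ∀ e n, (n + e + 1) ^ K ≤ (R e).eval n := by
    intro e n
    rw [hR]
    simp only [Polynomial.eval_pow, Polynomial.eval_add, Polynomial.eval_X, Polynomial.eval_C]
    rw [add_assoc]
  set p : ℕ → Polynomial ℕ := fun e => rd (u e).1 (u e).2 with hp
  set Q : ℕ → List Bool → Oracle → Prop := fun e x A =>
    ∃ w : List Bool, w.length = 2 ^ (u e).2.eval x.length ∧
      (u e).1.out A (pairBits w x) = some [true] with hQ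
  obtain ⟨Φ, hΦ⟩ := exists_stageN R p Q (fun e x A => hrd (u e).1 (u e).2 x A)
  refine ⟨Φ O, close_of_code hε hg hK' hRe (hΦ O).1, ?_⟩
  rintro L ⟨V, q, ⟨M, hM⟩, hV⟩
  obtain ⟨e, he⟩ := hu (M, q)
  have h4 := isBPP_of_code R p (Φ O) e {x | Q e x (Φ O)} (fun x => (hΦ O).2 e x)
  have h5 : L = {x | Q e x (Φ O)} := by
    ext x
    rw [hV x, Set.mem_ofPred_eq, hQ]
    simp only [he, hM, Option.some.injEq]
  rw [h5]
  exact h4

end Pool.Agent.TH771.CX
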