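import Mathlib

/-!
# The satisfiability coding lemma and changes of few bits

`ppz` is an abstract form of the satisfiability coding lemma of Paturi, Pudlák and Zane.
-/

set_option autoImplicit false

namespace Pool.Agent.TH771.CX

open Finset

variable {I : Type*} [Fintype I] [DecidableEq I]

/-- The exponent for the free variables `U`. -/
noncomputable def ex (S : (I → Bool) → Finset I) (C : (I → Bool) → I → Finset I) (U : Finset I)
    (A : I → Bool) : ℝ := ∑ z ∈ S A ∩ U, (1 : ℝ) / ((C A z ∩ U).card : ℝ)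

theorem ex_avg (S : (I → Bool) → Finset I) (C : (I → Bool) → I → Finset I) (U : Finset I)
    (A : I → Bool) (hz : ∀ z ∈ S A, z ∈ C A z) (h2 : ∀ z ∈ S A ∩ U, 2 ≤ (C A z ∩ U).card) :
    ∑ i ∈ U, ex S C (U.erase i) A = U.card * ex S C U A := by
  unfold ex
  have h1 : ∀ i ∈ U, ∑ z ∈ S A ∩ U.erase i, (1 : ℝ) / ((C A z ∩ U.erase i).card : ℝ) =
      ∑ z ∈ S A ∩ U, if z = i then 0 else (1 : ℝ) / ((C A z ∩ U.erase i).card : ℝ) := by
    intro i hi
    rw [← Finset.sum_filter_add_sum_filter_not (S A ∩ U) (fun z => z = i)]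
    rw [Finset.sum_eq_zero (s := (S A ∩ U).filter (fun z => z = i)), zero_add]
    · have e : (S A ∩ U).filter (fun z => ¬ z = i) = S A ∩ U.erase i := by
        ext z
        simp only [Finset.mem_filter, Finset.mem_inter, Finset.mem_erase]
        tauto
      rw [e]
      refine Finset.sum_congr rfl fun z hz => ?_
      rw [if_neg]
      simp only [Finset.mem_inter, Finset.mem_erase] at hz
      exact hz.2.1
    · intro z hz
      rw [Finset.mem_filter] at hz
      rw [if_pos hz.2]
  rw [Finset.sum_congr rfl h1, Finset.sum_comm, Finset.mul_sum]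
  refine Finset.sum_congr rfl fun z hzS => ?_
  have hzU : z ∈ U := (Finset.mem_inter.1 hzS).2
  have hzC : z ∈ C A z ∩ U := Finset.mem_inter.2 ⟨hz z (Finset.mem_inter.1 hzS).1, hzU⟩
  have hc := h2 z hzS
  set D := C A z ∩ U with hD
  have hDU : D ⊆ U := Finset.inter_subset_right
  -- split
  have h3 : ∀ i ∈ U, (if z = i then (0 : ℝ) else 1 / ((C A z ∩ U.erase i).card : ℝ)) =
      (if i ∈ D.erase z then (1 : ℝ) / ((D.card : ℝ) - 1) else 0) +
        (if i ∈ U \ D then (1 : ℝ) / (D.card : ℝ) else 0) := by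
    intro i hi
    have e : C A z ∩ U.erase i = D.erase i := by
      ext j
      simp only [hD, Finset.mem_inter, Finset.mem_erase]
      tauto
    rw [e]
    by_cases hiz : z = i
    · subst hiz
      simp [hzC]
    · rw [if_neg hiz]
      by_cases hiD : i ∈ D
      · rw [if_pos (Finset.mem_erase.2 ⟨fun h => hiz h.symm, hiD⟩), if_neg (by simp [hiD]),
          add_zero, Finset.card_erase_of_mem hiD, Nat.cast_sub (by omega)]
        simp
      · rw [if_neg (by simp [hiD]), if_pos (by simp [hiD, hi]), zero_add,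
          Finset.erase_eq_of_notMem hiD]
  rw [Finset.sum_congr rfl h3, Finset.sum_add_distrib]
  have hsub : D.erase z ⊆ U := (Finset.erase_subset _ _).trans hDU
  rw [← Finset.sum_filter, ← Finset.sum_filter]
  have e1 : U.filter (fun i => i ∈ D.erase z) = D.erase z := by
    ext j
    rw [Finset.mem_filter]
    exact ⟨fun h => h.2, fun h => ⟨hsub h, h⟩⟩
  have e2 : U.filter (fun i => i ∈ U \ D) = U \ D := by
    ext j
    rw [Finset.mem_filter]
    exact ⟨fun h => h.2, fun h => ⟨(Finset.mem_sdiff.1 h).1, h⟩⟩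
  rw [e1, e2, Finset.sum_const, Finset.sum_const, nsmul_eq_mul, nsmul_eq_mul,
    Finset.card_erase_of_mem hzC, Finset.card_sdiff_of_subset hDU, Nat.cast_sub (by omega),
    Nat.cast_sub (Finset.card_le_card hDU)]
  have hcR : (2 : ℝ) ≤ D.card := by exact_mod_cast hc
  have h5 : (D.card : ℝ) - 1 ≠ 0 := by linarith
  have h6 : (D.card : ℝ) ≠ 0 := by linarith
  field_simp
  push_cast
  ring

theorem ppz_aux (E : Finset (I → Bool)) (F : Finset I) (S : (I → Bool) → Finset I)
    (C : (I → Bool) → I → Finset I) (hz : ∀ A ∈ E, ∀ z ∈ S A, z ∈ C A z)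
    (hC : ∀ A ∈ E, ∀ z ∈ S A, ∀ A' ∈ E, (∀ i ∈ F, A' i = A i) →
      (∀ i ∈ C A z, i ≠ z → A' i = A i) → A' z = A z)
    (n : ℕ) : ∀ (U : Finset I) (ρ : I → Bool), Disjoint F U → U.card = n →
    ∑ A ∈ E.filter (fun A => ∀ i ∉ U, A i = ρ i), (2 : ℝ) ^ ex S C U A ≤ 2 ^ n := by
  induction n with
  | zero =>
    intro U ρ _ hU
    rw [Finset.card_eq_zero] at hU
    subst hU
    have h1 : E.filter (fun A => ∀ i ∉ (∅ : Finset I), A i = ρ i) ⊆ {ρ} := by
      intro A hA
      rw [Finset.mem_filter] at hA
      rw [Finset.mem_singleton]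
      funext i
      exact hA.2 i (by simp)
    refine (Finset.sum_le_sum_of_subset_of_nonneg h1 fun _ _ _ => by positivity).trans ?_
    rw [Finset.sum_singleton]
    unfold ex
    simp
  | succ n ih =>
    intro U ρ hFU hU
    have hFn : ∀ i ∈ F, i ∉ U := fun i hi => Finset.disjoint_left.1 hFU hi
    have hFe : ∀ i, Disjoint F (U.erase i) := fun i =>
      Disjoint.mono_right (Finset.erase_subset _ _) hFU
    by_cases hcase : ∃ A ∈ E.filter (fun A => ∀ i ∉ U, A i = ρ i), ∃ z ∈ S A ∩ U,
        (C A z ∩ U).card < 2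
    · obtain ⟨A₀, hA₀, z, hzS, hzc⟩ := hcase
      rw [Finset.mem_filter] at hA₀
      have hzU : z ∈ U := (Finset.mem_inter.1 hzS).2
      have hzS' : z ∈ S A₀ := (Finset.mem_inter.1 hzS).1
      have hzC : z ∈ C A₀ z ∩ U := Finset.mem_inter.2 ⟨hz A₀ hA₀.1 z hzS', hzU⟩
      have hsing : C A₀ z ∩ U = {z} := by
        have h1 : (C A₀ z ∩ U).card = 1 := by
          have := Finset.card_pos.2 ⟨z, hzC⟩
          omega
        obtain ⟨y, hy⟩ := Finset.card_eq_one.1 h1
        rw [hy] at hzC ⊢
        rw [Finset.mem_singleton.1 hzC]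
      have hval : ∀ A ∈ E.filter (fun A => ∀ i ∉ U, A i = ρ i), A z = A₀ z := by
        intro A hA
        rw [Finset.mem_filter] at hA
        refine hC A₀ hA₀.1 z hzS' A hA.1 (fun i hi => by
          rw [hA.2 i (hFn i hi), hA₀.2 i (hFn i hi)]) fun i hi hiz => ?_
        have hiU : i ∉ U := by
          intro h
          have : i ∈ C A₀ z ∩ U := Finset.mem_inter.2 ⟨hi, h⟩
          rw [hsing, Finset.mem_singleton] at this
          exact hiz this
        rw [hA.2 i hiU, hA₀.2 i hiU]
      have hsub : E.filter (fun A => ∀ i ∉ U, A i = ρ i) ⊆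
          E.filter (fun A => ∀ i ∉ U.erase z, A i = A₀ i) := by
        intro A hA
        have h1 := hval A hA
        rw [Finset.mem_filter] at hA ⊢
        refine ⟨hA.1, fun i hi => ?_⟩
        by_cases hiz : i = z
        · rw [hiz, h1]
        · have hiU : i ∉ U := fun h => hi (Finset.mem_erase.2 ⟨hiz, h⟩)
          rw [hA.2 i hiU, hA₀.2 i hiU]
      have hexp : ∀ A ∈ E.filter (fun A => ∀ i ∉ U, A i = ρ i),
          ex S C U A ≤ 1 + ex S C (U.erase z) A := by
        intro A hA
        rw [Finset.mem_filter] at hA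
        unfold ex
        have h1 : S A ∩ U ⊆ insert z (S A ∩ U.erase z) := by
          intro y hy
          rw [Finset.mem_inter] at hy
          rw [Finset.mem_insert, Finset.mem_inter, Finset.mem_erase]
          by_cases h : y = z
          · exact Or.inl h
          · exact Or.inr ⟨hy.1, h, hy.2⟩
        have hnot : z ∉ S A ∩ U.erase z := by simp
        calc ∑ y ∈ S A ∩ U, (1 : ℝ) / ((C A y ∩ U).card : ℝ)
            ≤ ∑ y ∈ insert z (S A ∩ U.erase z), (1 : ℝ) / ((C A y ∩ U).card : ℝ) :=
              Finset.sum_le_sum_of_subset_of_nonneg h1 fun _ _ _ => by positivity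
          _ = (1 : ℝ) / ((C A z ∩ U).card : ℝ) +
              ∑ y ∈ S A ∩ U.erase z, (1 : ℝ) / ((C A y ∩ U).card : ℝ) :=
              Finset.sum_insert hnot
          _ ≤ 1 + ∑ y ∈ S A ∩ U.erase z, (1 : ℝ) / ((C A y ∩ U.erase z).card : ℝ) := by
              apply add_le_add
              · rcases Nat.eq_zero_or_pos (C A z ∩ U).card with h | h
                · rw [h]; simp
                · rw [div_le_one (by exact_mod_cast h)]
                  exact_mod_cast h
              · refine Finset.sum_le_sum fun y hy => ?_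
                rw [Finset.mem_inter] at hy
                have hyC : y ∈ C A y ∩ U.erase z :=
                  Finset.mem_inter.2 ⟨hz A hA.1 y hy.1, hy.2⟩
                have h3 : 0 < (C A y ∩ U.erase z).card := Finset.card_pos.2 ⟨y, hyC⟩
                apply one_div_le_one_div_of_le (by exact_mod_cast h3)
                have : (C A y ∩ U.erase z).card ≤ (C A y ∩ U).card :=
                  Finset.card_le_card (Finset.inter_subset_inter_left (Finset.erase_subset _ _))
                exact_mod_cast this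
      have hcard : (U.erase z).card = n := by
        rw [Finset.card_erase_of_mem hzU, hU]
        rfl
      calc ∑ A ∈ E.filter (fun A => ∀ i ∉ U, A i = ρ i), (2 : ℝ) ^ ex S C U A
          ≤ ∑ A ∈ E.filter (fun A => ∀ i ∉ U, A i = ρ i), 2 * (2 : ℝ) ^ ex S C (U.erase z) A := by
            refine Finset.sum_le_sum fun A hA => ?_
            calc (2 : ℝ) ^ ex S C U A ≤ 2 ^ (1 + ex S C (U.erase z) A) :=
                  Real.rpow_le_rpow_of_exponent_le (by norm_num) (hexp A hA)
              _ = 2 * (2 : ℝ) ^ ex S C (U.erase z) A := by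
                  rw [Real.rpow_add (by norm_num), Real.rpow_one]
        _ ≤ ∑ A ∈ E.filter (fun A => ∀ i ∉ U.erase z, A i = A₀ i),
              2 * (2 : ℝ) ^ ex S C (U.erase z) A :=
            Finset.sum_le_sum_of_subset_of_nonneg hsub fun _ _ _ => by positivity
        _ = 2 * ∑ A ∈ E.filter (fun A => ∀ i ∉ U.erase z, A i = A₀ i),
              (2 : ℝ) ^ ex S C (U.erase z) A := by rw [Finset.mul_sum]
        _ ≤ 2 * 2 ^ n := mul_le_mul_of_nonneg_left (ih _ A₀ (hFe z) hcard) (by norm_num)
        _ = 2 ^ (n + 1) := by rw [pow_succ]; ring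
    · push Not at hcase
      have hUpos : (0 : ℝ) < U.card := by rw [hU]; positivity
      have hne : U.Nonempty := by
        rw [← Finset.card_pos]; omega
      -- Jensen
      have hJ : ∀ A ∈ E.filter (fun A => ∀ i ∉ U, A i = ρ i),
          (2 : ℝ) ^ ex S C U A ≤ ∑ i ∈ U, (1 / U.card : ℝ) * (2 : ℝ) ^ ex S C (U.erase i) A := by
        intro A hA
        have hA' := (Finset.mem_filter.1 hA).1
        have h1 := ex_avg S C U A (fun z h => hz A hA' z h) (fun z h => hcase A hA z h)
        have h2 : ex S C U A = ∑ i ∈ U, (1 / U.card : ℝ) * ex S C (U.erase i) A := by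
          rw [← Finset.mul_sum, h1]
          field_simp
        have h3 := (convexOn_exp).map_sum_le (t := U) (w := fun _ => (1 / U.card : ℝ))
          (p := fun i => Real.log 2 * ex S C (U.erase i) A) (fun i _ => by positivity)
          (by rw [Finset.sum_const, nsmul_eq_mul]; field_simp) (fun i _ => Set.mem_univ _)
        simp only [smul_eq_mul] at h3
        have h4 : ∑ i ∈ U, (1 / U.card : ℝ) * (Real.log 2 * ex S C (U.erase i) A) =
            Real.log 2 * ex S C U A := by
          rw [h2, Finset.mul_sum]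
          refine Finset.sum_congr rfl fun i _ => ?_
          ring
        rw [h4] at h3
        rw [Real.rpow_def_of_pos (by norm_num)]
        refine h3.trans (le_of_eq ?_)
        refine Finset.sum_congr rfl fun i _ => ?_
        rw [Real.rpow_def_of_pos (by norm_num)]
      have hsplit : ∀ i ∈ U, ∑ A ∈ E.filter (fun A => ∀ j ∉ U, A j = ρ j),
          (2 : ℝ) ^ ex S C (U.erase i) A ≤ 2 * 2 ^ n := by
        intro i hi
        have hcard : (U.erase i).card = n := by
          rw [Finset.card_erase_of_mem hi, hU]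
          rfl
        have hb : ∀ b : Bool, ∑ A ∈ (E.filter (fun A => ∀ j ∉ U, A j = ρ j)).filter
            (fun A => A i = b), (2 : ℝ) ^ ex S C (U.erase i) A ≤ 2 ^ n := by
          intro b
          refine le_trans ?_ (ih (U.erase i) (Function.update ρ i b) (hFe i) hcard)
          refine Finset.sum_le_sum_of_subset_of_nonneg ?_ fun _ _ _ => by positivity
          intro A hA
          rw [Finset.mem_filter, Finset.mem_filter] at hA
          rw [Finset.mem_filter]
          refine ⟨hA.1.1, fun j hj => ?_⟩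
          by_cases hji : j = i
          · rw [hji, Function.update_self, hA.2]
          · rw [Function.update_of_ne hji]
            exact hA.1.2 j fun h => hj (Finset.mem_erase.2 ⟨hji, h⟩)
        have h5 := Finset.sum_filter_add_sum_filter_not
          (E.filter (fun A => ∀ j ∉ U, A j = ρ j)) (fun A => A i = true)
          (fun A => (2 : ℝ) ^ ex S C (U.erase i) A)
        have h6 : (E.filter (fun A => ∀ j ∉ U, A j = ρ j)).filter (fun A => ¬ A i = true) =
            (E.filter (fun A => ∀ j ∉ U, A j = ρ j)).filter (fun A => A i = false) := by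
          refine Finset.filter_congr fun A _ => ?_
          simp
        rw [h6] at h5
        rw [← h5]
        have := hb true
        have := hb false
        linarith
      calc ∑ A ∈ E.filter (fun A => ∀ i ∉ U, A i = ρ i), (2 : ℝ) ^ ex S C U A
          ≤ ∑ A ∈ E.filter (fun A => ∀ i ∉ U, A i = ρ i),
              ∑ i ∈ U, (1 / U.card : ℝ) * (2 : ℝ) ^ ex S C (U.erase i) A :=
            Finset.sum_le_sum hJ
        _ = ∑ i ∈ U, (1 / U.card : ℝ) * ∑ A ∈ E.filter (fun A => ∀ i ∉ U, A i = ρ i),
              (2 : ℝ) ^ ex S C (U.erase i) A := by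
            rw [Finset.sum_comm]
            refine Finset.sum_congr rfl fun i _ => ?_
            rw [Finset.mul_sum]
        _ ≤ ∑ i ∈ U, (1 / U.card : ℝ) * (2 * 2 ^ n) :=
            Finset.sum_le_sum fun i hi =>
              mul_le_mul_of_nonneg_left (hsplit i hi) (by positivity)
        _ = 2 ^ (n + 1) := by
            rw [Finset.sum_const, nsmul_eq_mul, pow_succ]
            field_simp

/-- The satisfiability coding lemma, for the members of `E` in a subcube: the bits in `F` are
fixed, and in every member `A` of `E` the bits `z ∈ S A` are determined (among the members of `E`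
with the same bits in `F`) by the bits in `C A z` other than `z`, a set of at most `w` bits. -/
theorem ppz_fiber (E : Finset (I → Bool)) (F : Finset I) (S : (I → Bool) → Finset I)
    (hSF : ∀ A ∈ E, ∀ z ∈ S A, z ∉ F)
    (C : (I → Bool) → I → Finset I) (w : ℕ) (hw : ∀ A ∈ E, ∀ z ∈ S A, (C A z).card ≤ w)
    (hz : ∀ A ∈ E, ∀ z ∈ S A, z ∈ C A z)
    (hC : ∀ A ∈ E, ∀ z ∈ S A, ∀ A' ∈ E, (∀ i ∈ F, A' i = A i) →
      (∀ i ∈ C A z, i ≠ z → A' i = A i) → A' z = A z) (ρ : I → Bool) :
    ∑ A ∈ E.filter (fun A => ∀ i ∈ F, A i = ρ i), (2 : ℝ) ^ (((S A).card : ℝ) / w) ≤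
      2 ^ (Finset.univ \ F).card := by
  have h := ppz_aux E F S C hz hC (Finset.univ \ F).card (Finset.univ \ F) ρ
    Finset.disjoint_sdiff rfl
  have e : E.filter (fun A => ∀ i ∉ (Finset.univ \ F : Finset I), A i = ρ i) =
      E.filter (fun A => ∀ i ∈ F, A i = ρ i) := by
    refine Finset.filter_congr fun A _ => ?_
    simp
  rw [e] at h
  refine le_trans (Finset.sum_le_sum fun A hA => ?_) h
  rw [Finset.mem_filter] at hA
  have hA := hA.1
  apply Real.rpow_le_rpow_of_exponent_le (by norm_num)
  unfold ex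
  have e2 : S A ∩ (Finset.univ \ F) = S A := by
    ext z
    simp only [Finset.mem_inter, Finset.mem_sdiff, Finset.mem_univ, true_and]
    exact ⟨fun h => h.1, fun h => ⟨h, hSF A hA z h⟩⟩
  rw [e2]
  have h1 : ∀ z ∈ S A, (1 : ℝ) / w ≤ 1 / ((C A z ∩ (Finset.univ \ F)).card : ℝ) := by
    intro z hzS
    have hmem : z ∈ C A z ∩ (Finset.univ \ F) := by
      simp only [Finset.mem_inter, Finset.mem_sdiff, Finset.mem_univ, true_and]
      exact ⟨hz A hA z hzS, hSF A hA z hzS⟩
    have h3 : 0 < (C A z ∩ (Finset.univ \ F)).card := Finset.card_pos.2 ⟨z, hmem⟩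
    apply one_div_le_one_div_of_le (by exact_mod_cast h3)
    have := (Finset.card_le_card (Finset.inter_subset_left (s₁ := C A z)
      (s₂ := Finset.univ \ F))).trans (hw A hA z hzS)
    exact_mod_cast this
  calc ((S A).card : ℝ) / w = ∑ z ∈ S A, (1 : ℝ) / w := by
        rw [Finset.sum_const, nsmul_eq_mul]
        ring
    _ ≤ _ := Finset.sum_le_sum h1

/-- The satisfiability coding lemma: if in every member `A` of `E` the bits `z ∈ S A` are
determined (among the members of `E` with the same bits in `F`) by the bits in `C A z` other than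
`z`, a set of at most `w` bits, then the sum of `2 ^ (|S A| / w)` over `E` is at most the number of
all points. -/
theorem ppz (E : Finset (I → Bool)) (F : Finset I) (S : (I → Bool) → Finset I)
    (hSF : ∀ A ∈ E, ∀ z ∈ S A, z ∉ F)
    (C : (I → Bool) → I → Finset I) (w : ℕ) (hw : ∀ A ∈ E, ∀ z ∈ S A, (C A z).card ≤ w)
    (hz : ∀ A ∈ E, ∀ z ∈ S A, z ∈ C A z)
    (hC : ∀ A ∈ E, ∀ z ∈ S A, ∀ A' ∈ E, (∀ i ∈ F, A' i = A i) →
      (∀ i ∈ C A z, i ≠ z → A' i = A i) → A' z = A z) :
    ∑ A ∈ E, (2 : ℝ) ^ (((S A).card : ℝ) / w) ≤ 2 ^ Fintype.card I := by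
  classical
  set r : (I → Bool) → (I → Bool) := fun A i => if i ∈ F then A i else false with hr
  set R : Finset (I → Bool) := Finset.univ.filter (fun f => ∀ i ∉ F, f i = false) with hR
  have hmap : ∀ A ∈ E, r A ∈ R := by
    intro A _
    rw [hR, Finset.mem_filter]
    refine ⟨Finset.mem_univ _, fun i hi => ?_⟩
    rw [hr]
    simp [hi]
  rw [← Finset.sum_fiberwise_of_maps_to hmap]
  have hRcard : R.card ≤ 2 ^ F.card := by
    have h1 : R.card ≤ (Finset.univ : Finset (F → Bool)).card := by
      apply Finset.card_le_card_of_injOn (fun f i => f i.1) (fun _ _ => Finset.mem_univ _)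
      intro f hf g hg hfg
      rw [hR, Finset.coe_filter] at hf hg
      funext i
      by_cases hi : i ∈ F
      · exact congrFun hfg ⟨i, hi⟩
      · rw [hf.2 i hi, hg.2 i hi]
    rw [Finset.card_univ, Fintype.card_fun, Fintype.card_bool, Fintype.card_coe] at h1
    exact h1
  have hsum : ∀ ρ ∈ R, ∑ A ∈ E.filter (fun A => r A = ρ), (2 : ℝ) ^ (((S A).card : ℝ) / w) ≤
      2 ^ (Finset.univ \ F).card := by
    intro ρ hρ
    rw [hR, Finset.mem_filter] at hρ
    have e : E.filter (fun A => r A = ρ) = E.filter (fun A => ∀ i ∈ F, A i = ρ i) := by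
      refine Finset.filter_congr fun A _ => ?_
      constructor
      · intro h i hi
        rw [← h, hr]
        simp [hi]
      · intro h
        funext i
        rw [hr]
        by_cases hi : i ∈ F
        · simp [hi, h i hi]
        · simp [hi, hρ.2 i hi]
    rw [e]
    exact ppz_fiber E F S hSF C w hw hz hC ρ
  calc ∑ ρ ∈ R, ∑ A ∈ E.filter (fun A => r A = ρ), (2 : ℝ) ^ (((S A).card : ℝ) / w)
      ≤ ∑ ρ ∈ R, (2 : ℝ) ^ (Finset.univ \ F).card := Finset.sum_le_sum hsum
    _ = R.card * 2 ^ (Finset.univ \ F).card := by rw [Finset.sum_const, nsmul_eq_mul]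
    _ ≤ 2 ^ F.card * 2 ^ (Finset.univ \ F).card := by
        apply mul_le_mul_of_nonneg_right _ (by positivity)
        exact_mod_cast hRcard
    _ = 2 ^ Fintype.card I := by
        rw [← pow_add, Finset.card_sdiff_of_subset (Finset.subset_univ _), Finset.card_univ]
        congr 1
        have := Finset.card_le_univ F
        omega

end Pool.Agent.TH771.CX
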