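import Pool.Agent.H622R2.Exp.C3
import Pool.Agent.H622R2.Exp.KAux
import Pool.Agent.H622R2.Exp.M3

/-!
# Coding a number into many strings with one change

The digit number `i` of the code word `l` is the parity of the number of the positions `j` with
`l j = true` whose binary digit number `i` is `1`. Every number with `b` digits can be written
into every word of length at least `2 ^ b` with one change.
-/

set_option autoImplicit false

namespace Pool.Agent.TH771.CX

open Pool.Agent.NPC Pool.Agent.H620R2.Gauge Pool.Agent.H622R2.Exp

/-- digit number `i` of the number coded by the word `l` -/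
def dg (l : List Bool) (i : ℕ) : Bool :=
  decide (((List.range l.length).filter
    fun j => l.getD j false && (Nat.bits j).getD i false).length % 2 = 1)

/-- the first `b` digits -/
def dgs (b : ℕ) (l : List Bool) : List Bool := (List.range b).map fun i => dg l i

theorem bits_getD (j i : ℕ) : (Nat.bits j).getD i false = j.testBit i := by
  rw [Nat.testBit_eq_inth, List.getI_eq_getElem?_getD, List.getD_eq_getElem?_getD]
  rfl

theorem parity_flip (p p' : ℕ → Bool) (j₀ : ℕ) (c : Bool) (n : ℕ)
    (h : ∀ j < n, p' j = (p j ^^ (decide (j = j₀) && c))) :
    decide (((List.range n).filter p').length % 2 = 1) =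
      (decide (((List.range n).filter p).length % 2 = 1) ^^ (decide (j₀ < n) && c)) := by
  induction n with
  | zero => simp
  | succ n ih =>
    have ih' := ih fun j hj => h j (by omega)
    rw [List.range_succ, List.filter_append, List.filter_append, List.length_append,
      List.length_append]
    have h1 := h n (by omega)
    generalize ((List.range n).filter p').length = a' at *
    generalize ((List.range n).filter p).length = a at *
    have hs : ∀ (f : ℕ → Bool) (u : ℕ), decide ((u + ([n].filter f).length) % 2 = 1) =
        (decide (u % 2 = 1) ^^ f n) := by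
      intro f u
      by_cases hf : f n = true
      · rw [List.filter_cons_of_pos hf, hf]
        rw [Bool.eq_iff_iff]
        simp
        omega
      · rw [List.filter_cons_of_neg hf]
        rw [Bool.not_eq_true] at hf
        rw [hf]
        simp
    rw [hs, hs, ih', h1]
    by_cases hj : n = j₀
    · subst hj
      have h3 : decide (n < n) = false := by simp
      have h4 : decide (n < n + 1) = true := by simp
      have h5 : decide (n = n) = true := by simp
      rw [h3, h4, h5]
      cases decide (a % 2 = 1) <;> cases p n <;> cases c <;> rfl
    · have h3 : decide (n = j₀) = false := by simp [hj]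
      have h4 : decide (j₀ < n + 1) = decide (j₀ < n) := by
        rw [Bool.eq_iff_iff]
        simp only [decide_eq_true_eq]
        omega
      rw [h3, h4]
      cases decide (a % 2 = 1) <;> cases p n <;> cases c <;> cases decide (j₀ < n) <;> rfl

theorem dg_flip {l l' : List Bool} {j₀ : ℕ} (hlen : l'.length = l.length) (hj : j₀ < l.length)
    (h : ∀ j < l.length, l'.getD j false = (l.getD j false ^^ decide (j = j₀))) (i : ℕ) :
    dg l' i = (dg l i ^^ j₀.testBit i) := by
  unfold dg
  rw [hlen]
  rw [parity_flip (fun j => l.getD j false && (Nat.bits j).getD i false) _ j₀ (j₀.testBit i)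
    l.length]
  · have : decide (j₀ < l.length) = true := by simp [hj]
    rw [this]
    simp
  · intro j hj'
    rw [h j hj', bits_getD]
    by_cases hjj : j = j₀
    · subst hjj
      simp only [decide_true, Bool.true_and]
      cases l.getD j false <;> cases j.testBit i <;> rfl
    · simp only [hjj, decide_false, Bool.false_and, Bool.xor_false]

/-- the position of the change -/
def jst (l : List Bool) (b c : ℕ) : ℕ := Nat.ofBits fun i : Fin b => dg l i ^^ c.testBit i

theorem jst_lt (l : List Bool) (b c : ℕ) : jst l b c < 2 ^ b := Nat.ofBits_lt_two_pow _

theorem dg_jst {l l' : List Bool} {b c : ℕ} (hlen : l'.length = l.length) (hb : 2 ^ b ≤ l.length)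
    (h : ∀ j < l.length, l'.getD j false = (l.getD j false ^^ decide (j = jst l b c)))
    {i : ℕ} (hi : i < b) : dg l' i = c.testBit i := by
  rw [dg_flip hlen (lt_of_lt_of_le (jst_lt l b c) hb) h]
  unfold jst
  rw [Nat.testBit_ofBits_lt _ _ hi]
  cases dg l i <;> cases c.testBit i <;> rfl

theorem length_cqs (e k n : ℕ) (pd : List Bool) : (cqs e k n pd).length = n := by
  simp [cqs]

theorem getD_cqs (A : Oracle) (r : Polynomial ℕ) (sc : ℕ → ℕ) (e k n j : ℕ) (hj : j < n) :
    ((cqs e k n (List.replicate (2 ^ r.eval (sc k)) true)).map A).getD j false =
      A (codeC r sc e k j) := by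
  rw [List.getD_eq_getElem?_getD, List.getElem?_map]
  unfold cqs
  rw [List.getElem?_map, List.getElem?_range hj]
  rfl

end Pool.Agent.TH771.CX
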