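import Pool.Agent.TH771.CX.Synd2

/-!
# Every oracle can be changed at one string for every language and every scale such that the
syndromes are the census numbers
-/

set_option autoImplicit false

namespace Pool.Agent.TH771.CX

open Pool.Agent.NPC Pool.Agent.H620R2.Gauge Pool.Agent.H622R2.Exp

open C3 in
theorem exists_synd {E : Set (Polynomial ℕ)} (hE : Good E) (sc : ℕ → ℕ → ℕ) :
    ∃ r : ℕ → Polynomial ℕ, (∀ e, r e ∈ E) ∧ (∀ e n, n + 1 ≤ (r e).eval n) ∧
      ∀ O : Oracle, ∃ (A : Oracle) (J : ℕ → ℕ → ℕ),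
        (∀ y, A y ≠ O y → ∃ e k, y = codeC (r e) (sc e) e k (J e k)) ∧
        ∀ L, InNTime E A L → ∃ (e : ℕ) (V : List Bool → List Bool) (q : Polynomial ℕ),
          IsFP A V ∧ q ∈ E ∧
          (∀ x : List Bool, (x ∈ L ↔
            ∃ w : List Bool, w.length ≤ 2 ^ q.eval x.length ∧ V (pairBits w x) = [true])) ∧
          ∀ k, ∀ i < sc e k + 1, dg ((cqs e k (2 ^ (r e).eval (sc e k))
            (List.replicate (2 ^ (r e).eval (sc e k)) true)).map A) i =
              (cens L (sc e k)).testBit i := by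
  classical
  have hne : Nonempty {q // q ∈ E} := ⟨⟨_, hE.lin 0⟩⟩
  have hca : Nonempty Alg := ⟨⟨_, CC.const_polyTime [], 0⟩⟩
  have hcp := CC.poly_countable
  have hc1 : Countable {q // q ∈ E} := inferInstance
  have hc2 : Countable Alg := Alg.countable
  obtain ⟨t, ht⟩ := exists_surjective_nat (Alg × {q // q ∈ E})
  choose r' hr' hcens using fun e : ℕ => NL_congr hE (t e).1 (t e).2.2
  set r : ℕ → Polynomial ℕ := fun e => r' e + Polynomial.C 1 * (Polynomial.X + 1) with hr
  have hre : ∀ e n, (r e).eval n = (r' e).eval n + (n + 1) := by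
    intro e n
    rw [hr]
    simp
  have hinj : ∀ {e e' k k' i i' : ℕ},
      codeC (r e) (sc e) e k i = codeC (r e') (sc e') e' k' i' → e = e' ∧ k = k' ∧ i = i' := by
    intro e e' k k' i i' h
    obtain ⟨h1, h2⟩ := CC.rep_inj _ _ _ _ h
    obtain ⟨h3, h4⟩ := CC.rep_inj _ _ _ _ h2
    obtain ⟨h5, h6⟩ := CC.rep_inj _ _ _ _ h4
    exact ⟨h1, h3, h5⟩
  refine ⟨r, fun e => hE.add _ (hr' e) _ (hE.lin 1), fun e n => by rw [hre]; omega, fun O => ?_⟩
  set len : ℕ → ℕ → ℕ := fun e k => 2 ^ (r e).eval (sc e k) with hlen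
  set lst : Oracle → ℕ → ℕ → List Bool := fun B e k =>
    (cqs e k (len e k) (List.replicate (len e k) true)).map B with hlst
  set JJ : Oracle → ℕ → ℕ → ℕ := fun A e k =>
    jst (lst O e k) (sc e k + 1) (cens (NL (t e).1 (t e).2.1 A) (sc e k)) with hJJ
  obtain ⟨Φ, hΦ1, hΦ2⟩ := exists_fix
    (ι := {p : ℕ × ℕ × ℕ // p.2.2 < len p.1 p.2.1})
    (fun p => codeC (r p.1.1) (sc p.1.1) p.1.1 p.1.2.1 p.1.2.2)
    (by
      rintro ⟨⟨e, k, i⟩, h⟩ ⟨⟨e', k', i'⟩, h'⟩ hh
      obtain ⟨h1, h2, h3⟩ := hinj hh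
      subst h1 h2 h3
      rfl)
    (fun p A => (O (codeC (r p.1.1) (sc p.1.1) p.1.1 p.1.2.1 p.1.2.2) ^^
      decide (p.1.2.2 = JJ A p.1.1 p.1.2.1)) = true)
    (by
      rintro ⟨⟨e, k, i⟩, h⟩ A A' hA
      dsimp only at hA ⊢
      have h2 : JJ A e k = JJ A' e k := by
        rw [hJJ]
        dsimp only
        rw [hcens e A A' (sc e k)]
        intro z hz
        apply hA
        rw [length_codeC]
        have h1 : 2 ^ (r' e).eval (sc e k) ≤ 2 ^ (r e).eval (sc e k) :=
          Nat.pow_le_pow_right (by norm_num) (by rw [hre]; omega)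
        omega
      rw [h2])
  set A := Φ O with hA
  have hA2 : ∀ e k i, i < len e k → A (codeC (r e) (sc e) e k i) =
      (O (codeC (r e) (sc e) e k i) ^^ decide (i = JJ A e k)) := by
    intro e k i hi
    have h1 := hΦ2 O ⟨(e, k, i), hi⟩
    dsimp only at h1
    rw [Bool.eq_iff_iff]
    exact h1
  refine ⟨A, JJ A, ?_, ?_⟩
  · intro y hy
    by_contra hcon
    push Not at hcon
    apply hy
    by_cases h : ∃ p : {p : ℕ × ℕ × ℕ // p.2.2 < len p.1 p.2.1},
        y = codeC (r p.1.1) (sc p.1.1) p.1.1 p.1.2.1 p.1.2.2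
    · obtain ⟨⟨⟨e, k, i⟩, hi⟩, hp⟩ := h
      dsimp only at hp hi
      rw [hp, hA2 e k i hi]
      have h2 : i ≠ JJ A e k := by
        intro h3
        rw [h3] at hp
        exact hcon e k hp
      simp [h2]
    · push Not at h
      exact hΦ1 O y h
  · rintro L ⟨V, ⟨M, hM⟩, q, hq, hL⟩
    obtain ⟨e, he⟩ := ht (M, ⟨q, hq⟩)
    refine ⟨e, V, q, ⟨M, hM⟩, hq, hL, fun k i hi => ?_⟩
    have h2 : NL M q A = L := by
      ext x
      rw [hL x]
      unfold NL
      simp only [Set.mem_ofPred_eq, hM, Option.some.injEq]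
    have hJ : JJ A e k = jst (lst O e k) (sc e k + 1) (cens L (sc e k)) := by
      rw [hJJ]
      dsimp only
      rw [he]
      dsimp only
      rw [h2]
    have hl1 : ∀ B, (lst B e k).length = len e k := by
      intro B
      rw [hlst]
      dsimp only
      rw [List.length_map, length_cqs]
    have h3 := dg_jst (l := lst O e k) (l' := lst A e k) (b := sc e k + 1)
      (c := cens L (sc e k)) (by rw [hl1, hl1]) (by
        rw [hl1]
        apply Nat.pow_le_pow_right (by norm_num)
        rw [hre]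
        omega) (by
        intro j hj
        rw [hl1] at hj
        rw [hlst]
        dsimp only
        have h4 := getD_cqs A (r e) (sc e) e k (len e k) j hj
        have h5 := getD_cqs O (r e) (sc e) e k (len e k) j hj
        rw [← hJ]
        refine h4.trans ?_
        rw [hA2 e k j hj]
        exact congrArg (fun b => b ^^ decide (j = JJ A e k)) h5.symm) hi
    exact h3

end Pool.Agent.TH771.CX
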