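import Pool.Agent.TH771.CX.PPZ
import Pool.Agent.W900.CH.Comb

/-!
# Changing few bits does not help nondeterministic algorithms
-/

set_option autoImplicit false

namespace Pool.Agent.TH771.CX

open Finset Pool.Agent.W900.CH

theorem pow_bound (s w k : ℕ) (κ : ℝ) (hw : 1 ≤ w) (hκ : 2 * (k : ℝ) ≤ κ) :
    (1 + (s : ℝ)) ^ k ≤ (1 + w * κ) ^ k * (1 + 2 ^ ((s : ℝ) / w - κ)) := by
  rcases Nat.eq_zero_or_pos k with rfl | hk
  · simp only [pow_zero, one_mul]
    have : (0 : ℝ) ≤ 2 ^ ((s : ℝ) / w - κ) := by positivity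
    linarith
  have hk1 : (1 : ℝ) ≤ k := by exact_mod_cast hk
  have hκ0 : 0 < κ := by linarith
  have hwR : (1 : ℝ) ≤ w := by exact_mod_cast hw
  have hW : (0 : ℝ) < 1 + w * κ := by positivity
  by_cases hs : (s : ℝ) ≤ w * κ
  · calc (1 + (s : ℝ)) ^ k ≤ (1 + w * κ) ^ k := by
          apply pow_le_pow_left₀ (by positivity)
          linarith
      _ ≤ (1 + w * κ) ^ k * (1 + 2 ^ ((s : ℝ) / w - κ)) := by
          apply le_mul_of_one_le_right (by positivity)
          have : (0 : ℝ) ≤ 2 ^ ((s : ℝ) / w - κ) := by positivity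
          linarith
  · rw [not_le] at hs
    set y : ℝ := (s : ℝ) / w - κ with hy
    have hy0 : 0 < y := by
      rw [hy, sub_pos, lt_div_iff₀ (by linarith)]
      linarith
    have hsy : (s : ℝ) = w * κ + w * y := by
      rw [hy]
      field_simp
      ring
    have h1 : 1 + (s : ℝ) ≤ (1 + w * κ) * (1 + y / κ) := by
      rw [hsy]
      have : (1 + w * κ) * (1 + y / κ) = 1 + w * κ + w * y + y / κ := by
        field_simp
        ring
      rw [this]
      have : 0 ≤ y / κ := by positivity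
      linarith
    have h2 : 1 + y / κ ≤ Real.exp (y / κ) := by
      have := Real.add_one_le_exp (y / κ)
      linarith
    calc (1 + (s : ℝ)) ^ k ≤ ((1 + w * κ) * Real.exp (y / κ)) ^ k := by
          apply pow_le_pow_left₀ (by positivity)
          exact h1.trans (mul_le_mul_of_nonneg_left h2 hW.le)
      _ = (1 + w * κ) ^ k * Real.exp (k * (y / κ)) := by
          rw [mul_pow, ← Real.exp_nat_mul]
      _ ≤ (1 + w * κ) ^ k * (1 + 2 ^ y) := by
          apply mul_le_mul_of_nonneg_left _ (by positivity)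
          have h3 : Real.exp (k * (y / κ)) ≤ 2 ^ y := by
            rw [Real.rpow_def_of_pos (by norm_num)]
            apply Real.exp_le_exp.2
            have h4 : (k : ℝ) * (y / κ) ≤ y / 2 := by
              rw [mul_div_assoc', div_le_div_iff₀ hκ0 (by norm_num)]
              nlinarith
            have h5 : (1 : ℝ) / 2 ≤ Real.log 2 := by
              have := Real.log_two_gt_d9
              linarith
            nlinarith
          linarith

variable {I : Type*} [Fintype I] [DecidableEq I]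

/-- Points near a set `G`, by changes of relevant bits only, are few. The relevant bits of `A` are
those in `T A` (at most `t` bits) and those in `S A`, where the bits `z ∈ S A` are determined by at
most `w` other bits among the members of a set `E ⊇ G` (with the same bits in `F`). -/
theorem spread (E G : Finset (I → Bool)) (hGE : G ⊆ E) (F : Finset I)
    (S : (I → Bool) → Finset I) (hSF : ∀ A ∈ E, ∀ z ∈ S A, z ∉ F)
    (C : (I → Bool) → I → Finset I) (w : ℕ) (hw1 : 1 ≤ w)
    (hw : ∀ A ∈ E, ∀ z ∈ S A, (C A z).card ≤ w)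
    (hz : ∀ A ∈ E, ∀ z ∈ S A, z ∈ C A z)
    (hC : ∀ A ∈ E, ∀ z ∈ S A, ∀ A' ∈ E, (∀ i ∈ F, A' i = A i) →
      (∀ i ∈ C A z, i ≠ z → A' i = A i) → A' z = A z)
    (T : (I → Bool) → Finset I) (t : ℕ) (hT : ∀ A ∈ G, (T A).card ≤ t) (k : ℕ) (κ : ℝ)
    (hκ : 2 * (k : ℝ) ≤ κ) (X : Finset (I → Bool))
    (hX : ∀ O ∈ X, ∃ A ∈ G, df O A ⊆ T A ∪ S A ∧ (df O A).card ≤ k) :
    (X.card : ℝ) ≤ ((t + 1) * (1 + w * κ)) ^ k * (G.card + 2 ^ (-κ) * 2 ^ Fintype.card I) := by
  have h1 : X ⊆ G.biUnion fun A =>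
      ((T A ∪ S A).powerset.filter (fun D => D.card ≤ k)).image fun D => ch A D := by
    intro O hO
    obtain ⟨A, hA, hsub, hcard⟩ := hX O hO
    rw [Finset.mem_biUnion]
    refine ⟨A, hA, ?_⟩
    rw [Finset.mem_image]
    refine ⟨df O A, ?_, ch_df O A⟩
    rw [Finset.mem_filter, Finset.mem_powerset]
    exact ⟨hsub, hcard⟩
  have h2 : X.card ≤ ∑ A ∈ G, ((T A ∪ S A).card + 1) ^ k := by
    refine (Finset.card_le_card h1).trans (Finset.card_biUnion_le.trans ?_)
    refine Finset.sum_le_sum fun A _ => ?_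
    exact Finset.card_image_le.trans (card_small' _ _)
  have hκ0 : 0 ≤ κ := le_trans (by positivity) hκ
  have h3 : ∀ A ∈ G, ((((T A ∪ S A).card + 1) ^ k : ℕ) : ℝ) ≤
      ((t + 1) * (1 + w * κ)) ^ k * (1 + 2 ^ (-κ) * 2 ^ (((S A).card : ℝ) / w)) := by
    intro A hA
    have e1 : (T A ∪ S A).card + 1 ≤ (t + 1) * (1 + (S A).card) := by
      have := Finset.card_union_le (T A) (S A)
      have := hT A hA
      nlinarith
    have e2 := pow_bound (S A).card w k κ hw1 hκ
    have e3 : (2 : ℝ) ^ (((S A).card : ℝ) / w - κ) = 2 ^ (-κ) * 2 ^ (((S A).card : ℝ) / w) := by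
      rw [← Real.rpow_add (by norm_num)]
      congr 1
      ring
    rw [e3] at e2
    have e4 : ((((T A ∪ S A).card + 1) ^ k : ℕ) : ℝ) ≤ ((t + 1) * (1 + ((S A).card : ℝ))) ^ k := by
      push_cast
      apply pow_le_pow_left₀ (by positivity)
      exact_mod_cast e1
    refine e4.trans ?_
    rw [mul_pow, mul_pow, mul_assoc]
    exact mul_le_mul_of_nonneg_left e2 (by positivity)
  have h4 : (X.card : ℝ) ≤ ∑ A ∈ G, ((t + 1) * (1 + w * κ)) ^ k *
      (1 + 2 ^ (-κ) * 2 ^ (((S A).card : ℝ) / w)) := by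
    refine (Nat.cast_le.2 h2).trans ?_
    rw [Nat.cast_sum]
    exact Finset.sum_le_sum h3
  refine h4.trans ?_
  rw [← Finset.mul_sum, Finset.sum_add_distrib, Finset.sum_const, nsmul_eq_mul, mul_one,
    ← Finset.mul_sum]
  apply mul_le_mul_of_nonneg_left _ (by positivity)
  have h5 := ppz E F S hSF C w hw hz hC
  have h6 : ∑ A ∈ G, (2 : ℝ) ^ (((S A).card : ℝ) / w) ≤ 2 ^ Fintype.card I :=
    (Finset.sum_le_sum_of_subset_of_nonneg hGE fun _ _ _ => by positivity).trans h5
  have h7 : (0 : ℝ) ≤ 2 ^ (-κ) := by positivity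
  nlinarith [mul_le_mul_of_nonneg_left h6 h7]

end Pool.Agent.TH771.CX
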